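import Pool.Agent.Lib.MP_387a85_ag.TR.Spec

/-! Module AFF (helper99): the multiplicity at an affine point and the two Wronskians. -/

set_option autoImplicit false

namespace Pool.Agent.Lib.MP387a85.TR

namespace AFFM

open MvPolynomial

variable {k : Type} [Field k]

theorem iter_mem (D : Derivation k (MvPolynomial (Fin 3) k) (MvPolynomial (Fin 3) k))
    (I : Ideal (MvPolynomial (Fin 3) k)) (n s : ℕ) (F : MvPolynomial (Fin 3) k)
    (hF : F ∈ I ^ (s + n)) : (D^[n]) F ∈ I ^ s := by
  induction n generalizing F with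
  | zero => exact hF
  | succ n ih =>
    rw [Function.iterate_succ_apply]
    exact ih (D F) (deriv_mem D I (s + n) F hF)

theorem Dij_mem (G : MvPolynomial (Fin 3) k) (v : Fin 3 → k) (s i j : ℕ)
    (hG : G ∈ pt v ^ (s + (i + j))) : Dij G i j ∈ pt v ^ s := by
  unfold Dij
  refine iter_mem _ _ j s _ (iter_mem _ _ i (s + j) _ ?_)
  have h : s + j + i = s + (i + j) := by ring
  rw [h]
  exact hG

theorem psi_eval (a b : k) (H : MvPolynomial (Fin 3) k) :
    (aeval ![Polynomial.X + Polynomial.C a, Polynomial.X + Polynomial.C b, 1] H :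
      Polynomial k).eval 0 = eval ![a, b, 1] H := by
  induction H using MvPolynomial.induction_on with
  | C c => simp
  | add p q hp hq => rw [map_add, Polynomial.eval_add, hp, hq, map_add]
  | mul_X p i hp =>
    rw [map_mul, Polynomial.eval_mul, hp, map_mul]
    fin_cases i <;> simp

theorem psi_mem (a b : k) (H : MvPolynomial (Fin 3) k) (s : ℕ) (hH : H ∈ pt ![a, b, 1] ^ s) :
    (Polynomial.X ^ s : Polynomial k) ∣
      aeval ![Polynomial.X + Polynomial.C a, Polynomial.X + Polynomial.C b, 1] H := by
  have h1 : pt ![a, b, 1] ≤ Ideal.comap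
      (aeval ![Polynomial.X + Polynomial.C a, Polynomial.X + Polynomial.C b, 1] :
        MvPolynomial (Fin 3) k →ₐ[k] Polynomial k) (Ideal.span {(Polynomial.X : Polynomial k)}) := by
    intro F hF
    rw [Ideal.mem_comap, Ideal.mem_span_singleton, Polynomial.X_dvd_iff,
      Polynomial.coeff_zero_eq_eval_zero]
    exact (psi_eval a b F).trans (mem_pt.1 hF)
  have h2 := (Ideal.pow_right_mono h1 s).trans (Ideal.le_comap_pow _ s) hH
  rw [Ideal.mem_comap, Ideal.span_singleton_pow, Ideal.mem_span_singleton] at h2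
  exact h2

theorem dvd_det {t : ℕ} (M : Matrix (Fin t) (Fin t) (Polynomial k)) (p : Polynomial k)
    (h : ∀ i j, p ∣ M i j) : p ^ t ∣ M.det := by
  choose N hN using h
  have h1 : M = p • (Matrix.of N) := by
    ext1 i j
    rw [hN]
    rfl
  rw [h1, Matrix.det_smul, Fintype.card_fin]
  exact Dvd.intro _ rfl

end AFFM

open MvPolynomial in
theorem specAFF (hKEY : SpecKEY) : SpecAFF := by
  intro k _ _ t G f g hrep hf hg a b s hs
  rcases lt_or_ge s (2 * t) with h | h
  · have h1 : t * s ≤ t * (2 * t) := Nat.mul_le_mul_left t h.le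
    nlinarith
  · obtain ⟨m, rfl⟩ := Nat.exists_eq_add_of_le h
    have h1 : ∀ i j : Fin t, (Polynomial.X ^ m : Polynomial k) ∣
        (Matrix.of fun i j : Fin t => (aeval ![Polynomial.X + Polynomial.C a,
          Polynomial.X + Polynomial.C b, 1] (Dij G i j) : Polynomial k)) i j := by
      intro i j
      refine AFFM.psi_mem a b _ m ?_
      have h2 : (i : ℕ) + j ≤ 2 * t := by omega
      have h3 : 2 * t + m = (2 * t + m - ((i : ℕ) + j)) + ((i : ℕ) + j) := by omega
      rw [h3] at hs
      exact Ideal.pow_le_pow_right (by omega) (AFFM.Dij_mem G _ _ i j hs)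
    have h2 := AFFM.dvd_det _ _ h1
    rw [hKEY k t G f g hrep, ← pow_mul] at h2
    have h3 : (Wr f).comp (Polynomial.X + Polynomial.C a) ≠ 0 := by
      rw [Ne, Polynomial.comp_X_add_C_eq_zero_iff]
      exact hf
    have h4 : (Wr g).comp (Polynomial.X + Polynomial.C b) ≠ 0 := by
      rw [Ne, Polynomial.comp_X_add_C_eq_zero_iff]
      exact hg
    have h5 : m * t ≤ Polynomial.rootMultiplicity 0
        ((Wr f).comp (Polynomial.X + Polynomial.C a) *
          (Wr g).comp (Polynomial.X + Polynomial.C b)) := by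
      rw [Polynomial.le_rootMultiplicity_iff (mul_ne_zero h3 h4), Polynomial.C_0, sub_zero]
      exact h2
    rw [Polynomial.rootMultiplicity_mul (mul_ne_zero h3 h4),
      ← Polynomial.rootMultiplicity_eq_rootMultiplicity,
      ← Polynomial.rootMultiplicity_eq_rootMultiplicity] at h5
    nlinarith

end Pool.Agent.Lib.MP387a85.TR
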