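import Pool.Agent.Lib.MP_387a85_ag.TR.SpecX

/-! Module AFX (helper60): the multiplicity at an affine point and the two Wronskians, exact constant. -/

set_option autoImplicit false

namespace Pool.Agent.Lib.MP387a85.TR

namespace AFXM

open MvPolynomial

variable {k : Type} [Field k]

theorem iter_mem (D : Derivation k (MvPolynomial (Fin 3) k) (MvPolynomial (Fin 3) k))
    (I : Ideal (MvPolynomial (Fin 3) k)) (n s : ℕ) (F : MvPolynomial (Fin 3) k)
    (hF : F ∈ I ^ (s + n)) : (D^[n]) F ∈ I ^ s := by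
  induction n generalizing F with
  | zero => exact hF
  | succ n ih =>
    rw [Function.iterate_succ_apply]
    exact ih (D F) (deriv_mem D I (s + n) F hF)

theorem Dij_mem (G : MvPolynomial (Fin 3) k) (v : Fin 3 → k) (s i j : ℕ)
    (hG : G ∈ pt v ^ (s + (i + j))) : Dij G i j ∈ pt v ^ s := by
  unfold Dij
  refine iter_mem _ _ j s _ (iter_mem _ _ i (s + j) _ ?_)
  have h : s + j + i = s + (i + j) := by ring
  rw [h]
  exact hG

theorem psi_eval (a b : k) (H : MvPolynomial (Fin 3) k) :
    (aeval ![Polynomial.X + Polynomial.C a, Polynomial.X + Polynomial.C b, 1] H :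
      Polynomial k).eval 0 = eval ![a, b, 1] H := by
  induction H using MvPolynomial.induction_on with
  | C c => simp
  | add p q hp hq => rw [map_add, Polynomial.eval_add, hp, hq, map_add]
  | mul_X p i hp =>
    rw [map_mul, Polynomial.eval_mul, hp, map_mul]
    fin_cases i <;> simp

theorem psi_mem (a b : k) (H : MvPolynomial (Fin 3) k) (s : ℕ) (hH : H ∈ pt ![a, b, 1] ^ s) :
    (Polynomial.X ^ s : Polynomial k) ∣
      aeval ![Polynomial.X + Polynomial.C a, Polynomial.X + Polynomial.C b, 1] H := by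
  have h1 : pt ![a, b, 1] ≤ Ideal.comap
      (aeval ![Polynomial.X + Polynomial.C a, Polynomial.X + Polynomial.C b, 1] :
        MvPolynomial (Fin 3) k →ₐ[k] Polynomial k) (Ideal.span {(Polynomial.X : Polynomial k)}) := by
    intro F hF
    rw [Ideal.mem_comap, Ideal.mem_span_singleton, Polynomial.X_dvd_iff,
      Polynomial.coeff_zero_eq_eval_zero]
    exact (psi_eval a b F).trans (mem_pt.1 hF)
  have h2 := (Ideal.pow_right_mono h1 s).trans (Ideal.le_comap_pow _ s) hH
  rw [Ideal.mem_comap, Ideal.span_singleton_pow, Ideal.mem_span_singleton] at h2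
  exact h2

theorem sum_fin (t : ℕ) : 2 * ∑ i : Fin t, (i : ℕ) = t * (t - 1) := by
  rw [Fin.sum_univ_eq_sum_range (fun i => i) t, mul_comm, Finset.sum_range_id_mul_two]

theorem dvd_det {t : ℕ} (M : Matrix (Fin t) (Fin t) (Polynomial k)) (s : ℕ)
    (h : ∀ i j : Fin t, (Polynomial.X ^ (s - ((i : ℕ) + j)) : Polynomial k) ∣ M i j) :
    (Polynomial.X ^ (t * s - t * (t - 1)) : Polynomial k) ∣ M.det := by
  rw [Matrix.det_apply]
  refine Finset.dvd_sum fun σ _ => ?_
  have h1 : (Polynomial.X ^ (t * s - t * (t - 1)) : Polynomial k) ∣ ∏ i, M (σ i) i := by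
    have h2 : (∏ i : Fin t, (Polynomial.X ^ (s - ((σ i : ℕ) + i)) : Polynomial k)) ∣
        ∏ i, M (σ i) i := Finset.prod_dvd_prod_of_dvd _ _ fun i _ => h (σ i) i
    rw [Finset.prod_pow_eq_pow_sum] at h2
    refine (pow_dvd_pow _ ?_).trans h2
    have h3 : ∑ i : Fin t, ((σ i : ℕ) + i) = t * (t - 1) := by
      rw [Finset.sum_add_distrib, Equiv.sum_comp σ (fun i : Fin t => (i : ℕ)), ← two_mul, sum_fin]
    have h4 : t * s ≤ ∑ i : Fin t, (s - ((σ i : ℕ) + i)) + ∑ i : Fin t, ((σ i : ℕ) + i) := by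
      rw [← Finset.sum_add_distrib]
      calc t * s = ∑ _i : Fin t, s := by simp
        _ ≤ _ := Finset.sum_le_sum fun i _ => by omega
    omega
  obtain ⟨c, hc⟩ := h1
  exact ⟨Equiv.Perm.sign σ • c, by rw [hc, mul_smul_comm]⟩

end AFXM

open MvPolynomial in
theorem specAFX (hKEY : SpecKEY) : SpecAFX := by
  intro k _ _ t G f g hrep hf hg a b s hs
  have h1 : ∀ i j : Fin t, (Polynomial.X ^ (s - ((i : ℕ) + j)) : Polynomial k) ∣
      (Matrix.of fun i j : Fin t => (aeval ![Polynomial.X + Polynomial.C a,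
        Polynomial.X + Polynomial.C b, 1] (Dij G i j) : Polynomial k)) i j := by
    intro i j
    rcases le_or_gt ((i : ℕ) + j) s with h | h
    · refine AFXM.psi_mem a b _ _ (AFXM.Dij_mem G _ _ i j ?_)
      rw [Nat.sub_add_cancel h]
      exact hs
    · rw [Nat.sub_eq_zero_of_le h.le, pow_zero]
      exact one_dvd _
  have h2 := AFXM.dvd_det _ s h1
  rw [hKEY k t G f g hrep] at h2
  have h3 : (Wr f).comp (Polynomial.X + Polynomial.C a) ≠ 0 := by
    rw [Ne, Polynomial.comp_X_add_C_eq_zero_iff]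
    exact hf
  have h4 : (Wr g).comp (Polynomial.X + Polynomial.C b) ≠ 0 := by
    rw [Ne, Polynomial.comp_X_add_C_eq_zero_iff]
    exact hg
  have h5 : t * s - t * (t - 1) ≤ Polynomial.rootMultiplicity 0
      ((Wr f).comp (Polynomial.X + Polynomial.C a) *
        (Wr g).comp (Polynomial.X + Polynomial.C b)) := by
    rw [Polynomial.le_rootMultiplicity_iff (mul_ne_zero h3 h4), Polynomial.C_0, sub_zero]
    exact h2
  rw [Polynomial.rootMultiplicity_mul (mul_ne_zero h3 h4),
    ← Polynomial.rootMultiplicity_eq_rootMultiplicity,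
    ← Polynomial.rootMultiplicity_eq_rootMultiplicity] at h5
  omega

end Pool.Agent.Lib.MP387a85.TR
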