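import Pool.Agent.Lib.MP_387a85_ag.TR.Spec

/-!
# MP_387a85_ag: curves of bounded tensor rank, assembly (helper28)
-/

set_option autoImplicit false

namespace Pool.Agent.Lib.MP387a85.TR

open MvPolynomial

namespace ASMM

variable {k : Type} [Field k]

theorem prop_of_eq {r : ℕ} (w : Fin r → Fin 3 → k) (l l' : Fin r) (hl : w l 2 ≠ 0) (hl' : w l' 2 ≠ 0)
    (h0 : w l 0 / w l 2 = w l' 0 / w l' 2) (h1 : w l 1 / w l 2 = w l' 1 / w l' 2) :
    w l = (w l 2 / w l' 2) • w l' := by
  funext j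
  rw [Pi.smul_apply, smul_eq_mul]
  rw [div_eq_div_iff hl hl'] at h0 h1
  fin_cases j
  · show w l 0 = w l 2 / w l' 2 * w l' 0
    field_simp
    linear_combination h0
  · show w l 1 = w l 2 / w l' 2 * w l' 1
    field_simp
    linear_combination h1
  · show w l 2 = w l 2 / w l' 2 * w l' 2
    field_simp

theorem eq_smul (v : Fin 3 → k) (h : v 2 ≠ 0) : v = v 2 • ![v 0 / v 2, v 1 / v 2, 1] := by
  funext j
  fin_cases j
  · show v 0 = v 2 * (v 0 / v 2)
    field_simp
  · show v 1 = v 2 * (v 1 / v 2)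
    field_simp
  · show v 2 = v 2 * 1
    ring

omit [Field k] in
/-- a representative of each value of `a` on `A` -/
theorem exists_rep {r : ℕ} (A : Set (Fin r)) (a : Fin r → k) :
    ∃ α : Fin r → Fin r, (∀ l ∈ A, α l ∈ A ∧ a (α l) = a l) ∧
      ∀ l ∈ A, ∀ l' ∈ A, a l = a l' → α l = α l' := by
  classical
  have key : ∃ ρ : k → Fin r → Fin r, ∀ x, (∃ l ∈ A, a l = x) →
      ∃ l' ∈ A, a l' = x ∧ ∀ l, ρ x l = l' := by
    refine ⟨fun x l => if h : ∃ l' ∈ A, a l' = x then h.choose else l, fun x hx => ?_⟩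
    exact ⟨hx.choose, hx.choose_spec.1, hx.choose_spec.2, fun l => dif_pos hx⟩
  obtain ⟨ρ, hρ⟩ := key
  refine ⟨fun l => ρ (a l) l, fun l hl => ?_, fun l hl l' hl' h => ?_⟩
  · obtain ⟨l', h1, h2, h3⟩ := hρ (a l) ⟨l, hl, rfl⟩
    show ρ (a l) l ∈ A ∧ a (ρ (a l) l) = a l
    rw [h3 l]
    exact ⟨h1, h2⟩
  · obtain ⟨l'', h1, h2, h3⟩ := hρ (a l) ⟨l, hl, rfl⟩
    show ρ (a l) l = ρ (a l') l'
    rw [← h, h3 l, h3 l']

theorem sum_root_le {r : ℕ} (P : Polynomial k) (S : Finset (Fin r)) (a : Fin r → k)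
    (ha : Set.InjOn a S) : ∑ l ∈ S, P.rootMultiplicity (a l) ≤ P.natDegree := by
  classical
  have h1 : ∑ l ∈ S, P.rootMultiplicity (a l) = ∑ x ∈ S.image a, P.roots.count x := by
    rw [Finset.sum_image ha]
    refine Finset.sum_congr rfl fun l _ => ?_
    rw [Polynomial.count_roots]
  rw [h1]
  refine le_trans ?_ (Polynomial.card_roots' P)
  calc ∑ x ∈ S.image a, P.roots.count x ≤ ∑ x ∈ P.roots.toFinset, P.roots.count x := by
        rw [← Finset.sum_filter_add_sum_filter_not (S.image a) (fun x => x ∈ P.roots.toFinset)]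
        have h2 : ∑ x ∈ (S.image a).filter (fun x => ¬ x ∈ P.roots.toFinset), P.roots.count x = 0 := by
          refine Finset.sum_eq_zero fun x hx => ?_
          rw [Finset.mem_filter, Multiset.mem_toFinset] at hx
          exact Multiset.count_eq_zero.2 hx.2
        rw [h2, add_zero]
        refine Finset.sum_le_sum_of_subset fun x hx => ?_
        exact (Finset.mem_filter.1 hx).2
    _ = P.roots.card := Multiset.toFinset_sum_count_eq _

/-- the inequality for the affine points -/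
theorem affine [CharZero k] (hAFF : SpecAFF) (hDEG : SpecDEG) (hDEX : SpecDEX) (hLOD : SpecLOD)
    (hWRO : SpecWRO)
    (r t K : ℕ)
    (hK : ∀ α β : Fin r → Fin r, ∀ (d n m U W : ℕ) (e u w : Fin r → ℕ),
      (∀ i, t * e i ≤ u (α i) + w (β i) + 2 * t ^ 2) → ∑ a, u a ≤ U → ∑ b, w b ≤ W → U + W ≤ t * d →
      U ≤ t * n → W ≤ t * m → (∀ a, ∑ i with α i = a, e i ≤ m) → (∀ b, ∑ i with β i = b, e i ≤ n) →
      n ≤ d → m ≤ d → d ≤ n + m →
      (∑ i, (e i : ℤ) ^ 2) + ((n : ℤ) + m - d) ^ 2 ≤ 2 * n * m + K)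
    (G : MvPolynomial (Fin 3) k) (d : ℕ) (hd : G.IsHomogeneous d)
    (h2 : ¬ (X 2 : MvPolynomial (Fin 3) k) ∣ G)
    (h0 : ∀ a : k, ¬ (X 0 - C a * X 2 : MvPolynomial (Fin 3) k) ∣ G)
    (h1 : ∀ a : k, ¬ (X 1 - C a * X 2 : MvPolynomial (Fin 3) k) ∣ G)
    (f g : Fin t → Polynomial k) (hf : LinearIndependent k f) (hg : LinearIndependent k g)
    (hR : Rep G f g) (A : Finset (Fin r)) (a b : Fin r → k) (e : Fin r → ℕ)
    (he : ∀ l ∈ A, G ∈ pt ![a l, b l, 1] ^ e l) (he0 : ∀ l, l ∉ A → e l = 0)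
    (hinj : ∀ l ∈ A, ∀ l' ∈ A, a l = a l' → b l = b l' → l = l') :
    (∑ i, (e i : ℤ) ^ 2) + ((degreeOf 0 G : ℤ) + degreeOf 1 G - d) ^ 2 ≤
      2 * (degreeOf 0 G : ℤ) * degreeOf 1 G + K := by
  classical
  obtain ⟨α, hα1, hα2⟩ := exists_rep (A : Set (Fin r)) a
  obtain ⟨β, hβ1, hβ2⟩ := exists_rep (A : Set (Fin r)) b
  have hWf := hWRO k t f hf
  have hWg := hWRO k t g hg
  let u : Fin r → ℕ := fun l => if l ∈ A ∧ α l = l then (Wr f).rootMultiplicity (a l) else 0
  let w : Fin r → ℕ := fun l => if l ∈ A ∧ β l = l then (Wr g).rootMultiplicity (b l) else 0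
  have hsupp : ∀ α0 ∈ G.support, α0.degree = d := by
    intro γ hγ
    by_contra hne
    exact (mem_support_iff.1 hγ) (hd.coeff_eq_zero hne)
  have hdeg : ∀ i : Fin 3, degreeOf i G ≤ d := fun i =>
    (degreeOf_le_totalDegree G i).trans hd.totalDegree_le
  refine hK α β d (degreeOf 0 G) (degreeOf 1 G) (Wr f).natDegree (Wr g).natDegree e u w ?_ ?_ ?_
    (hDEG k t G d f g hd hR hWf hWg) ((hDEX k t G f g hR).1 hg) ((hDEX k t G f g hR).2 hf) ?_ ?_
    (hdeg 0) (hdeg 1) ?_
  · intro i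
    by_cases hi : i ∈ A
    · have h3 := hα1 i hi
      have h4 := hβ1 i hi
      have h5 : α (α i) = α i := hα2 _ h3.1 _ hi h3.2
      have h6 : β (β i) = β i := hβ2 _ h4.1 _ hi h4.2
      have h7 : u (α i) = (Wr f).rootMultiplicity (a i) := by
        show (if α i ∈ A ∧ α (α i) = α i then (Wr f).rootMultiplicity (a (α i)) else 0) = _
        rw [if_pos ⟨h3.1, h5⟩, h3.2]
      have h8 : w (β i) = (Wr g).rootMultiplicity (b i) := by
        show (if β i ∈ A ∧ β (β i) = β i then (Wr g).rootMultiplicity (b (β i)) else 0) = _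
        rw [if_pos ⟨h4.1, h6⟩, h4.2]
      rw [h7, h8]
      exact hAFF k t G f g hR hWf hWg (a i) (b i) (e i) (he i hi)
    · rw [he0 i hi, mul_zero]
      exact Nat.zero_le _
  · have h3 : ∑ l, u l = ∑ l ∈ Finset.univ.filter (fun l => l ∈ A ∧ α l = l),
        (Wr f).rootMultiplicity (a l) := by
      rw [Finset.sum_filter]
    rw [h3]
    refine sum_root_le (Wr f) _ a ?_
    intro l hl l' hl' h
    rw [Finset.mem_coe, Finset.mem_filter] at hl hl'
    rw [← hl.2.2, ← hl'.2.2]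
    exact hα2 l hl.2.1 l' hl'.2.1 h
  · have h3 : ∑ l, w l = ∑ l ∈ Finset.univ.filter (fun l => l ∈ A ∧ β l = l),
        (Wr g).rootMultiplicity (b l) := by
      rw [Finset.sum_filter]
    rw [h3]
    refine sum_root_le (Wr g) _ b ?_
    intro l hl l' hl' h
    rw [Finset.mem_coe, Finset.mem_filter] at hl hl'
    rw [← hl.2.2, ← hl'.2.2]
    exact hβ2 l hl.2.1 l' hl'.2.1 h
  · intro c
    have h3 : ∑ i ∈ Finset.univ.filter (fun i => α i = c), e i =
        ∑ i ∈ A.filter (fun i => α i = c), e i := by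
      rw [← Finset.sum_filter_add_sum_filter_not (Finset.univ.filter fun i => α i = c)
        (fun i => i ∈ A)]
      have h4 : ∑ i ∈ (Finset.univ.filter fun i => α i = c).filter (fun i => ¬ i ∈ A), e i = 0 :=
        Finset.sum_eq_zero fun i hi => he0 i (Finset.mem_filter.1 hi).2
      rw [h4, add_zero]
      refine Finset.sum_congr ?_ fun _ _ => rfl
      ext i
      simp only [Finset.mem_filter, Finset.mem_univ, true_and]
      exact and_comm
    rw [h3]
    rcases (A.filter fun i => α i = c).eq_empty_or_nonempty with hE | ⟨i0, hi0⟩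
    · rw [hE, Finset.sum_empty]
      exact Nat.zero_le _
    have hval : ∀ i ∈ A.filter (fun i => α i = c), a i = a i0 := by
      intro i hi
      rw [Finset.mem_filter] at hi hi0
      rw [← (hα1 i hi.1).2, ← (hα1 i0 hi0.1).2, hi.2, hi0.2]
    refine ((hLOD k G d r hd (a i0) (A.filter fun i => α i = c) b e ?_).1 (h0 _) ?_)
    · intro i hi j hj hb
      rw [Finset.mem_coe] at hi hj
      exact hinj i (Finset.mem_filter.1 hi).1 j (Finset.mem_filter.1 hj).1
        ((hval i hi).trans (hval j hj).symm) hb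
    · intro i hi
      rw [← hval i hi]
      exact he i (Finset.mem_filter.1 hi).1
  · intro c
    have h3 : ∑ i ∈ Finset.univ.filter (fun i => β i = c), e i =
        ∑ i ∈ A.filter (fun i => β i = c), e i := by
      rw [← Finset.sum_filter_add_sum_filter_not (Finset.univ.filter fun i => β i = c)
        (fun i => i ∈ A)]
      have h4 : ∑ i ∈ (Finset.univ.filter fun i => β i = c).filter (fun i => ¬ i ∈ A), e i = 0 :=
        Finset.sum_eq_zero fun i hi => he0 i (Finset.mem_filter.1 hi).2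
      rw [h4, add_zero]
      refine Finset.sum_congr ?_ fun _ _ => rfl
      ext i
      simp only [Finset.mem_filter, Finset.mem_univ, true_and]
      exact and_comm
    rw [h3]
    rcases (A.filter fun i => β i = c).eq_empty_or_nonempty with hE | ⟨i0, hi0⟩
    · rw [hE, Finset.sum_empty]
      exact Nat.zero_le _
    have hval : ∀ i ∈ A.filter (fun i => β i = c), b i = b i0 := by
      intro i hi
      rw [Finset.mem_filter] at hi hi0
      rw [← (hβ1 i hi.1).2, ← (hβ1 i0 hi0.1).2, hi.2, hi0.2]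
    refine ((hLOD k G d r hd (b i0) (A.filter fun i => β i = c) a e ?_).2 (h1 _) ?_)
    · intro i hi j hj hb
      rw [Finset.mem_coe] at hi hj
      exact hinj i (Finset.mem_filter.1 hi).1 j (Finset.mem_filter.1 hj).1 hb
        ((hval i hi).trans (hval j hj).symm)
    · intro i hi
      rw [← hval i hi]
      exact he i (Finset.mem_filter.1 hi).1
  · obtain ⟨γ, hγ, hγ2⟩ := exists_zero 2 G h2
    have h3 := hsupp γ hγ
    rw [Finsupp.degree_eq_sum, Fin.sum_univ_three, hγ2] at h3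
    have h4 := monomial_le_degreeOf 0 hγ
    have h5 := monomial_le_degreeOf 1 hγ
    omega

/-- The inequality for curves with a reduced representation. -/
theorem core (hAFF : SpecAFF) (hDEG : SpecDEG) (hDEX : SpecDEX) (hLOD : SpecLOD)
    (hWRO : SpecWRO) (hCOF : SpecCOF) (hINF : SpecINF) (hSCL : SpecSCL) (hLIN : SpecLIN)
    (hCMB : SpecCMB) (r t : ℕ) : ∃ K : ℕ, ∀ (k : Type) [Field k] [CharZero k]
    (G : MvPolynomial (Fin 3) k) (d : ℕ), G.IsHomogeneous d → Irreducible G →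
    ∀ f g : Fin t → Polynomial k, LinearIndependent k f → LinearIndependent k g → Rep G f g →
    ∀ w : Fin r → Fin 3 → k, (∀ l, w l ≠ 0) → (∀ l l', l ≠ l' → ∀ c : k, w l ≠ c • w l') →
    ∀ e : Fin r → ℕ, (∀ l, G ∈ pt (w l) ^ e l) → (∑ l, (e l : ℤ) ^ 2) ≤ (d : ℤ) ^ 2 + K := by
  classical
  rcases Nat.eq_zero_or_pos t with ht | ht
  · subst ht
    refine ⟨0, ?_⟩
    intro k _ _ G d hd hG f g _ _ hR
    exfalso
    obtain ⟨γ, hγ⟩ := support_nonempty.2 hG.ne_zero
    have := (hCOF k 0 G d f g hd hR).2 γ hγ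
    simp only [Finset.univ_eq_empty, Finset.sum_empty] at this
    exact (mem_support_iff.1 hγ) this.symm
  choose K0 hK0 using fun α β : Fin r → Fin r => hCMB r t (2 * t ^ 2) α β ht
  let K : ℕ := ∑ α, ∑ β, K0 α β
  have hKle : ∀ α β, K0 α β ≤ K := by
    intro α β
    calc K0 α β ≤ ∑ β, K0 α β := Finset.single_le_sum (f := fun β => K0 α β)
          (fun _ _ => Nat.zero_le _) (Finset.mem_univ β)
      _ ≤ K := Finset.single_le_sum (f := fun α => ∑ β, K0 α β)
          (fun _ _ => Nat.zero_le _) (Finset.mem_univ α)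
  refine ⟨K + r * t ^ 2 + r, ?_⟩
  intro k _ _ G d hd hG f g hf hg hR w hw0 hne e he
  by_cases hd1 : d = 1
  · have h1 : ∀ l, e l ≤ 1 := fun l => hd1 ▸ (hSCL k G d hd).2 hG.ne_zero (w l) (e l) (he l)
    have h2 : (∑ l, (e l : ℤ) ^ 2) ≤ r := by
      calc (∑ l, (e l : ℤ) ^ 2) ≤ ∑ l : Fin r, (1 : ℤ) := by
            refine Finset.sum_le_sum fun l _ => ?_
            have h3 : (e l : ℤ) ≤ 1 := by exact_mod_cast h1 l
            have h4 : (0 : ℤ) ≤ (e l : ℤ) := Int.natCast_nonneg _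
            nlinarith
        _ = r := by simp
    push_cast
    have h5 : (0 : ℤ) ≤ K := Int.natCast_nonneg _
    have h6 : (0 : ℤ) ≤ (r : ℤ) * (t : ℤ) ^ 2 := by positivity
    have h7 : (0 : ℤ) ≤ (d : ℤ) ^ 2 := sq_nonneg _
    linarith
  obtain ⟨hX2, hX0, hX1⟩ := hLIN k G d hd hG hd1
  set n := degreeOf 0 G with hn
  set m := degreeOf 1 G with hm
  let A : Finset (Fin r) := Finset.univ.filter fun l => w l 2 ≠ 0
  let e' : Fin r → ℕ := fun l => if l ∈ A then e l else 0
  have hAm : ∀ l, l ∈ A ↔ w l 2 ≠ 0 := fun l => by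
    show l ∈ Finset.univ.filter _ ↔ _
    rw [Finset.mem_filter]
    exact ⟨fun h => h.2, fun h => ⟨Finset.mem_univ _, h⟩⟩
  have hmain := affine hAFF hDEG hDEX hLOD hWRO r t K
    (fun α β d n m U W e u w c1 c2 c3 c4 c5 c6 c7 c8 c9 c10 c11 => by
      have h1 := hK0 α β d n m U W e u w c1 c2 c3 c4 c5 c6 c7 c8 c9 c10 c11
      have h2 : (K0 α β : ℤ) ≤ K := by exact_mod_cast hKle α β
      linarith)
    G d hd hX2 hX0 hX1 f g hf hg hR A (fun l => w l 0 / w l 2) (fun l => w l 1 / w l 2)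
    e' (by
      intro l hl
      show G ∈ pt ![w l 0 / w l 2, w l 1 / w l 2, 1] ^ (if l ∈ A then e l else 0)
      rw [if_pos hl]
      have h3 := (hAm l).1 hl
      refine (hSCL k G d hd).1 (w l 2) _ _ h3 ?_
      rw [← eq_smul (w l) h3]
      exact he l) (by
      intro l hl
      show (if l ∈ A then e l else 0) = 0
      rw [if_neg hl]) (by
      intro l hl l' hl' h3 h4
      by_contra hll
      exact hne l l' hll _ (prop_of_eq w l l' ((hAm l).1 hl) ((hAm l').1 hl') h3 h4))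
  -- the vertices
  have hsup : ∀ i : Fin 3, ∃ γ ∈ G.support, γ i = degreeOf i G := by
    intro i
    obtain ⟨γ, hγ, h3⟩ := Finset.exists_mem_eq_sup G.support (support_nonempty.2 hG.ne_zero)
      (fun γ : Fin 3 →₀ ℕ => γ i)
    exact ⟨γ, hγ, by rw [degreeOf_eq_sup, h3]⟩
  have hv : ∀ (i : Fin 3) (l : Fin r), w l i ≠ 0 → (∀ j, j ≠ i → w l j = 0) →
      e l + degreeOf i G ≤ d := by
    intro i l h3 h4
    obtain ⟨γ, hγ, h5⟩ := hsup i
    rw [← h5]
    exact vertex G d hd i (w l) h3 h4 (e l) (he l) γ hγ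
  let B0 : Finset (Fin r) := Finset.univ.filter fun l => w l 2 = 0 ∧ w l 1 = 0
  let B1 : Finset (Fin r) := Finset.univ.filter fun l => w l 2 = 0 ∧ w l 0 = 0
  have hB0 : B0.card ≤ 1 := by
    rw [Finset.card_le_one]
    intro l hl l' hl'
    by_contra hll
    have h3 := (Finset.mem_filter.1 hl).2
    have h4 := (Finset.mem_filter.1 hl').2
    have h5 : w l' 0 ≠ 0 := by
      intro h6
      apply hw0 l'
      funext j
      fin_cases j
      · exact h6
      · exact h4.2
      · exact h4.1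
    apply hne l l' hll (w l 0 / w l' 0)
    funext j
    rw [Pi.smul_apply, smul_eq_mul]
    fin_cases j
    · show w l 0 = w l 0 / w l' 0 * w l' 0
      field_simp
    · show w l 1 = w l 0 / w l' 0 * w l' 1
      rw [h3.2, h4.2, mul_zero]
    · show w l 2 = w l 0 / w l' 0 * w l' 2
      rw [h3.1, h4.1, mul_zero]
  have hB1 : B1.card ≤ 1 := by
    rw [Finset.card_le_one]
    intro l hl l' hl'
    by_contra hll
    have h3 := (Finset.mem_filter.1 hl).2
    have h4 := (Finset.mem_filter.1 hl').2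
    have h5 : w l' 1 ≠ 0 := by
      intro h6
      apply hw0 l'
      funext j
      fin_cases j
      · exact h4.2
      · exact h6
      · exact h4.1
    apply hne l l' hll (w l 1 / w l' 1)
    funext j
    rw [Pi.smul_apply, smul_eq_mul]
    fin_cases j
    · show w l 0 = w l 1 / w l' 1 * w l' 0
      rw [h3.2, h4.2, mul_zero]
    · show w l 1 = w l 1 / w l' 1 * w l' 1
      field_simp
    · show w l 2 = w l 1 / w l' 1 * w l' 2
      rw [h3.1, h4.1, mul_zero]
  have hpt : ∀ l, (e l : ℤ) ^ 2 ≤ (e' l : ℤ) ^ 2 + (t : ℤ) ^ 2 +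
      (if l ∈ B0 then ((d : ℤ) - n) ^ 2 else 0) + (if l ∈ B1 then ((d : ℤ) - m) ^ 2 else 0) := by
    intro l
    have hp0 : (0 : ℤ) ≤ (if l ∈ B0 then ((d : ℤ) - n) ^ 2 else 0) := by
      split_ifs
      · exact sq_nonneg _
      · exact le_rfl
    have hp1 : (0 : ℤ) ≤ (if l ∈ B1 then ((d : ℤ) - m) ^ 2 else 0) := by
      split_ifs
      · exact sq_nonneg _
      · exact le_rfl
    have hpt2 : (0 : ℤ) ≤ (t : ℤ) ^ 2 := sq_nonneg _
    have hpe : (0 : ℤ) ≤ (e' l : ℤ) ^ 2 := sq_nonneg _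
    by_cases hA : l ∈ A
    · have h3 : e' l = e l := if_pos hA
      rw [h3] at hpe ⊢
      linarith
    · have hz : w l 2 = 0 := by
        by_contra h3
        exact hA ((hAm l).2 h3)
      by_cases hz1 : w l 1 = 0
      · have hmem : l ∈ B0 := Finset.mem_filter.2 ⟨Finset.mem_univ _, hz, hz1⟩
        rw [if_pos hmem]
        have h3 : w l 0 ≠ 0 := by
          intro h6
          apply hw0 l
          funext j
          fin_cases j
          · exact h6
          · exact hz1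
          · exact hz
        have h4 := hv 0 l h3 (by
          intro j hj
          fin_cases j
          · exact absurd rfl hj
          · exact hz1
          · exact hz)
        rw [← hn] at h4
        have h5 : (e l : ℤ) + n ≤ d := by exact_mod_cast h4
        have h6 : (0 : ℤ) ≤ (e l : ℤ) := Int.natCast_nonneg _
        have h7 : (e l : ℤ) ^ 2 ≤ ((d : ℤ) - n) ^ 2 := by
          apply pow_le_pow_left₀ h6
          linarith
        linarith
      · by_cases hz0 : w l 0 = 0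
        · have hmem : l ∈ B1 := Finset.mem_filter.2 ⟨Finset.mem_univ _, hz, hz0⟩
          rw [if_pos hmem]
          have h4 := hv 1 l hz1 (by
            intro j hj
            fin_cases j
            · exact hz0
            · exact absurd rfl hj
            · exact hz)
          rw [← hm] at h4
          have h5 : (e l : ℤ) + m ≤ d := by exact_mod_cast h4
          have h6 : (0 : ℤ) ≤ (e l : ℤ) := Int.natCast_nonneg _
          have h7 : (e l : ℤ) ^ 2 ≤ ((d : ℤ) - m) ^ 2 := by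
            apply pow_le_pow_left₀ h6
            linarith
          linarith
        · have h4 := hINF k t G d f g hd hR hX2 (w l) hz hz0 hz1 (e l) (he l)
          have h5 : (e l : ℤ) ≤ t := by exact_mod_cast h4
          have h6 : (0 : ℤ) ≤ (e l : ℤ) := Int.natCast_nonneg _
          have h7 : (e l : ℤ) ^ 2 ≤ (t : ℤ) ^ 2 := pow_le_pow_left₀ h6 h5 2
          linarith
  have hs0 : ∑ l, (if l ∈ B0 then ((d : ℤ) - n) ^ 2 else 0) ≤ ((d : ℤ) - n) ^ 2 := by
    rw [← Finset.sum_filter, Finset.sum_const, nsmul_eq_mul]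
    have h3 : (Finset.univ.filter fun l => l ∈ B0) = B0 := by
      ext l
      simp
    rw [h3]
    have h4 : (B0.card : ℤ) ≤ 1 := by exact_mod_cast hB0
    have h5 : (0 : ℤ) ≤ ((d : ℤ) - n) ^ 2 := sq_nonneg _
    nlinarith
  have hs1 : ∑ l, (if l ∈ B1 then ((d : ℤ) - m) ^ 2 else 0) ≤ ((d : ℤ) - m) ^ 2 := by
    rw [← Finset.sum_filter, Finset.sum_const, nsmul_eq_mul]
    have h3 : (Finset.univ.filter fun l => l ∈ B1) = B1 := by
      ext l
      simp
    rw [h3]
    have h4 : (B1.card : ℤ) ≤ 1 := by exact_mod_cast hB1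
    have h5 : (0 : ℤ) ≤ ((d : ℤ) - m) ^ 2 := sq_nonneg _
    nlinarith
  have hsum : (∑ l, (e l : ℤ) ^ 2) ≤ (∑ l, (e' l : ℤ) ^ 2) + r * (t : ℤ) ^ 2 +
      ((d : ℤ) - n) ^ 2 + ((d : ℤ) - m) ^ 2 := by
    have h3 := Finset.sum_le_sum fun l (_ : l ∈ (Finset.univ : Finset (Fin r))) => hpt l
    rw [Finset.sum_add_distrib, Finset.sum_add_distrib, Finset.sum_add_distrib, Finset.sum_const,
      Finset.card_univ, Fintype.card_fin, nsmul_eq_mul] at h3
    linarith
  have hr0 : (0 : ℤ) ≤ r := Int.natCast_nonneg _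
  push_cast
  have hfin : (2 : ℤ) * n * m - ((n : ℤ) + m - d) ^ 2 + ((d : ℤ) - n) ^ 2 + ((d : ℤ) - m) ^ 2 =
      (d : ℤ) ^ 2 := by ring
  linarith

end ASMM

/-- **Bounded negativity for curves of bounded tensor rank.** -/
theorem main (hWRO : SpecWRO) (hRED : SpecRED) (hAFF : SpecAFF) (hDEG : SpecDEG) (hDEX : SpecDEX)
    (hLOD : SpecLOD) (hCOF : SpecCOF) (hINF : SpecINF) (hSCL : SpecSCL) (hLIN : SpecLIN)
    (hCMB : SpecCMB) (r t : ℕ) : ∃ K : ℕ, ∀ (k : Type) [Field k] [CharZero k]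
    (F : MvPolynomial (Fin 3) k) (d : ℕ), F.IsHomogeneous d → Irreducible F →
    ∀ M : Matrix (Fin 3) (Fin 3) k, M.det ≠ 0 → ∀ f g : Fin t → Polynomial k,
    (∀ x y : k, eval ![x, y, 1] (subst M F) = ∑ j, (f j).eval x * (g j).eval y) →
    ∀ v : Fin r → Fin 3 → k, (∀ l, v l ≠ 0) → (∀ l l', l ≠ l' → ∀ c : k, v l ≠ c • v l') →
    -(K : ℤ) ≤ (d : ℤ) ^ 2 - ∑ l, (mult F (v l) : ℤ) ^ 2 := by
  classical
  choose K0 hK0 using fun s : ℕ =>
    ASMM.core hAFF hDEG hDEX hLOD hWRO hCOF hINF hSCL hLIN hCMB r s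
  refine ⟨∑ s ∈ Finset.range (t + 1), K0 s, ?_⟩
  intro k _ _ F d hd hirr M hM f g hR v hv0 hne
  have hMu : IsUnit M.det := isUnit_iff_ne_zero.2 hM
  let w : Fin r → Fin 3 → k := fun l => M⁻¹.mulVec (v l)
  have hMw : ∀ l, M.mulVec (w l) = v l := by
    intro l
    rw [Matrix.mulVec_mulVec, Matrix.mul_nonsing_inv M hMu, Matrix.one_mulVec]
  have hw0 : ∀ l, w l ≠ 0 := by
    intro l h
    apply hv0 l
    rw [← hMw l, h, Matrix.mulVec_zero]
  have hwne : ∀ l l', l ≠ l' → ∀ c : k, w l ≠ c • w l' := by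
    intro l l' hl c h
    apply hne l l' hl c
    rw [← hMw l, h, Matrix.mulVec_smul, hMw]
  set G := subst M F with hG
  have hmem : ∀ l s, F ∈ pt (v l) ^ s → G ∈ pt (w l) ^ s := by
    intro l s h
    apply subst_mem
    rwa [hMw]
  have hGd : G.IsHomogeneous d := by
    have h1 := hd.aeval (S := k) (τ := Fin 3) (n := 1) (fun i => ∑ j, C (M i j) * X j) ?_
    · rw [one_mul] at h1
      exact h1
    · intro i
      refine IsHomogeneous.sum _ _ _ fun j _ => isHomogeneous_C_mul_X _ _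
  have hGirr : Irreducible G := by
    let e : MvPolynomial (Fin 3) k ≃ₐ[k] MvPolynomial (Fin 3) k :=
      AlgEquiv.ofAlgHom (subst M) (subst M⁻¹)
        (by
          apply AlgHom.ext
          intro P
          rw [AlgHom.comp_apply, subst_subst, Matrix.nonsing_inv_mul M hMu, subst_one]
          rfl)
        (by
          apply AlgHom.ext
          intro P
          rw [AlgHom.comp_apply, subst_subst, Matrix.mul_nonsing_inv M hMu, subst_one]
          rfl)
    have : Irreducible (e F) := (MulEquiv.irreducible_iff e.toMulEquiv).2 hirr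
    exact this
  obtain ⟨s, hs, f', g', hf', hg', hfg⟩ := hRED k t f g
  have hR' : Rep G f' g' := fun x y => by rw [hR x y, hfg x y]
  have hb : ∀ l s, F ∈ pt (v l) ^ s → s ≤ d := fun l s h =>
    (hSCL k F d hd).2 hirr.ne_zero (v l) s h
  have h1 := hK0 s k G d hGd hGirr f' g' hf' hg' hR' w hw0 hwne (fun l => mult F (v l))
    (fun l => hmem l _ (le_mult (hb l)).1)
  have h2 : (K0 s : ℤ) ≤ (∑ s ∈ Finset.range (t + 1), K0 s : ℕ) := by
    exact_mod_cast Finset.single_le_sum (f := K0) (fun _ _ => Nat.zero_le _)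
      (Finset.mem_range.2 (by omega))
  linarith

end Pool.Agent.Lib.MP387a85.TR
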