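import Pool.Agent.Lib.MP_387a85_ag.TR.SpecX
import Pool.Agent.Lib.MP_387a85_ag.TR.ASM

/-!
# MP_387a85_ag: curves of bounded tensor rank, assembly of the quantitative form (helper28)
-/

set_option autoImplicit false

namespace Pool.Agent.Lib.MP387a85.TR

open MvPolynomial

namespace ASXM

variable {k : Type} [Field k]

/-- The inequality for curves with a reduced representation. -/
theorem core (hAFF : SpecAFF) (hDEG : SpecDEG) (hDEX : SpecDEX) (hLOD : SpecLOD)
    (hWRO : SpecWRO) (hCOF : SpecCOF) (hINF : SpecINF) (hSCL : SpecSCL) (hLIN : SpecLIN)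
    (hBRG : SpecBRG) (r : ℕ) : ∃ K : ℕ, ∀ t : ℕ, ∀ (k : Type) [Field k] [CharZero k]
    (G : MvPolynomial (Fin 3) k) (d : ℕ), G.IsHomogeneous d → Irreducible G →
    ∀ f g : Fin t → Polynomial k, LinearIndependent k f → LinearIndependent k g → Rep G f g →
    ∀ w : Fin r → Fin 3 → k, (∀ l, w l ≠ 0) → (∀ l l', l ≠ l' → ∀ c : k, w l ≠ c • w l') →
    ∀ e : Fin r → ℕ, (∀ l, G ∈ pt (w l) ^ e l) →
    (∑ l, (e l : ℤ) ^ 2) ≤ (d : ℤ) ^ 2 + K * (t : ℤ) ^ 2 := by
  classical
  choose K0 hK0 using fun α β : Fin r → Fin r => hBRG r α β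
  let K : ℕ := ∑ α, ∑ β, K0 α β
  have hKle : ∀ α β, K0 α β ≤ K := by
    intro α β
    calc K0 α β ≤ ∑ β, K0 α β := Finset.single_le_sum (f := fun β => K0 α β)
          (fun _ _ => Nat.zero_le _) (Finset.mem_univ β)
      _ ≤ K := Finset.single_le_sum (f := fun α => ∑ β, K0 α β)
          (fun _ _ => Nat.zero_le _) (Finset.mem_univ α)
  refine ⟨K + r + r, ?_⟩
  intro t k _ _ G d hd hG f g hf hg hR w hw0 hne e he
  have ht : 1 ≤ t := by
    rcases Nat.eq_zero_or_pos t with ht | ht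
    · subst ht
      exfalso
      obtain ⟨γ, hγ⟩ := support_nonempty.2 hG.ne_zero
      have := (hCOF k 0 G d f g hd hR).2 γ hγ
      simp only [Finset.univ_eq_empty, Finset.sum_empty] at this
      exact (mem_support_iff.1 hγ) this.symm
    · exact ht
  have hrt : (r : ℤ) ≤ (r : ℤ) * (t : ℤ) ^ 2 := by
    have h1 : (1 : ℤ) ≤ (t : ℤ) ^ 2 := by
      have h2 : (1 : ℤ) ≤ (t : ℤ) := by exact_mod_cast ht
      nlinarith
    nlinarith [(Int.natCast_nonneg r : (0 : ℤ) ≤ (r : ℤ))]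
  have hrt0 : (0 : ℤ) ≤ (r : ℤ) * (t : ℤ) ^ 2 := by positivity
  by_cases hd1 : d = 1
  · have h1 : ∀ l, e l ≤ 1 := fun l => hd1 ▸ (hSCL k G d hd).2 hG.ne_zero (w l) (e l) (he l)
    have h2 : (∑ l, (e l : ℤ) ^ 2) ≤ r := by
      calc (∑ l, (e l : ℤ) ^ 2) ≤ ∑ l : Fin r, (1 : ℤ) := by
            refine Finset.sum_le_sum fun l _ => ?_
            have h3 : (e l : ℤ) ≤ 1 := by exact_mod_cast h1 l
            have h4 : (0 : ℤ) ≤ (e l : ℤ) := Int.natCast_nonneg _
            nlinarith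
        _ = r := by simp
    push_cast
    have h5 : (0 : ℤ) ≤ (K : ℤ) * (t : ℤ) ^ 2 := by positivity
    have h7 : (0 : ℤ) ≤ (d : ℤ) ^ 2 := sq_nonneg _
    have h8 : ((K : ℤ) + r + r) * (t : ℤ) ^ 2 = K * (t : ℤ) ^ 2 + r * (t : ℤ) ^ 2 + r * (t : ℤ) ^ 2 := by
      ring
    rw [h8]
    linarith
  obtain ⟨hX2, hX0, hX1⟩ := hLIN k G d hd hG hd1
  set n := degreeOf 0 G with hn
  set m := degreeOf 1 G with hm
  let A : Finset (Fin r) := Finset.univ.filter fun l => w l 2 ≠ 0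
  let e' : Fin r → ℕ := fun l => if l ∈ A then e l else 0
  have hAm : ∀ l, l ∈ A ↔ w l 2 ≠ 0 := fun l => by
    show l ∈ Finset.univ.filter _ ↔ _
    rw [Finset.mem_filter]
    exact ⟨fun h => h.2, fun h => ⟨Finset.mem_univ _, h⟩⟩
  have hmain := ASMM.affine hAFF hDEG hDEX hLOD hWRO r t (K * t ^ 2)
    (fun α β d n m U W e u w c1 c2 c3 c4 c5 c6 c7 c8 c9 c10 c11 => by
      have h1 := hK0 α β t ht d n m U W e u w c1 c2 c3 c4 c5 c6 c7 c8 c9 c10 c11
      have h2 : (K0 α β : ℤ) ≤ K := by exact_mod_cast hKle α β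
      have h3 : (K0 α β : ℤ) * (t : ℤ) ^ 2 ≤ K * (t : ℤ) ^ 2 :=
        mul_le_mul_of_nonneg_right h2 (sq_nonneg _)
      push_cast
      linarith)
    G d hd hX2 hX0 hX1 f g hf hg hR A (fun l => w l 0 / w l 2) (fun l => w l 1 / w l 2)
    e' (by
      intro l hl
      show G ∈ pt ![w l 0 / w l 2, w l 1 / w l 2, 1] ^ (if l ∈ A then e l else 0)
      rw [if_pos hl]
      have h3 := (hAm l).1 hl
      refine (hSCL k G d hd).1 (w l 2) _ _ h3 ?_
      rw [← ASMM.eq_smul (w l) h3]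
      exact he l) (by
      intro l hl
      show (if l ∈ A then e l else 0) = 0
      rw [if_neg hl]) (by
      intro l hl l' hl' h3 h4
      by_contra hll
      exact hne l l' hll _ (ASMM.prop_of_eq w l l' ((hAm l).1 hl) ((hAm l').1 hl') h3 h4))
  -- the vertices
  have hsup : ∀ i : Fin 3, ∃ γ ∈ G.support, γ i = degreeOf i G := by
    intro i
    obtain ⟨γ, hγ, h3⟩ := Finset.exists_mem_eq_sup G.support (support_nonempty.2 hG.ne_zero)
      (fun γ : Fin 3 →₀ ℕ => γ i)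
    exact ⟨γ, hγ, by rw [degreeOf_eq_sup, h3]⟩
  have hv : ∀ (i : Fin 3) (l : Fin r), w l i ≠ 0 → (∀ j, j ≠ i → w l j = 0) →
      e l + degreeOf i G ≤ d := by
    intro i l h3 h4
    obtain ⟨γ, hγ, h5⟩ := hsup i
    rw [← h5]
    exact vertex G d hd i (w l) h3 h4 (e l) (he l) γ hγ
  let B0 : Finset (Fin r) := Finset.univ.filter fun l => w l 2 = 0 ∧ w l 1 = 0
  let B1 : Finset (Fin r) := Finset.univ.filter fun l => w l 2 = 0 ∧ w l 0 = 0
  have hB0 : B0.card ≤ 1 := by
    rw [Finset.card_le_one]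
    intro l hl l' hl'
    by_contra hll
    have h3 := (Finset.mem_filter.1 hl).2
    have h4 := (Finset.mem_filter.1 hl').2
    have h5 : w l' 0 ≠ 0 := by
      intro h6
      apply hw0 l'
      funext j
      fin_cases j
      · exact h6
      · exact h4.2
      · exact h4.1
    apply hne l l' hll (w l 0 / w l' 0)
    funext j
    rw [Pi.smul_apply, smul_eq_mul]
    fin_cases j
    · show w l 0 = w l 0 / w l' 0 * w l' 0
      field_simp
    · show w l 1 = w l 0 / w l' 0 * w l' 1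
      rw [h3.2, h4.2, mul_zero]
    · show w l 2 = w l 0 / w l' 0 * w l' 2
      rw [h3.1, h4.1, mul_zero]
  have hB1 : B1.card ≤ 1 := by
    rw [Finset.card_le_one]
    intro l hl l' hl'
    by_contra hll
    have h3 := (Finset.mem_filter.1 hl).2
    have h4 := (Finset.mem_filter.1 hl').2
    have h5 : w l' 1 ≠ 0 := by
      intro h6
      apply hw0 l'
      funext j
      fin_cases j
      · exact h4.2
      · exact h6
      · exact h4.1
    apply hne l l' hll (w l 1 / w l' 1)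
    funext j
    rw [Pi.smul_apply, smul_eq_mul]
    fin_cases j
    · show w l 0 = w l 1 / w l' 1 * w l' 0
      rw [h3.2, h4.2, mul_zero]
    · show w l 1 = w l 1 / w l' 1 * w l' 1
      field_simp
    · show w l 2 = w l 1 / w l' 1 * w l' 2
      rw [h3.1, h4.1, mul_zero]
  have hpt : ∀ l, (e l : ℤ) ^ 2 ≤ (e' l : ℤ) ^ 2 + (t : ℤ) ^ 2 +
      (if l ∈ B0 then ((d : ℤ) - n) ^ 2 else 0) + (if l ∈ B1 then ((d : ℤ) - m) ^ 2 else 0) := by
    intro l
    have hp0 : (0 : ℤ) ≤ (if l ∈ B0 then ((d : ℤ) - n) ^ 2 else 0) := by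
      split_ifs
      · exact sq_nonneg _
      · exact le_rfl
    have hp1 : (0 : ℤ) ≤ (if l ∈ B1 then ((d : ℤ) - m) ^ 2 else 0) := by
      split_ifs
      · exact sq_nonneg _
      · exact le_rfl
    have hpt2 : (0 : ℤ) ≤ (t : ℤ) ^ 2 := sq_nonneg _
    have hpe : (0 : ℤ) ≤ (e' l : ℤ) ^ 2 := sq_nonneg _
    by_cases hA : l ∈ A
    · have h3 : e' l = e l := if_pos hA
      rw [h3] at hpe ⊢
      linarith
    · have hz : w l 2 = 0 := by
        by_contra h3
        exact hA ((hAm l).2 h3)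
      by_cases hz1 : w l 1 = 0
      · have hmem : l ∈ B0 := Finset.mem_filter.2 ⟨Finset.mem_univ _, hz, hz1⟩
        rw [if_pos hmem]
        have h3 : w l 0 ≠ 0 := by
          intro h6
          apply hw0 l
          funext j
          fin_cases j
          · exact h6
          · exact hz1
          · exact hz
        have h4 := hv 0 l h3 (by
          intro j hj
          fin_cases j
          · exact absurd rfl hj
          · exact hz1
          · exact hz)
        rw [← hn] at h4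
        have h5 : (e l : ℤ) + n ≤ d := by exact_mod_cast h4
        have h6 : (0 : ℤ) ≤ (e l : ℤ) := Int.natCast_nonneg _
        have h7 : (e l : ℤ) ^ 2 ≤ ((d : ℤ) - n) ^ 2 := by
          apply pow_le_pow_left₀ h6
          linarith
        linarith
      · by_cases hz0 : w l 0 = 0
        · have hmem : l ∈ B1 := Finset.mem_filter.2 ⟨Finset.mem_univ _, hz, hz0⟩
          rw [if_pos hmem]
          have h4 := hv 1 l hz1 (by
            intro j hj
            fin_cases j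
            · exact hz0
            · exact absurd rfl hj
            · exact hz)
          rw [← hm] at h4
          have h5 : (e l : ℤ) + m ≤ d := by exact_mod_cast h4
          have h6 : (0 : ℤ) ≤ (e l : ℤ) := Int.natCast_nonneg _
          have h7 : (e l : ℤ) ^ 2 ≤ ((d : ℤ) - m) ^ 2 := by
            apply pow_le_pow_left₀ h6
            linarith
          linarith
        · have h4 := hINF k t G d f g hd hR hX2 (w l) hz hz0 hz1 (e l) (he l)
          have h5 : (e l : ℤ) ≤ t := by exact_mod_cast h4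
          have h6 : (0 : ℤ) ≤ (e l : ℤ) := Int.natCast_nonneg _
          have h7 : (e l : ℤ) ^ 2 ≤ (t : ℤ) ^ 2 := pow_le_pow_left₀ h6 h5 2
          linarith
  have hs0 : ∑ l, (if l ∈ B0 then ((d : ℤ) - n) ^ 2 else 0) ≤ ((d : ℤ) - n) ^ 2 := by
    rw [← Finset.sum_filter, Finset.sum_const, nsmul_eq_mul]
    have h3 : (Finset.univ.filter fun l => l ∈ B0) = B0 := by
      ext l
      simp
    rw [h3]
    have h4 : (B0.card : ℤ) ≤ 1 := by exact_mod_cast hB0
    have h5 : (0 : ℤ) ≤ ((d : ℤ) - n) ^ 2 := sq_nonneg _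
    nlinarith
  have hs1 : ∑ l, (if l ∈ B1 then ((d : ℤ) - m) ^ 2 else 0) ≤ ((d : ℤ) - m) ^ 2 := by
    rw [← Finset.sum_filter, Finset.sum_const, nsmul_eq_mul]
    have h3 : (Finset.univ.filter fun l => l ∈ B1) = B1 := by
      ext l
      simp
    rw [h3]
    have h4 : (B1.card : ℤ) ≤ 1 := by exact_mod_cast hB1
    have h5 : (0 : ℤ) ≤ ((d : ℤ) - m) ^ 2 := sq_nonneg _
    nlinarith
  have hsum : (∑ l, (e l : ℤ) ^ 2) ≤ (∑ l, (e' l : ℤ) ^ 2) + r * (t : ℤ) ^ 2 +
      ((d : ℤ) - n) ^ 2 + ((d : ℤ) - m) ^ 2 := by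
    have h3 := Finset.sum_le_sum fun l (_ : l ∈ (Finset.univ : Finset (Fin r))) => hpt l
    rw [Finset.sum_add_distrib, Finset.sum_add_distrib, Finset.sum_add_distrib, Finset.sum_const,
      Finset.card_univ, Fintype.card_fin, nsmul_eq_mul] at h3
    linarith
  have hr0 : (0 : ℤ) ≤ r := Int.natCast_nonneg _
  push_cast at hmain ⊢
  have h8 : ((K : ℤ) + r + r) * (t : ℤ) ^ 2 = K * (t : ℤ) ^ 2 + r * (t : ℤ) ^ 2 + r * (t : ℤ) ^ 2 := by
    ring
  rw [h8]
  have hfin : (2 : ℤ) * n * m - ((n : ℤ) + m - d) ^ 2 + ((d : ℤ) - n) ^ 2 + ((d : ℤ) - m) ^ 2 =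
      (d : ℤ) ^ 2 := by ring
  linarith

end ASXM

/-- **Bounded negativity for curves of bounded tensor rank.** -/
theorem mainX (hWRO : SpecWRO) (hRED : SpecRED) (hAFF : SpecAFF) (hDEG : SpecDEG) (hDEX : SpecDEX)
    (hLOD : SpecLOD) (hCOF : SpecCOF) (hINF : SpecINF) (hSCL : SpecSCL) (hLIN : SpecLIN)
    (hBRG : SpecBRG) (r : ℕ) : ∃ K : ℕ, ∀ t : ℕ, ∀ (k : Type) [Field k] [CharZero k]
    (F : MvPolynomial (Fin 3) k) (d : ℕ), F.IsHomogeneous d → Irreducible F →
    ∀ M : Matrix (Fin 3) (Fin 3) k, M.det ≠ 0 → ∀ f g : Fin t → Polynomial k,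
    (∀ x y : k, eval ![x, y, 1] (subst M F) = ∑ j, (f j).eval x * (g j).eval y) →
    ∀ v : Fin r → Fin 3 → k, (∀ l, v l ≠ 0) → (∀ l l', l ≠ l' → ∀ c : k, v l ≠ c • v l') →
    -((K : ℤ) * (t : ℤ) ^ 2) ≤ (d : ℤ) ^ 2 - ∑ l, (mult F (v l) : ℤ) ^ 2 := by
  classical
  obtain ⟨K, hK⟩ := ASXM.core hAFF hDEG hDEX hLOD hWRO hCOF hINF hSCL hLIN hBRG r
  refine ⟨K, ?_⟩
  intro t k _ _ F d hd hirr M hM f g hR v hv0 hne
  have hMu : IsUnit M.det := isUnit_iff_ne_zero.2 hM
  let w : Fin r → Fin 3 → k := fun l => M⁻¹.mulVec (v l)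
  have hMw : ∀ l, M.mulVec (w l) = v l := by
    intro l
    rw [Matrix.mulVec_mulVec, Matrix.mul_nonsing_inv M hMu, Matrix.one_mulVec]
  have hw0 : ∀ l, w l ≠ 0 := by
    intro l h
    apply hv0 l
    rw [← hMw l, h, Matrix.mulVec_zero]
  have hwne : ∀ l l', l ≠ l' → ∀ c : k, w l ≠ c • w l' := by
    intro l l' hl c h
    apply hne l l' hl c
    rw [← hMw l, h, Matrix.mulVec_smul, hMw]
  set G := subst M F with hG
  have hmem : ∀ l s, F ∈ pt (v l) ^ s → G ∈ pt (w l) ^ s := by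
    intro l s h
    apply subst_mem
    rwa [hMw]
  have hGd : G.IsHomogeneous d := by
    have h1 := hd.aeval (S := k) (τ := Fin 3) (n := 1) (fun i => ∑ j, C (M i j) * X j) ?_
    · rw [one_mul] at h1
      exact h1
    · intro i
      refine IsHomogeneous.sum _ _ _ fun j _ => isHomogeneous_C_mul_X _ _
  have hGirr : Irreducible G := by
    let e : MvPolynomial (Fin 3) k ≃ₐ[k] MvPolynomial (Fin 3) k :=
      AlgEquiv.ofAlgHom (subst M) (subst M⁻¹)
        (by
          apply AlgHom.ext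
          intro P
          rw [AlgHom.comp_apply, subst_subst, Matrix.nonsing_inv_mul M hMu, subst_one]
          rfl)
        (by
          apply AlgHom.ext
          intro P
          rw [AlgHom.comp_apply, subst_subst, Matrix.mul_nonsing_inv M hMu, subst_one]
          rfl)
    have : Irreducible (e F) := (MulEquiv.irreducible_iff e.toMulEquiv).2 hirr
    exact this
  obtain ⟨s, hs, f', g', hf', hg', hfg⟩ := hRED k t f g
  have hR' : Rep G f' g' := fun x y => by rw [hR x y, hfg x y]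
  have hb : ∀ l s, F ∈ pt (v l) ^ s → s ≤ d := fun l s h =>
    (hSCL k F d hd).2 hirr.ne_zero (v l) s h
  have h1 := hK s k G d hGd hGirr f' g' hf' hg' hR' w hw0 hwne (fun l => mult F (v l))
    (fun l => hmem l _ (le_mult (hb l)).1)
  have h2 : (s : ℤ) ^ 2 ≤ (t : ℤ) ^ 2 :=
    pow_le_pow_left₀ (Int.natCast_nonneg _) (by exact_mod_cast hs) 2
  have h3 : (K : ℤ) * (s : ℤ) ^ 2 ≤ K * (t : ℤ) ^ 2 :=
    mul_le_mul_of_nonneg_left h2 (Int.natCast_nonneg _)
  linarith

end Pool.Agent.Lib.MP387a85.TR
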