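import Pool.Agent.Lib.MP_387a85_ag.TR.SpecX

/-!
# MP_387a85_ag, module BRG: the inequality for natural numbers, with denominators t
-/

set_option autoImplicit false

namespace Pool.Agent.Lib.MP387a85.TR

open MvPolynomial

theorem specBRG (hCMR : SpecCMR) : SpecBRG := by
  intro r α β
  obtain ⟨K0, hK0, hC⟩ := hCMR r α β
  refine ⟨⌈4 * K0⌉₊, ?_⟩
  intro t ht d n m U W e u w h1 hu hw hUW hUn hWm ha hb hnd hmd hdnm
  have ht0 : (0 : ℝ) < t := by exact_mod_cast (by omega : 0 < t)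
  have hsu : ∑ a, ((u a : ℝ) / t) = (∑ a, (u a : ℝ)) / t := by rw [Finset.sum_div]
  have hsw : ∑ b, ((w b : ℝ) / t) = (∑ b, (w b : ℝ)) / t := by rw [Finset.sum_div]
  have hu' : ∑ a, (u a : ℝ) ≤ U := by exact_mod_cast hu
  have hw' : ∑ b, (w b : ℝ) ≤ W := by exact_mod_cast hw
  have hUW' : (U : ℝ) + W ≤ t * d := by exact_mod_cast hUW
  have hUn' : (U : ℝ) ≤ t * n := by exact_mod_cast hUn
  have hWm' : (W : ℝ) ≤ t * m := by exact_mod_cast hWm
  have key := hC (2 * t) d n m (fun i => e i) (fun a => u a / t) (fun b => w b / t)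
    (by positivity) (by positivity) (by positivity) (by positivity)
    (fun i => by positivity) (fun a => by positivity) (fun b => by positivity)
    (fun i => by
      have h2 : (t : ℝ) * e i ≤ u (α i) + w (β i) + 2 * t ^ 2 := by exact_mod_cast h1 i
      have h3 : (u (α i) : ℝ) / t + w (β i) / t + 2 * t = (u (α i) + w (β i) + 2 * t ^ 2) / t := by
        field_simp
      show (e i : ℝ) ≤ u (α i) / t + w (β i) / t + 2 * t
      rw [h3, le_div_iff₀ ht0]
      linarith)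
    (by
      rw [hsu, hsw, ← add_div, div_le_iff₀ ht0]
      linarith)
    (by
      rw [hsu, div_le_iff₀ ht0]
      linarith)
    (by
      rw [hsw, div_le_iff₀ ht0]
      linarith)
    (fun a => by exact_mod_cast ha a)
    (fun b => by exact_mod_cast hb b)
    (by exact_mod_cast hnd) (by exact_mod_cast hmd) (by exact_mod_cast hdnm)
  have h4 : 4 * K0 ≤ (⌈4 * K0⌉₊ : ℝ) := Nat.le_ceil _
  have h5 : K0 * (2 * (t : ℝ)) ^ 2 ≤ (⌈4 * K0⌉₊ : ℝ) * (t : ℝ) ^ 2 := by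
    have h6 : K0 * (2 * (t : ℝ)) ^ 2 = 4 * K0 * (t : ℝ) ^ 2 := by ring
    rw [h6]
    exact mul_le_mul_of_nonneg_right h4 (by positivity)
  have h7 : (∑ i, (e i : ℝ) ^ 2) + ((n : ℝ) + m - d) ^ 2
      ≤ 2 * n * m + (⌈4 * K0⌉₊ : ℝ) * (t : ℝ) ^ 2 := by
    have h8 : (∑ i, (e i : ℝ) ^ 2) + ((n : ℝ) + m - d) ^ 2 ≤ 2 * n * m + K0 * (2 * (t : ℝ)) ^ 2 := key
    linarith
  exact_mod_cast h7

end Pool.Agent.Lib.MP387a85.TR
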