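import Mathlib

/-!
# Multiplicities of plane curves: definitions and lemmas

The lemmas are those of the file `Results/MP_387a85_ag/FewMonomials.lean` (helper71).
-/

set_option autoImplicit false

namespace Pool.Agent.Lib.MP387a85.TR

open MvPolynomial

variable {k : Type} [Field k]

/-- The maximal ideal of the point `v` of the affine space `k³`. -/
noncomputable def pt (v : Fin 3 → k) : Ideal (MvPolynomial (Fin 3) k) := RingHom.ker (eval v)

/-- The multiplicity at `v` of the cone `F = 0` in `k³`, the largest `m` with `F` in the `m`-th power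
of the maximal ideal of `v`. If `F` is homogeneous and `v ≠ 0`, this is the multiplicity of the plane
curve `F = 0` at the point `[v]` of the projective plane. -/
noncomputable def mult (F : MvPolynomial (Fin 3) k) (v : Fin 3 → k) : ℕ :=
  sSup {m | F ∈ pt v ^ m}

/-- The polynomial `F` in the coordinates given by the matrix `M`: `(subst M F)(x) = F(M x)`. -/
noncomputable def subst (M : Matrix (Fin 3) (Fin 3) k) :
    MvPolynomial (Fin 3) k →ₐ[k] MvPolynomial (Fin 3) k :=
  aeval fun i => ∑ j, C (M i j) * X j

theorem mem_pt {v : Fin 3 → k} {F : MvPolynomial (Fin 3) k} : F ∈ pt v ↔ eval v F = 0 :=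
  RingHom.mem_ker

/-- Derivations lower the order by at most one. -/
theorem deriv_mem (D : Derivation k (MvPolynomial (Fin 3) k) (MvPolynomial (Fin 3) k))
    (I : Ideal (MvPolynomial (Fin 3) k)) (s : ℕ) :
    ∀ F ∈ I ^ (s + 1), D F ∈ I ^ s := by
  induction s with
  | zero => intro F _; rw [pow_zero, Ideal.one_eq_top]; exact Submodule.mem_top
  | succ s ih =>
    intro F hF
    rw [pow_succ] at hF
    refine Submodule.mul_induction_on hF ?_ ?_
    · intro a ha b hb
      rw [Derivation.leibniz, smul_eq_mul, smul_eq_mul]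
      refine add_mem (Ideal.mul_mem_right _ _ ha) ?_
      have h := Ideal.mul_mem_mul (ih a ha) hb
      rw [← pow_succ] at h
      rwa [mul_comm]
    · intro a b ha hb
      rw [map_add]
      exact add_mem ha hb

/-- The operator `X_i ∂_i - n`. -/
noncomputable def E (i : Fin 3) (n : ℕ) (F : MvPolynomial (Fin 3) k) : MvPolynomial (Fin 3) k :=
  X i * pderiv i F - (n : k) • F

theorem coeff_E (i : Fin 3) (n : ℕ) (F : MvPolynomial (Fin 3) k) (α : Fin 3 →₀ ℕ) :
    coeff α (E i n F) = ((α i : k) - n) * coeff α F := by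
  induction F using MvPolynomial.induction_on' with
  | add p q hp hq =>
    have : E i n (p + q) = E i n p + E i n q := by
      unfold E
      rw [map_add, smul_add]
      ring
    rw [this, coeff_add, hp, hq, coeff_add, mul_add]
  | monomial u a =>
    unfold E
    rw [X_mul_pderiv_monomial, coeff_sub, coeff_smul, coeff_smul, coeff_monomial]
    split_ifs with h
    · subst h
      simp
      ring
    · simp

theorem E_mem (i : Fin 3) (n : ℕ) (F : MvPolynomial (Fin 3) k) (v : Fin 3 → k) (s : ℕ)
    (h : F ∈ pt v ^ (s + 1)) : E i n F ∈ pt v ^ s := by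
  unfold E
  refine sub_mem (Ideal.mul_mem_left _ _ (deriv_mem (pderiv i) _ s F h)) ?_
  rw [smul_eq_C_mul]
  exact Ideal.mul_mem_left _ _ (Ideal.pow_le_pow_right (Nat.le_succ s) h)

/-- A polynomial which involves only the variables that do not vanish at `v` has more monomials
than its multiplicity. -/
theorem lt_card [CharZero k] (v : Fin 3 → k) (s : ℕ) : ∀ F : MvPolynomial (Fin 3) k, F ≠ 0 →
    (∀ α ∈ F.support, ∀ i, v i = 0 → α i = 0) → F ∈ pt v ^ s → s < F.support.card := by
  induction s with
  | zero =>
    intro F hF _ _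
    rw [Finset.card_pos, support_nonempty]
    exact hF
  | succ s ih =>
    intro F hF hv h
    have h0 : eval v F = 0 := by
      rw [← mem_pt]
      have := Ideal.pow_le_pow_right (show 1 ≤ s + 1 by omega) h
      rwa [pow_one] at this
    obtain ⟨α, hα⟩ := support_nonempty.2 hF
    have hex : ∃ β ∈ F.support, β ≠ α := by
      by_contra hcon
      push Not at hcon
      have hsup : F.support = {α} := by
        ext β
        rw [Finset.mem_singleton]
        exact ⟨fun hβ => hcon β hβ, fun hβ => hβ ▸ hα⟩
      rw [eval_eq, hsup, Finset.sum_singleton] at h0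
      have h1 : coeff α F ≠ 0 := mem_support_iff.1 hα
      have h2 : ∏ i ∈ α.support, v i ^ α i ≠ 0 := by
        rw [Finset.prod_ne_zero_iff]
        intro i hi
        apply pow_ne_zero
        intro hvi
        exact (Finsupp.mem_support_iff.1 hi) (hv α hα i hvi)
      exact (mul_ne_zero h1 h2) h0
    obtain ⟨β, hβ, hne⟩ := hex
    obtain ⟨i, hi⟩ : ∃ i, β i ≠ α i := by
      by_contra hcon
      push Not at hcon
      exact hne (Finsupp.ext hcon)
    have hsub : (E i (α i) F).support ⊆ F.support.erase α := by
      intro γ hγ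
      rw [mem_support_iff, coeff_E] at hγ
      rw [Finset.mem_erase, mem_support_iff]
      refine ⟨?_, right_ne_zero_of_mul hγ⟩
      rintro rfl
      exact hγ (by rw [sub_self, zero_mul])
    have hE0 : E i (α i) F ≠ 0 := by
      intro h1
      have h2 := coeff_E i (α i) F β
      rw [h1, coeff_zero] at h2
      have h3 : ((β i : k) - (α i : k)) ≠ 0 := by
        rw [sub_ne_zero]
        exact fun h => hi (Nat.cast_injective h)
      exact (mul_ne_zero h3 (mem_support_iff.1 hβ)) h2.symm
    have h4 := ih (E i (α i) F) hE0 (fun γ hγ j hj => hv γ (Finset.mem_of_mem_erase (hsub hγ)) j hj)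
      (E_mem i (α i) F v s h)
    have h5 := Finset.card_le_card hsub
    rw [Finset.card_erase_of_mem hα] at h5
    omega

/-- setting the variable `X_j` to `0` -/
noncomputable def z (j : Fin 3) : MvPolynomial (Fin 3) k →ₐ[k] MvPolynomial (Fin 3) k :=
  aeval fun i => if i = j then 0 else X i

theorem coeff_z (j : Fin 3) (F : MvPolynomial (Fin 3) k) (α : Fin 3 →₀ ℕ) :
    coeff α (z j F) = if α j = 0 then coeff α F else 0 := by
  induction F using MvPolynomial.induction_on' with
  | add p q hp hq =>
    rw [map_add, coeff_add, hp, hq, coeff_add]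
    split_ifs <;> simp
  | monomial u a =>
    unfold z
    rw [aeval_monomial]
    by_cases hu : u j = 0
    · have h1 : (u.prod fun i e => (if i = j then (0 : MvPolynomial (Fin 3) k) else X i) ^ e) =
          u.prod fun i e => X i ^ e := by
        refine Finsupp.prod_congr fun i hi => ?_
        rw [if_neg]
        rintro rfl
        exact (Finsupp.mem_support_iff.1 hi) hu
      rw [h1]
      change coeff α (C a * u.prod fun i e => X i ^ e) = _
      rw [← monomial_eq, coeff_monomial]
      by_cases h : u = α
      · subst h; rw [if_pos rfl, if_pos hu]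
      · rw [if_neg h]; simp
    · have h1 : (u.prod fun i e => (if i = j then (0 : MvPolynomial (Fin 3) k) else X i) ^ e) =
          0 := by
        refine Finset.prod_eq_zero (Finsupp.mem_support_iff.2 hu) ?_
        change (if j = j then (0 : MvPolynomial (Fin 3) k) else X j) ^ u j = 0
        rw [if_pos rfl, zero_pow hu]
      rw [h1, mul_zero, coeff_zero, coeff_monomial]
      split_ifs with h2 h3
      · subst h3; exact absurd h2 hu
      · rfl
      · rfl

theorem z_mem (j : Fin 3) (F : MvPolynomial (Fin 3) k) (v : Fin 3 → k) (hv : v j = 0) (s : ℕ)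
    (h : F ∈ pt v ^ s) : z j F ∈ pt v ^ s := by
  have h1 : (pt v).map (z j : MvPolynomial (Fin 3) k →ₐ[k] MvPolynomial (Fin 3) k) ≤ pt v := by
    rw [Ideal.map_le_iff_le_comap]
    intro G hG
    rw [Ideal.mem_comap, mem_pt]
    rw [mem_pt] at hG
    have : (eval v : MvPolynomial (Fin 3) k →+* k).comp
        ((z j : MvPolynomial (Fin 3) k →ₐ[k] MvPolynomial (Fin 3) k) : _ →+* _) = eval v := by
      apply MvPolynomial.ringHom_ext
      · intro r; simp [z]
      · intro i
        by_cases hi : i = j
        · subst hi; simp [z, hv]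
        · simp [z, hi]
    have h2 := RingHom.congr_fun this G
    rw [hG] at h2
    exact h2
  have h2 : z j F ∈ ((pt v) ^ s).map (z j : MvPolynomial (Fin 3) k →ₐ[k] MvPolynomial (Fin 3) k) :=
    Ideal.mem_map_of_mem _ h
  rw [Ideal.map_pow] at h2
  exact Ideal.pow_right_mono h1 s h2

/-- If `X_j` does not divide `F`, some monomial of `F` does not involve `X_j`. -/
theorem exists_zero (j : Fin 3) (F : MvPolynomial (Fin 3) k) (h : ¬ (X j : MvPolynomial (Fin 3) k) ∣ F) :
    ∃ α ∈ F.support, α j = 0 := by
  by_contra hcon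
  push Not at hcon
  apply h
  rw [F.as_sum]
  refine Finset.dvd_sum fun α hα => ?_
  rw [X_dvd_monomial]
  exact Or.inr (hcon α hα)

theorem z_ne_zero (j : Fin 3) (F : MvPolynomial (Fin 3) k)
    (h : ¬ (X j : MvPolynomial (Fin 3) k) ∣ F) : z j F ≠ 0 := by
  obtain ⟨α, hα, h0⟩ := exists_zero j F h
  intro h1
  have h2 := coeff_z j F α
  rw [h1, coeff_zero, if_pos h0] at h2
  exact (mem_support_iff.1 hα) h2.symm

/-- The multiplicity at a point with at most one vanishing coordinate is smaller than the number
of monomials. -/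
theorem nonvertex [CharZero k] (F : MvPolynomial (Fin 3) k)
    (hX : ∀ i, ¬ (X i : MvPolynomial (Fin 3) k) ∣ F) (hF : F ≠ 0) (v : Fin 3 → k)
    (hv : ∀ i j, v i = 0 → v j = 0 → i = j) (s : ℕ) (h : F ∈ pt v ^ s) : s < F.support.card := by
  by_cases hz : ∃ j, v j = 0
  · obtain ⟨j, hj⟩ := hz
    have h1 : (z j F).support ⊆ F.support := by
      intro α hα
      rw [mem_support_iff, coeff_z] at hα
      rw [mem_support_iff]
      intro h0
      rw [h0, ite_self] at hα
      exact hα rfl
    refine lt_of_lt_of_le (lt_card v s (z j F) (z_ne_zero j F (hX j)) ?_ (z_mem j F v hj s h))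
      (Finset.card_le_card h1)
    intro α hα i hi
    rw [mem_support_iff, coeff_z] at hα
    have hij := hv i j hi hj
    subst hij
    by_contra hne
    rw [if_neg hne] at hα
    exact hα rfl
  · push Not at hz
    exact lt_card v s F hF (fun α _ i hi => absurd hi (hz i)) h

/-- At a vertex the operators `X_j ∂_j - n` preserve the powers of the maximal ideal. -/
theorem E_mem_vertex (j : Fin 3) (n : ℕ) (F : MvPolynomial (Fin 3) k) (v : Fin 3 → k)
    (hv : v j = 0) (s : ℕ) (h : F ∈ pt v ^ s) : E j n F ∈ pt v ^ s := by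
  unfold E
  refine sub_mem ?_ ?_
  · rcases s with _ | s
    · rw [pow_zero, Ideal.one_eq_top]; exact Submodule.mem_top
    · rw [pow_succ, mul_comm (pt v ^ s)]
      refine Ideal.mul_mem_mul ?_ (deriv_mem (pderiv j) _ s F h)
      rw [mem_pt, eval_X, hv]
  · rw [smul_eq_C_mul]
    exact Ideal.mul_mem_left _ _ h

theorem isolate [CharZero k] (i : Fin 3) (v : Fin 3 → k) (hv : ∀ j, j ≠ i → v j = 0) (s d : ℕ)
    (α : Fin 3 →₀ ℕ) (N : ℕ) : ∀ F : MvPolynomial (Fin 3) k, F.support.card ≤ N →
    (∀ β ∈ F.support, β.degree = d) → α ∈ F.support → F ∈ pt v ^ s →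
    ∃ a : k, a ≠ 0 ∧ monomial α a ∈ pt v ^ s := by
  induction N with
  | zero =>
    intro F h0 _ hα _
    rw [Nat.le_zero, Finset.card_eq_zero] at h0
    rw [h0] at hα
    exact absurd hα (Finset.notMem_empty α)
  | succ N ih =>
    intro F hN hd hα hF
    by_cases hex : ∃ β ∈ F.support, β ≠ α
    · obtain ⟨β, hβ, hne⟩ := hex
      obtain ⟨j, hji, hj⟩ : ∃ j, j ≠ i ∧ β j ≠ α j := by
        by_contra hcon
        push Not at hcon
        apply hne
        have h1 := hd β hβ
        have h2 := hd α hα
        rw [Finsupp.degree_eq_sum, Fin.sum_univ_three] at h1 h2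
        ext l
        by_cases hl : l = i
        · subst hl
          fin_cases l
          · have e1 := hcon 1 (by decide)
            have e2 := hcon 2 (by decide)
            simp only [Fin.zero_eta, Fin.mk_one, Fin.reduceFinMk] at *
            omega
          · have e1 := hcon 0 (by decide)
            have e2 := hcon 2 (by decide)
            simp only [Fin.zero_eta, Fin.mk_one, Fin.reduceFinMk] at *
            omega
          · have e1 := hcon 0 (by decide)
            have e2 := hcon 1 (by decide)
            simp only [Fin.zero_eta, Fin.mk_one, Fin.reduceFinMk] at *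
            omega
        · exact hcon l hl
      have hsub : (E j (β j) F).support ⊆ F.support.erase β := by
        intro γ hγ
        rw [mem_support_iff, coeff_E] at hγ
        rw [Finset.mem_erase, mem_support_iff]
        refine ⟨?_, right_ne_zero_of_mul hγ⟩
        rintro rfl
        exact hγ (by rw [sub_self, zero_mul])
      refine ih (E j (β j) F) ?_ (fun γ hγ => hd γ (Finset.mem_of_mem_erase (hsub hγ))) ?_
        (E_mem_vertex j (β j) F v (hv j hji) s hF)
      · have h5 := Finset.card_le_card hsub
        rw [Finset.card_erase_of_mem hβ] at h5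
        omega
      · rw [mem_support_iff, coeff_E]
        refine mul_ne_zero ?_ (mem_support_iff.1 hα)
        rw [sub_ne_zero]
        exact fun h => hj (Nat.cast_injective h).symm
    · push Not at hex
      refine ⟨coeff α F, mem_support_iff.1 hα, ?_⟩
      have hsup : F.support = {α} := by
        ext β
        rw [Finset.mem_singleton]
        exact ⟨fun hβ => hex β hβ, fun hβ => hβ ▸ hα⟩
      have : F = monomial α (coeff α F) := by
        conv_lhs => rw [F.as_sum, hsup, Finset.sum_singleton]
      rwa [← this]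

theorem mono_vertex [CharZero k] (i : Fin 3) (v : Fin 3 → k) (hvi : v i ≠ 0)
    (hv : ∀ j, j ≠ i → v j = 0) (s : ℕ) : ∀ (α : Fin 3 →₀ ℕ) (a : k), a ≠ 0 →
    monomial α a ∈ pt v ^ s → s + α i ≤ α.degree := by
  induction s with
  | zero =>
    intro α a _ _
    rw [zero_add]
    exact Finsupp.le_degree i α
  | succ s ih =>
    intro α a ha h
    have h0 : eval v (monomial α a) = 0 := by
      rw [← mem_pt]
      have := Ideal.pow_le_pow_right (show 1 ≤ s + 1 by omega) h
      rwa [pow_one] at this
    rw [eval_monomial] at h0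
    obtain ⟨j, hji, hj⟩ : ∃ j, j ≠ i ∧ α j ≠ 0 := by
      by_contra hcon
      push Not at hcon
      refine (mul_ne_zero ha ?_) h0
      rw [Finsupp.prod, Finset.prod_ne_zero_iff]
      intro l hl
      by_cases hli : l = i
      · subst hli
        exact pow_ne_zero _ hvi
      · exact absurd (hcon l hli) (Finsupp.mem_support_iff.1 hl)
    have h1 := deriv_mem (pderiv j) _ s _ h
    rw [pderiv_monomial] at h1
    have h2 := ih (α - Finsupp.single j 1) (a * α j)
      (mul_ne_zero ha (Nat.cast_ne_zero.2 hj)) h1
    have h3 : (α - Finsupp.single j 1 : Fin 3 →₀ ℕ) i = α i := by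
      rw [Finsupp.tsub_apply, Finsupp.single_eq_of_ne (Ne.symm hji)]
      rfl
    have h4 : (α - Finsupp.single j 1) + Finsupp.single j 1 = α := by
      apply tsub_add_cancel_of_le
      rw [Finsupp.single_le_iff]
      omega
    have h5 : (α - Finsupp.single j 1).degree + 1 = α.degree := by
      conv_rhs => rw [← h4]
      rw [map_add, Finsupp.degree_single]
    omega

theorem vertex [CharZero k] (F : MvPolynomial (Fin 3) k) (d : ℕ) (hd : F.IsHomogeneous d)
    (i : Fin 3) (v : Fin 3 → k) (hvi : v i ≠ 0) (hv : ∀ j, j ≠ i → v j = 0) (s : ℕ)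
    (h : F ∈ pt v ^ s) (α : Fin 3 →₀ ℕ) (hα : α ∈ F.support) : s + α i ≤ d := by
  have hdeg : ∀ β ∈ F.support, β.degree = d := by
    intro β hβ
    by_contra hne
    exact (mem_support_iff.1 hβ) (hd.coeff_eq_zero hne)
  obtain ⟨a, ha, h1⟩ := isolate i v hv s d α _ F le_rfl hdeg hα h
  have h2 := mono_vertex i v hvi hv s α a ha h1
  rwa [hdeg α hα] at h2

theorem eval_subst (M : Matrix (Fin 3) (Fin 3) k) (w : Fin 3 → k) (F : MvPolynomial (Fin 3) k) :
    eval w (subst M F) = eval (M.mulVec w) F := by
  have : (eval w : MvPolynomial (Fin 3) k →+* k).comp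
      (subst M : MvPolynomial (Fin 3) k →+* MvPolynomial (Fin 3) k) = eval (M.mulVec w) := by
    apply MvPolynomial.ringHom_ext
    · intro r; simp [subst]
    · intro i
      simp [subst, Matrix.mulVec, dotProduct]
  exact RingHom.congr_fun this F

theorem subst_mem (M : Matrix (Fin 3) (Fin 3) k) (w : Fin 3 → k) (F : MvPolynomial (Fin 3) k)
    (s : ℕ) (h : F ∈ pt (M.mulVec w) ^ s) : subst M F ∈ pt w ^ s := by
  have h1 : (pt (M.mulVec w)).map (subst M) ≤ pt w := by
    rw [Ideal.map_le_iff_le_comap]
    intro G hG
    rw [Ideal.mem_comap, mem_pt, eval_subst]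
    exact mem_pt.1 hG
  have h2 : subst M F ∈ ((pt (M.mulVec w)) ^ s).map (subst M) := Ideal.mem_map_of_mem _ h
  rw [Ideal.map_pow] at h2
  exact Ideal.pow_right_mono h1 s h2

theorem subst_subst (A B : Matrix (Fin 3) (Fin 3) k) (F : MvPolynomial (Fin 3) k) :
    subst A (subst B F) = subst (B * A) F := by
  have : (subst A).comp (subst B) = subst (B * A) := by
    apply MvPolynomial.algHom_ext
    intro i
    simp only [subst, AlgHom.comp_apply, aeval_X, map_sum, map_mul, Matrix.mul_apply,
      MvPolynomial.algHom_C, MvPolynomial.algebraMap_eq, Finset.sum_mul, Finset.mul_sum]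
    rw [Finset.sum_comm]
    refine Finset.sum_congr rfl fun j _ => Finset.sum_congr rfl fun l _ => ?_
    ring
  exact DFunLike.congr_fun this F

theorem subst_one (F : MvPolynomial (Fin 3) k) : subst 1 F = F := by
  have : subst (1 : Matrix (Fin 3) (Fin 3) k) = AlgHom.id k _ := by
    apply MvPolynomial.algHom_ext
    intro i
    simp [subst, Matrix.one_apply]
  rw [this]
  rfl

theorem le_mult {F : MvPolynomial (Fin 3) k} {v : Fin 3 → k} {b : ℕ}
    (h : ∀ s, F ∈ pt v ^ s → s ≤ b) : F ∈ pt v ^ mult F v ∧ mult F v ≤ b := by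
  have h1 : mult F v ∈ {m | F ∈ pt v ^ m} := by
    refine Nat.sSup_mem ⟨0, ?_⟩ ⟨b, fun s hs => h s hs⟩
    change F ∈ pt v ^ 0
    rw [pow_zero, Ideal.one_eq_top]
    exact Submodule.mem_top
  exact ⟨h1, h _ h1⟩

end Pool.Agent.Lib.MP387a85.TR
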