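import Pool.Agent.Lib.MP_387a85_ag.TR.Spec

/-!
# CMB
-/

set_option autoImplicit false

namespace Pool.Agent.Lib.MP387a85.TR

namespace CMBM

/-- The hypotheses. -/
structure Typ (r t c : ℕ) (α β : Fin r → Fin r) (d n m U W : ℕ) (e u w : Fin r → ℕ) : Prop where
  h1 : ∀ i, t * e i ≤ u (α i) + w (β i) + c
  h2 : ∑ a, u a ≤ U
  h3 : ∑ b, w b ≤ W
  h4 : U + W ≤ t * d
  h5 : U ≤ t * n
  h6 : W ≤ t * m
  h7 : ∀ a, ∑ i with α i = a, e i ≤ m
  h8 : ∀ b, ∑ i with β i = b, e i ≤ n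
  h9 : n ≤ d
  h10 : m ≤ d
  h11 : d ≤ n + m

theorem fib {r : ℕ} (α : Fin r → Fin r) (u e : Fin r → ℕ) (m U : ℕ)
    (h : ∀ a, ∑ i with α i = a, e i ≤ m) (hU : ∑ a, u a ≤ U) : ∑ i, u (α i) * e i ≤ U * m := by
  rw [← Finset.sum_fiberwise Finset.univ α (fun i => u (α i) * e i)]
  calc ∑ a, ∑ i with α i = a, u (α i) * e i
      = ∑ a, u a * ∑ i with α i = a, e i := by
        refine Finset.sum_congr rfl fun a _ => ?_
        rw [Finset.mul_sum]
        refine Finset.sum_congr rfl fun i hi => ?_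
        rw [(Finset.mem_filter.1 hi).2]
    _ ≤ ∑ a, u a * m := Finset.sum_le_sum fun a _ => Nat.mul_le_mul_left _ (h a)
    _ = (∑ a, u a) * m := by rw [Finset.sum_mul]
    _ ≤ U * m := Nat.mul_le_mul_right _ hU

/-- The bilinear inequality. -/
theorem bil {r t c : ℕ} (ht : 1 ≤ t) {α β : Fin r → Fin r} {d n m U W : ℕ} {e u w : Fin r → ℕ}
    (H : Typ r t 0 α β d n m U W e u w) {d' n' m' U' W' : ℕ} {e' u' w' : Fin r → ℕ}
    (H' : Typ r t c α β d' n' m' U' W' e' u' w') :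
    (∑ i, (e i : ℤ) * e' i) + ((n : ℤ) + m - d) * ((n' : ℤ) + m' - d') - n * m' - m * n' ≤ 0 := by
  have s1 : t * ∑ i, e i * e' i ≤ U * m' + W * n' := by
    calc t * ∑ i, e i * e' i = ∑ i, (t * e i) * e' i := by
          rw [Finset.mul_sum]
          exact Finset.sum_congr rfl fun i _ => (mul_assoc _ _ _).symm
      _ ≤ ∑ i, (u (α i) + w (β i)) * e' i :=
          Finset.sum_le_sum fun i _ => Nat.mul_le_mul_right _ (by
            have := H.h1 i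
            rwa [add_zero] at this)
      _ = (∑ i, u (α i) * e' i) + ∑ i, w (β i) * e' i := by
          rw [← Finset.sum_add_distrib]
          exact Finset.sum_congr rfl fun i _ => add_mul _ _ _
      _ ≤ U * m' + W * n' :=
          Nat.add_le_add (fib α u e' m' U H'.h7 H.h2) (fib β w e' n' W H'.h8 H.h3)
  have s2 : (t : ℤ) * ∑ i, (e i : ℤ) * e' i ≤ U * m' + W * n' := by exact_mod_cast s1
  have ht' : (1 : ℤ) ≤ t := by exact_mod_cast ht
  have g4 : (U : ℤ) + W ≤ t * d := by exact_mod_cast H.h4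
  have g5 : (U : ℤ) ≤ t * n := by exact_mod_cast H.h5
  have g6 : (W : ℤ) ≤ t * m := by exact_mod_cast H.h6
  have k9 : (n' : ℤ) ≤ d' := by exact_mod_cast H'.h9
  have k10 : (m' : ℤ) ≤ d' := by exact_mod_cast H'.h10
  have k11 : (d' : ℤ) ≤ n' + m' := by exact_mod_cast H'.h11
  obtain ⟨μ', hμ'⟩ : ∃ μ' : ℤ, μ' = (n' : ℤ) + m' - d' := ⟨_, rfl⟩
  have p0 : 0 ≤ μ' := by rw [hμ']; linarith
  have p1 : μ' ≤ m' := by rw [hμ']; linarith
  have p2 : μ' ≤ n' := by rw [hμ']; linarith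
  have q1 : ((t : ℤ) * n - U) * μ' ≤ ((t : ℤ) * n - U) * m' :=
    mul_le_mul_of_nonneg_left p1 (by linarith)
  have q2 : ((t : ℤ) * m - W) * μ' ≤ ((t : ℤ) * m - W) * n' :=
    mul_le_mul_of_nonneg_left p2 (by linarith)
  have q3 : (t : ℤ) * ((n : ℤ) + m - d) * μ' ≤ (((t : ℤ) * n - U) + (t * m - W)) * μ' :=
    mul_le_mul_of_nonneg_right (by linarith) p0
  rw [← hμ']
  by_contra hcon
  push Not at hcon
  have q4 : 0 < (t : ℤ) * ((∑ i, (e i : ℤ) * e' i) + ((n : ℤ) + m - d) * μ' - n * m' - m * n') :=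
    mul_pos (by linarith) hcon
  have q5 : (t : ℤ) * ((∑ i, (e i : ℤ) * e' i) + ((n : ℤ) + m - d) * μ' - n * m' - m * n') =
      (t : ℤ) * (∑ i, (e i : ℤ) * e' i) + (t : ℤ) * ((n : ℤ) + m - d) * μ' - t * n * m' -
        t * m * n' := by ring
  nlinarith

/-- The quadratic form. -/
def Q {r : ℕ} (d n m : ℕ) (e : Fin r → ℕ) : ℤ :=
  (∑ i, (e i : ℤ) ^ 2) + ((n : ℤ) + m - d) ^ 2 - 2 * n * m

/-- A vector. -/
structure V (r : ℕ) where
  d : ℕ
  n : ℕ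
  m : ℕ
  U : ℕ
  W : ℕ
  e : Fin r → ℕ
  u : Fin r → ℕ
  w : Fin r → ℕ

/-- All coordinates and slacks. -/
def vec {r : ℕ} (t c : ℕ) (α β : Fin r → Fin r) (z : V r) : Fin 13 ⊕ (Fin 6 × Fin r) → ℕ
  | Sum.inl j => ![z.d, z.n, z.m, z.U, z.W, z.n + z.m - z.d, z.U - ∑ a, z.u a, z.W - ∑ b, z.w b,
      t * z.d - (z.U + z.W), t * z.n - z.U, t * z.m - z.W, z.d - z.n, z.d - z.m] j
  | Sum.inr (j, i) => ![z.e i, z.u i, z.w i, z.u (α i) + z.w (β i) + c - t * z.e i,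
      z.m - ∑ l with α l = i, z.e l, z.n - ∑ l with β l = i, z.e l] j

/-- Differences. -/
theorem key {a b a' b' : ℕ} (h1 : a ≤ b) (h2 : a + a' ≤ b + b')
    (h3 : b - a ≤ b + b' - (a + a')) : a' ≤ b' := by omega

/-- Sum of two vectors. -/
def add {r : ℕ} (x h : V r) : V r :=
  ⟨x.d + h.d, x.n + h.n, x.m + h.m, x.U + h.U, x.W + h.W, fun i => x.e i + h.e i,
    fun i => x.u i + h.u i, fun i => x.w i + h.w i⟩

/-- The difference of two comparable vectors. -/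
theorem exists_add {r t c : ℕ} {α β : Fin r → Fin r} {x y : V r}
    (hle : vec t c α β x ≤ vec t c α β y) : ∃ h : V r, y = add x h := by
  have l0 : x.d ≤ y.d := hle (Sum.inl 0)
  have l1 : x.n ≤ y.n := hle (Sum.inl 1)
  have l2 : x.m ≤ y.m := hle (Sum.inl 2)
  have l3 : x.U ≤ y.U := hle (Sum.inl 3)
  have l4 : x.W ≤ y.W := hle (Sum.inl 4)
  have r0 : ∀ i, x.e i ≤ y.e i := fun i => hle (Sum.inr (0, i))
  have r1 : ∀ i, x.u i ≤ y.u i := fun i => hle (Sum.inr (1, i))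
  have r2 : ∀ i, x.w i ≤ y.w i := fun i => hle (Sum.inr (2, i))
  refine ⟨⟨y.d - x.d, y.n - x.n, y.m - x.m, y.U - x.U, y.W - x.W, fun i => y.e i - x.e i,
    fun i => y.u i - x.u i, fun i => y.w i - x.w i⟩, ?_⟩
  obtain ⟨yd, yn, ym, yU, yW, ye, yu, yw⟩ := y
  simp only [add, V.mk.injEq]
  exact ⟨(Nat.add_sub_cancel' l0).symm, (Nat.add_sub_cancel' l1).symm,
    (Nat.add_sub_cancel' l2).symm, (Nat.add_sub_cancel' l3).symm, (Nat.add_sub_cancel' l4).symm,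
    funext fun i => (Nat.add_sub_cancel' (r0 i)).symm,
    funext fun i => (Nat.add_sub_cancel' (r1 i)).symm,
    funext fun i => (Nat.add_sub_cancel' (r2 i)).symm⟩

/-- The difference has type `0`. -/
theorem typ {r t c : ℕ} {α β : Fin r → Fin r} {x h : V r}
    (hle : vec t c α β x ≤ vec t c α β (add x h))
    (Hx : Typ r t c α β x.d x.n x.m x.U x.W x.e x.u x.w)
    (Hy : Typ r t c α β (x.d + h.d) (x.n + h.n) (x.m + h.m) (x.U + h.U) (x.W + h.W)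
      (fun i => x.e i + h.e i) (fun i => x.u i + h.u i) (fun i => x.w i + h.w i)) :
    Typ r t 0 α β h.d h.n h.m h.U h.W h.e h.u h.w := by
  have l5 : x.n + x.m - x.d ≤ (x.n + h.n) + (x.m + h.m) - (x.d + h.d) := hle (Sum.inl 5)
  have l6 : x.U - ∑ a, x.u a ≤ (x.U + h.U) - ∑ a, (x.u a + h.u a) := hle (Sum.inl 6)
  have l7 : x.W - ∑ b, x.w b ≤ (x.W + h.W) - ∑ b, (x.w b + h.w b) := hle (Sum.inl 7)
  have l8 : t * x.d - (x.U + x.W) ≤ t * (x.d + h.d) - ((x.U + h.U) + (x.W + h.W)) :=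
    hle (Sum.inl 8)
  have l9 : t * x.n - x.U ≤ t * (x.n + h.n) - (x.U + h.U) := hle (Sum.inl 9)
  have l10 : t * x.m - x.W ≤ t * (x.m + h.m) - (x.W + h.W) := hle (Sum.inl 10)
  have l11 : x.d - x.n ≤ (x.d + h.d) - (x.n + h.n) := hle (Sum.inl 11)
  have l12 : x.d - x.m ≤ (x.d + h.d) - (x.m + h.m) := hle (Sum.inl 12)
  have r3 : ∀ i, x.u (α i) + x.w (β i) + c - t * x.e i ≤
      (x.u (α i) + h.u (α i)) + (x.w (β i) + h.w (β i)) + c - t * (x.e i + h.e i) :=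
    fun i => hle (Sum.inr (3, i))
  have r4 : ∀ i, x.m - ∑ l with α l = i, x.e l ≤
      (x.m + h.m) - ∑ l with α l = i, (x.e l + h.e l) := fun i => hle (Sum.inr (4, i))
  have r5 : ∀ i, x.n - ∑ l with β l = i, x.e l ≤
      (x.n + h.n) - ∑ l with β l = i, (x.e l + h.e l) := fun i => hle (Sum.inr (5, i))
  clear hle
  refine ⟨fun i => ?_, ?_, ?_, ?_, ?_, ?_, fun a => ?_, fun b => ?_, ?_, ?_, ?_⟩
  · have h1 := Hx.h1 i
    have h2 := Hy.h1 i
    have h3 := r3 i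
    rw [Nat.mul_add] at h2 h3
    clear Hx Hy l5 l6 l7 l8 l9 l10 l11 l12 r3 r4 r5
    refine key h1 (h2.trans_eq ?_) (h3.trans_eq ?_)
    · ring
    · congr 1
      ring
  · have h2 := Hy.h2
    rw [Finset.sum_add_distrib] at h2 l6
    exact key Hx.h2 h2 l6
  · have h2 := Hy.h3
    rw [Finset.sum_add_distrib] at h2 l7
    exact key Hx.h3 h2 l7
  · have h2 := Hy.h4
    rw [Nat.mul_add, Nat.add_add_add_comm] at h2 l8
    exact key Hx.h4 h2 l8
  · have h2 := Hy.h5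
    rw [Nat.mul_add] at h2 l9
    exact key Hx.h5 h2 l9
  · have h2 := Hy.h6
    rw [Nat.mul_add] at h2 l10
    exact key Hx.h6 h2 l10
  · have h2 := Hy.h7 a
    have h3 := r4 a
    rw [Finset.sum_add_distrib] at h2 h3
    exact key (Hx.h7 a) h2 h3
  · have h2 := Hy.h8 b
    have h3 := r5 b
    rw [Finset.sum_add_distrib] at h2 h3
    exact key (Hx.h8 b) h2 h3
  · exact key Hx.h9 Hy.h9 l11
  · exact key Hx.h10 Hy.h10 l12
  · have h2 := Hy.h11
    rw [Nat.add_add_add_comm] at h2 l5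
    exact key Hx.h11 h2 l5

/-- The contradiction. -/
theorem fin {r t c : ℕ} (ht : 1 ≤ t) {α β : Fin r → Fin r} {x y : V r}
    (hle : vec t c α β x ≤ vec t c α β y)
    (Hx : Typ r t c α β x.d x.n x.m x.U x.W x.e x.u x.w)
    (Hy : Typ r t c α β y.d y.n y.m y.U y.W y.e y.u y.w)
    (hQ : Q x.d x.n x.m x.e < Q y.d y.n y.m y.e) : False := by
  obtain ⟨h, rfl⟩ := exists_add hle
  have Hh := typ hle Hx Hy
  have b1 := bil ht Hh Hx
  have b2 := bil ht Hh Hh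
  have b3 : (∑ i, ((x.e i : ℤ) + h.e i) ^ 2) = (∑ i, (x.e i : ℤ) ^ 2) +
      2 * (∑ i, (h.e i : ℤ) * x.e i) + ∑ i, (h.e i : ℤ) * h.e i := by
    rw [Finset.mul_sum, ← Finset.sum_add_distrib, ← Finset.sum_add_distrib]
    exact Finset.sum_congr rfl fun i _ => by ring
  have b4 : Q (add x h).d (add x h).n (add x h).m (add x h).e =
      (∑ i, ((x.e i : ℤ) + h.e i) ^ 2) + (((x.n : ℤ) + h.n) + (x.m + h.m) - (x.d + h.d)) ^ 2 -
        2 * ((x.n : ℤ) + h.n) * (x.m + h.m) := by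
    simp only [Q, add, Nat.cast_add]
  rw [b4, b3] at hQ
  clear Hx Hy hle Hh b3 b4
  unfold Q at hQ
  linarith

end CMBM

open CMBM

theorem specCMB : SpecCMB := by
  classical
  intro r t c α β ht
  by_contra hcon
  push Not at hcon
  have hz : ∀ K : ℕ, ∃ z : V r, Typ r t c α β z.d z.n z.m z.U z.W z.e z.u z.w ∧
      (K : ℤ) < Q z.d z.n z.m z.e := by
    intro K
    obtain ⟨d, n, m, U, W, e, u, w, h1, h2, h3, h4, h5, h6, h7, h8, h9, h10, h11, h12⟩ := hcon K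
    refine ⟨⟨d, n, m, U, W, e, u, w⟩, ⟨h1, h2, h3, h4, h5, h6, h7, h8, h9, h10, h11⟩, ?_⟩
    show (K : ℤ) < (∑ i, (e i : ℤ) ^ 2) + ((n : ℤ) + m - d) ^ 2 - 2 * n * m
    linarith
  choose z hz1 hz2 using hz
  obtain ⟨g, hg⟩ := WellQuasiOrdered.exists_monotone_subseq
    (wellQuasiOrdered_le (α := Fin 13 ⊕ (Fin 6 × Fin r) → ℕ)) (fun K => vec t c α β (z K))
  -- two members
  obtain ⟨l, hl0, hlQ⟩ : ∃ l : ℕ, 0 ≤ l ∧ Q (z (g 0)).d (z (g 0)).n (z (g 0)).m (z (g 0)).e <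
      Q (z (g l)).d (z (g l)).n (z (g l)).m (z (g l)).e := by
    refine ⟨(Q (z (g 0)).d (z (g 0)).n (z (g 0)).m (z (g 0)).e).toNat, Nat.zero_le _, ?_⟩
    refine lt_of_le_of_lt ?_ (hz2 _)
    refine (Int.self_le_toNat _).trans ?_
    exact_mod_cast g.strictMono.le_apply
  have hle : vec t c α β (z (g 0)) ≤ vec t c α β (z (g l)) := hg 0 l hl0
  have Hx := hz1 (g 0)
  have Hy := hz1 (g l)
  exact fin ht hle Hx Hy hlQ

end Pool.Agent.Lib.MP387a85.TR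

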