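import Pool.Agent.Lib.MP_387a85_ag.TR.SpecX

/-! # MP_387a85_ag, TR: module CMR (the inequality between real numbers) -/

set_option autoImplicit false

namespace Pool.Agent.Lib.MP387a85.TR

open Finset

namespace CMRM

variable {r : ℕ}

/-- the space of the vectors `(d, n, m, e, u, w)` -/
abbrev E (r : ℕ) : Type := (Fin 3 ⊕ (Fin 3 × Fin r)) → ℝ

/-- the hypotheses with the constant `c` -/
structure Ty (α β : Fin r → Fin r) (c : ℝ) (z : E r) : Prop where
  d0 : 0 ≤ z (Sum.inl 0)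
  n0 : 0 ≤ z (Sum.inl 1)
  m0 : 0 ≤ z (Sum.inl 2)
  e0 : ∀ i, 0 ≤ z (Sum.inr (0, i))
  u0 : ∀ i, 0 ≤ z (Sum.inr (1, i))
  w0 : ∀ i, 0 ≤ z (Sum.inr (2, i))
  eu : ∀ i, z (Sum.inr (0, i)) ≤ z (Sum.inr (1, α i)) + z (Sum.inr (2, β i)) + c
  s1 : ∑ a, z (Sum.inr (1, a)) + ∑ b, z (Sum.inr (2, b)) ≤ z (Sum.inl 0)
  s2 : ∑ a, z (Sum.inr (1, a)) ≤ z (Sum.inl 1)
  s3 : ∑ b, z (Sum.inr (2, b)) ≤ z (Sum.inl 2)
  s4 : ∀ a, ∑ i with α i = a, z (Sum.inr (0, i)) ≤ z (Sum.inl 2)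
  s5 : ∀ b, ∑ i with β i = b, z (Sum.inr (0, i)) ≤ z (Sum.inl 1)
  nd : z (Sum.inl 1) ≤ z (Sum.inl 0)
  md : z (Sum.inl 2) ≤ z (Sum.inl 0)
  dn : z (Sum.inl 0) ≤ z (Sum.inl 1) + z (Sum.inl 2)

/-- the coordinates -/
noncomputable def pr (x : Fin 3 ⊕ (Fin 3 × Fin r)) : E r →ₗ[ℝ] ℝ := LinearMap.proj x

theorem pr_apply (x : Fin 3 ⊕ (Fin 3 × Fin r)) (z : E r) : pr x z = z x := rfl

/-- the linear forms of the hypotheses -/
noncomputable def ell (α β : Fin r → Fin r) : Fin 9 ⊕ (Fin 6 × Fin r) → (E r →ₗ[ℝ] ℝ)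
  | Sum.inl j => ![pr (Sum.inl 0), pr (Sum.inl 1), pr (Sum.inl 2),
      pr (Sum.inl 0) - (∑ a, pr (Sum.inr (1, a)) + ∑ b, pr (Sum.inr (2, b))),
      pr (Sum.inl 1) - ∑ a, pr (Sum.inr (1, a)), pr (Sum.inl 2) - ∑ b, pr (Sum.inr (2, b)),
      pr (Sum.inl 0) - pr (Sum.inl 1), pr (Sum.inl 0) - pr (Sum.inl 2),
      pr (Sum.inl 1) + pr (Sum.inl 2) - pr (Sum.inl 0)] j
  | Sum.inr (j, i) => ![pr (Sum.inr (0, i)), pr (Sum.inr (1, i)), pr (Sum.inr (2, i)),
      pr (Sum.inr (1, α i)) + pr (Sum.inr (2, β i)) - pr (Sum.inr (0, i)),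
      pr (Sum.inl 2) - ∑ i' with α i' = i, pr (Sum.inr (0, i')),
      pr (Sum.inl 1) - ∑ i' with β i' = i, pr (Sum.inr (0, i'))] j

/-- the constants -/
def bb (r : ℕ) : Fin 9 ⊕ (Fin 6 × Fin r) → ℝ
  | Sum.inl _ => 0
  | Sum.inr (j, _) => ![0, 0, 0, -1, 0, 0] j

theorem ty_iff (α β : Fin r → Fin r) (c : ℝ) (z : E r) :
    Ty α β c z ↔ ∀ j, c * bb r j ≤ ell α β j z := by
  constructor
  · intro h j
    rcases j with j | ⟨j, i⟩
    · have h1 := h.d0
      have h2 := h.n0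
      have h3 := h.m0
      have h4 := h.s1
      have h5 := h.s2
      have h6 := h.s3
      have h7 := h.nd
      have h8 := h.md
      have h9 := h.dn
      fin_cases j <;>
        simp [ell, bb, pr_apply, LinearMap.sum_apply] <;> linarith
    · have h1 := h.e0 i
      have h2 := h.u0 i
      have h3 := h.w0 i
      have h4 := h.eu i
      have h5 := h.s4 i
      have h6 := h.s5 i
      fin_cases j <;> simp [ell, bb, pr_apply, LinearMap.sum_apply] <;> linarith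
  · intro h
    have g0 := h (Sum.inl 0)
    have g1 := h (Sum.inl 1)
    have g2 := h (Sum.inl 2)
    have g3 := h (Sum.inl 3)
    have g4 := h (Sum.inl 4)
    have g5 := h (Sum.inl 5)
    have g6 := h (Sum.inl 6)
    have g7 := h (Sum.inl 7)
    have g8 := h (Sum.inl 8)
    have k0 := fun i => h (Sum.inr (0, i))
    have k1 := fun i => h (Sum.inr (1, i))
    have k2 := fun i => h (Sum.inr (2, i))
    have k3 := fun i => h (Sum.inr (3, i))
    have k4 := fun i => h (Sum.inr (4, i))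
    have k5 := fun i => h (Sum.inr (5, i))
    simp [ell, bb, pr_apply, LinearMap.sum_apply] at g0 g1 g2 g3 g4 g5 g6 g7 g8 k0 k1 k2 k3 k4 k5
    exact ⟨g0, g1, g2, k0, k1, k2, fun i => by linarith [k3 i], by linarith, by linarith, by linarith,
      fun a => by linarith [k4 a], fun b => by linarith [k5 b], by linarith, by linarith, by linarith⟩

/-- the bilinear form -/
noncomputable def B (h z : E r) : ℝ :=
  ∑ i, h (Sum.inr (0, i)) * z (Sum.inr (0, i)) +
    (h (Sum.inl 1) + h (Sum.inl 2) - h (Sum.inl 0)) * (z (Sum.inl 1) + z (Sum.inl 2) - z (Sum.inl 0)) -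
    h (Sum.inl 1) * z (Sum.inl 2) - h (Sum.inl 2) * z (Sum.inl 1)

theorem B_le {α β : Fin r → Fin r} {c : ℝ} {h z : E r} (hh : Ty α β 0 h) (hz : Ty α β c z) :
    B h z ≤ 0 := by
  have e1 : ∑ i, h (Sum.inr (0, i)) * z (Sum.inr (0, i)) ≤
      ∑ i, z (Sum.inr (0, i)) * (h (Sum.inr (1, α i)) + h (Sum.inr (2, β i))) := by
    refine Finset.sum_le_sum fun i _ => ?_
    rw [mul_comm]
    refine mul_le_mul_of_nonneg_left ?_ (hz.e0 i)
    have := hh.eu i
    linarith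
  have e2 : ∑ i, z (Sum.inr (0, i)) * h (Sum.inr (1, α i)) ≤
      z (Sum.inl 2) * ∑ a, h (Sum.inr (1, a)) := by
    rw [← Finset.sum_fiberwise (s := univ) (g := α), Finset.mul_sum]
    refine Finset.sum_le_sum fun a _ => ?_
    have : ∑ i with α i = a, z (Sum.inr (0, i)) * h (Sum.inr (1, α i)) =
        (∑ i with α i = a, z (Sum.inr (0, i))) * h (Sum.inr (1, a)) := by
      rw [Finset.sum_mul]
      refine Finset.sum_congr rfl fun i hi => ?_
      rw [(Finset.mem_filter.1 hi).2]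
    rw [this]
    exact mul_le_mul_of_nonneg_right (hz.s4 a) (hh.u0 a)
  have e3 : ∑ i, z (Sum.inr (0, i)) * h (Sum.inr (2, β i)) ≤
      z (Sum.inl 1) * ∑ b, h (Sum.inr (2, b)) := by
    rw [← Finset.sum_fiberwise (s := univ) (g := β), Finset.mul_sum]
    refine Finset.sum_le_sum fun b _ => ?_
    have : ∑ i with β i = b, z (Sum.inr (0, i)) * h (Sum.inr (2, β i)) =
        (∑ i with β i = b, z (Sum.inr (0, i))) * h (Sum.inr (2, b)) := by
      rw [Finset.sum_mul]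
      refine Finset.sum_congr rfl fun i hi => ?_
      rw [(Finset.mem_filter.1 hi).2]
    rw [this]
    exact mul_le_mul_of_nonneg_right (hz.s5 b) (hh.w0 b)
  have e4 : ∑ i, z (Sum.inr (0, i)) * (h (Sum.inr (1, α i)) + h (Sum.inr (2, β i))) =
      ∑ i, z (Sum.inr (0, i)) * h (Sum.inr (1, α i)) +
        ∑ i, z (Sum.inr (0, i)) * h (Sum.inr (2, β i)) := by
    rw [← Finset.sum_add_distrib]
    exact Finset.sum_congr rfl fun i _ => mul_add _ _ _
  set U := ∑ a, h (Sum.inr (1, a)) with hU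
  set W := ∑ b, h (Sum.inr (2, b)) with hW
  have f1 := hh.s1
  have f2 := hh.s2
  have f3 := hh.s3
  have f4 := hh.dn
  have g1 := hz.nd
  have g2 := hz.md
  have g3 := hz.dn
  rw [← hU, ← hW] at f1
  rw [← hU] at f2
  rw [← hW] at f3
  have m0 : 0 ≤ z (Sum.inl 1) + z (Sum.inl 2) - z (Sum.inl 0) := by linarith
  have m1 : z (Sum.inl 1) + z (Sum.inl 2) - z (Sum.inl 0) ≤ z (Sum.inl 2) := by linarith
  have m2 : z (Sum.inl 1) + z (Sum.inl 2) - z (Sum.inl 0) ≤ z (Sum.inl 1) := by linarith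
  have p1 : (h (Sum.inl 1) + h (Sum.inl 2) - h (Sum.inl 0)) *
      (z (Sum.inl 1) + z (Sum.inl 2) - z (Sum.inl 0)) ≤
      ((h (Sum.inl 1) - U) + (h (Sum.inl 2) - W)) *
        (z (Sum.inl 1) + z (Sum.inl 2) - z (Sum.inl 0)) :=
    mul_le_mul_of_nonneg_right (by linarith) m0
  have p2 : (h (Sum.inl 1) - U) * (z (Sum.inl 1) + z (Sum.inl 2) - z (Sum.inl 0)) ≤
      (h (Sum.inl 1) - U) * z (Sum.inl 2) := mul_le_mul_of_nonneg_left m1 (by linarith)
  have p3 : (h (Sum.inl 2) - W) * (z (Sum.inl 1) + z (Sum.inl 2) - z (Sum.inl 0)) ≤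
      (h (Sum.inl 2) - W) * z (Sum.inl 1) := mul_le_mul_of_nonneg_left m2 (by linarith)
  have p4 := e1.trans (le_of_eq e4)
  unfold B
  nlinarith

/-- the quadratic form -/
theorem B_self (z : E r) : B z z = ∑ i, z (Sum.inr (0, i)) ^ 2 +
    (z (Sum.inl 1) + z (Sum.inl 2) - z (Sum.inl 0)) ^ 2 - 2 * z (Sum.inl 1) * z (Sum.inl 2) := by
  unfold B
  rw [Finset.sum_congr rfl fun i _ => (sq (z (Sum.inr (0, i)))).symm]
  ring

theorem B_add (h v : E r) : B (v + h) (v + h) = B v v + 2 * B h v + B h h := by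
  unfold B
  simp only [Pi.add_apply]
  have : ∑ i, (v (Sum.inr (0, i)) + h (Sum.inr (0, i))) * (v (Sum.inr (0, i)) + h (Sum.inr (0, i))) =
      ∑ i, v (Sum.inr (0, i)) * v (Sum.inr (0, i)) +
        2 * ∑ i, h (Sum.inr (0, i)) * v (Sum.inr (0, i)) +
        ∑ i, h (Sum.inr (0, i)) * h (Sum.inr (0, i)) := by
    rw [Finset.mul_sum, ← Finset.sum_add_distrib, ← Finset.sum_add_distrib]
    exact Finset.sum_congr rfl fun i _ => by ring
  rw [this]
  ring

theorem main (hDEC : SpecDEC) (α β : Fin r → Fin r) : ∃ K : ℝ, 0 ≤ K ∧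
    ∀ (c : ℝ) (z : E r), 0 ≤ c → Ty α β c z → B z z ≤ K * c ^ 2 := by
  obtain ⟨R, hR⟩ := hDEC (E r) (Fin 9 ⊕ (Fin 6 × Fin r)) (ell α β) (bb r) (by
    intro z hz
    have g0 := hz (Sum.inl 0)
    have g1 := hz (Sum.inl 1)
    have g2 := hz (Sum.inl 2)
    have k0 := fun i => hz (Sum.inr (0, i))
    have k1 := fun i => hz (Sum.inr (1, i))
    have k2 := fun i => hz (Sum.inr (2, i))
    simp [ell, pr_apply] at g0 g1 g2 k0 k1 k2
    funext x
    rcases x with j | ⟨j, i⟩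
    · fin_cases j
      · exact g0
      · exact g1
      · exact g2
    · fin_cases j
      · exact k0 i
      · exact k1 i
      · exact k2 i)
  refine ⟨(r + 9) * R ^ 2, by positivity, fun c z hc hz => ?_⟩
  rcases hc.eq_or_lt with h0 | hpos
  · subst h0
    have := B_le hz hz
    simpa using this
  · have h1 := (ty_iff α β c z).1 hz
    obtain ⟨v, hv1, hv2, hv3⟩ := hR (c⁻¹ • z) (by
      intro j
      rw [map_smul, smul_eq_mul]
      have := h1 j
      rw [inv_mul_eq_div, le_div_iff₀ hpos]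
      linarith)
    have hV : Ty α β c (c • v) := by
      rw [ty_iff]
      intro j
      rw [map_smul, smul_eq_mul]
      exact mul_le_mul_of_nonneg_left (hv2 j) hpos.le
    have hH : Ty α β 0 (z - c • v) := by
      rw [ty_iff]
      intro j
      rw [zero_mul]
      have e1 : z - c • v = c • (c⁻¹ • z - v) := by
        rw [smul_sub, smul_inv_smul₀ hpos.ne']
      rw [e1, map_smul, smul_eq_mul]
      exact mul_nonneg hpos.le (hv3 j)
    have e2 : z = c • v + (z - c • v) := by abel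
    rw [e2, B_add]
    have b1 := B_le hH hV
    have b2 := B_le hH hH
    have hco : ∀ x, |(c • v) x| ≤ c * R := by
      intro x
      rw [Pi.smul_apply, smul_eq_mul, abs_mul, abs_of_pos hpos]
      refine mul_le_mul_of_nonneg_left ?_ hpos.le
      have := norm_le_pi_norm v x
      rw [Real.norm_eq_abs] at this
      exact this.trans hv1
    have hcR : 0 ≤ c * R := (abs_nonneg _).trans (hco (Sum.inl 0))
    have b3 : B (c • v) (c • v) ≤ (r + 9) * R ^ 2 * c ^ 2 := by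
      rw [B_self]
      have s1 : ∑ i, (c • v) (Sum.inr (0, i)) ^ 2 ≤ ∑ _i : Fin r, (c * R) ^ 2 := by
        refine Finset.sum_le_sum fun i _ => ?_
        rw [← sq_abs]
        exact pow_le_pow_left₀ (abs_nonneg _) (hco _) 2
      rw [Finset.sum_const, Finset.card_univ, Fintype.card_fin, nsmul_eq_mul] at s1
      have s2 : ((c • v) (Sum.inl 1) + (c • v) (Sum.inl 2) - (c • v) (Sum.inl 0)) ^ 2 ≤
          (3 * (c * R)) ^ 2 := by
        rw [← sq_abs]
        refine pow_le_pow_left₀ (abs_nonneg _) ?_ 2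
        have a0 := abs_le.1 (hco (Sum.inl 0))
        have a1 := abs_le.1 (hco (Sum.inl 1))
        have a2 := abs_le.1 (hco (Sum.inl 2))
        rw [abs_le]
        constructor <;> linarith [a0.1, a0.2, a1.1, a1.2, a2.1, a2.2]
      have s3 : 0 ≤ (c • v) (Sum.inl 1) * (c • v) (Sum.inl 2) := mul_nonneg hV.n0 hV.m0
      nlinarith
    linarith

end CMRM

open CMRM in
theorem specCMR (hDEC : SpecDEC) : SpecCMR := by
  intro r α β
  obtain ⟨K, hK, h⟩ := main hDEC α β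
  refine ⟨K, hK, ?_⟩
  intro c d n m e u w hc hd hn hm he hu hw h1 h2 h3 h4 h5 h6 h7 h8 h9
  set z : CMRM.E r := Sum.elim ![d, n, m] (fun p : Fin 3 × Fin r => (![e, u, w] : Fin 3 → Fin r → ℝ) p.1 p.2)
    with hz
  have ht : Ty α β c z := ⟨hd, hn, hm, he, hu, hw, h1, h2, h3, h4, h5, h6, h7, h8, h9⟩
  have := h c z hc ht
  rw [B_self] at this
  have e1 : ∑ i, z (Sum.inr (0, i)) ^ 2 + (z (Sum.inl 1) + z (Sum.inl 2) - z (Sum.inl 0)) ^ 2 -
      2 * z (Sum.inl 1) * z (Sum.inl 2) = ∑ i, e i ^ 2 + (n + m - d) ^ 2 - 2 * n * m := rfl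
  rw [e1] at this
  linarith

end Pool.Agent.Lib.MP387a85.TR
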