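import Pool.Agent.Lib.MP_387a85_ag.TR.Spec

/-!
# Module COF: the coefficients of a form of bounded tensor rank
-/

set_option autoImplicit false

namespace Pool.Agent.Lib.MP387a85.TR

open MvPolynomial

namespace COFM

variable {k : Type} [Field k]

/-- the affine equation as a polynomial in `y` with coefficients in `k[x]` -/
noncomputable def P (G : MvPolynomial (Fin 3) k) : Polynomial (Polynomial k) :=
  ∑ α ∈ G.support, Polynomial.C (Polynomial.C (coeff α G) * Polynomial.X ^ (α 0)) *
    Polynomial.X ^ (α 1)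

theorem eval_P (G : MvPolynomial (Fin 3) k) (x y : k) :
    ((P G).eval (Polynomial.C y)).eval x = eval ![x, y, 1] G := by
  unfold P
  rw [Polynomial.eval_finsetSum, Polynomial.eval_finsetSum, MvPolynomial.eval_eq']
  refine Finset.sum_congr rfl fun α _ => ?_
  rw [Fin.prod_univ_three]
  simp only [Polynomial.eval_mul, Polynomial.eval_C, Polynomial.eval_pow, Polynomial.eval_X,
    Matrix.cons_val_zero, Matrix.cons_val_one, Matrix.cons_val, one_pow, mul_one]
  ring

/-- the right side -/
noncomputable def Q {t : ℕ} (f g : Fin t → Polynomial k) : Polynomial (Polynomial k) :=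
  ∑ l, Polynomial.C (f l) * (g l).map Polynomial.C

theorem eval_Q {t : ℕ} (f g : Fin t → Polynomial k) (x y : k) :
    ((Q f g).eval (Polynomial.C y)).eval x = ∑ j, (f j).eval x * (g j).eval y := by
  unfold Q
  rw [Polynomial.eval_finsetSum, Polynomial.eval_finsetSum]
  refine Finset.sum_congr rfl fun l _ => ?_
  rw [Polynomial.eval_mul, Polynomial.eval_C, Polynomial.eval_mul, Polynomial.eval_map,
    Polynomial.eval₂_at_apply, Polynomial.eval_C]

theorem P_eq_Q [CharZero k] {t : ℕ} {G : MvPolynomial (Fin 3) k} {f g : Fin t → Polynomial k}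
    (h : Rep G f g) : P G = Q f g := by
  apply Polynomial.eq_of_infinite_eval_eq
  have hinf : (Set.range (Polynomial.C : k → Polynomial k)).Infinite :=
    Set.infinite_range_of_injective Polynomial.C_injective
  refine hinf.mono ?_
  rintro _ ⟨y, rfl⟩
  show (P G).eval (Polynomial.C y) = (Q f g).eval (Polynomial.C y)
  apply Polynomial.funext
  intro x
  rw [eval_P, eval_Q]
  exact h x y

theorem coeff_Q {t : ℕ} (f g : Fin t → Polynomial k) (p q : ℕ) :
    ((Q f g).coeff q).coeff p = ∑ l, (f l).coeff p * (g l).coeff q := by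
  unfold Q
  rw [Polynomial.finsetSum_coeff, Polynomial.finsetSum_coeff]
  refine Finset.sum_congr rfl fun l _ => ?_
  rw [Polynomial.coeff_C_mul, Polynomial.coeff_map, Polynomial.coeff_mul_C]

theorem coeff_P (G : MvPolynomial (Fin 3) k) (p q : ℕ) :
    ((P G).coeff q).coeff p =
      ∑ α ∈ G.support, if α 0 = p ∧ α 1 = q then coeff α G else 0 := by
  unfold P
  rw [Polynomial.finsetSum_coeff, Polynomial.finsetSum_coeff]
  refine Finset.sum_congr rfl fun α _ => ?_
  rw [Polynomial.coeff_C_mul, Polynomial.coeff_X_pow]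
  by_cases hq : q = α 1
  · rw [if_pos hq, mul_one, Polynomial.coeff_C_mul, Polynomial.coeff_X_pow]
    by_cases hp : p = α 0
    · rw [if_pos hp, if_pos ⟨hp.symm, hq.symm⟩, mul_one]
    · rw [if_neg hp, if_neg (fun h => hp h.1.symm), mul_zero]
  · rw [if_neg hq, mul_zero, Polynomial.coeff_zero, if_neg (fun h => hq h.2.symm)]

theorem sum_eq {G : MvPolynomial (Fin 3) k} {d : ℕ} (hG : G.IsHomogeneous d)
    {α : Fin 3 →₀ ℕ} (hα : α ∈ G.support) : α 0 + α 1 + α 2 = d := by
  have h1 := hG (mem_support_iff.1 hα)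
  rw [Finsupp.weight_apply, Finsupp.sum_fintype _ _ (by simp), Fin.sum_univ_three] at h1
  simpa using h1

end COFM

open COFM in
theorem specCOF : SpecCOF := by
  intro k _ _ t G d f g hG hR
  have hPQ := P_eq_Q hR
  have hco : ∀ p q : ℕ, ∑ l, (f l).coeff p * (g l).coeff q =
      ∑ α ∈ G.support, if α 0 = p ∧ α 1 = q then coeff α G else 0 := by
    intro p q
    rw [← coeff_Q, ← coeff_P, hPQ]
  refine ⟨fun p q hpq => ?_, fun α hα => ?_⟩
  · rw [hco]
    refine Finset.sum_eq_zero fun α hα => ?_
    rw [if_neg]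
    rintro ⟨h1, h2⟩
    have h3 := sum_eq hG hα
    omega
  · rw [hco, Finset.sum_eq_single α]
    · rw [if_pos ⟨rfl, rfl⟩]
    · intro β hβ hne
      rw [if_neg]
      rintro ⟨h1, h2⟩
      apply hne
      have h3 := sum_eq hG hα
      have h4 := sum_eq hG hβ
      apply Finsupp.ext
      intro i
      fin_cases i
      · exact h1
      · exact h2
      · show β 2 = α 2
        omega
    · intro h
      exact absurd hα h

end Pool.Agent.Lib.MP387a85.TR
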