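import Pool.Agent.Lib.MP_387a85_ag.TR.SpecX

/-!
# MP_387a85_ag, TR, module DEC: a point of a polyhedron is the sum of a bounded point of it and of an
element of its recession cone
-/

set_option autoImplicit false

namespace Pool.Agent.Lib.MP387a85.TR

namespace DECM

open Filter Topology

variable {E : Type} [NormedAddCommGroup E] [NormedSpace ℝ E] [FiniteDimensional ℝ E]
  {κ : Type} [Fintype κ]

/-- reduced points -/
def Red (ℓ : κ → E →ₗ[ℝ] ℝ) (b : κ → ℝ) (v : E) : Prop :=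
  (∀ j, b j ≤ ℓ j v) ∧ ∀ ρ : E, (∀ j, 0 ≤ ℓ j ρ) → (∀ j, b j ≤ ℓ j (v - ρ)) → ρ = 0

theorem cont (ℓ : κ → E →ₗ[ℝ] ℝ) (j : κ) : Continuous (ℓ j) :=
  (ℓ j).continuous_of_finiteDimensional

theorem exists_bound (ℓ : κ → E →ₗ[ℝ] ℝ) (hℓ : ∀ z : E, (∀ j, ℓ j z = 0) → z = 0) :
    ∃ C : ℝ, 0 ≤ C ∧ ∀ (z : E) (M : ℝ), 0 ≤ M → (∀ j, |ℓ j z| ≤ M) → ‖z‖ ≤ C * M := by
  have hker : LinearMap.ker (LinearMap.pi ℓ) = ⊥ := by
    rw [LinearMap.ker_eq_bot']
    intro z hz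
    apply hℓ
    intro j
    have := congrFun hz j
    simpa using this
  obtain ⟨K, _, hK⟩ := LinearMap.exists_antilipschitzWith (LinearMap.pi ℓ) hker
  refine ⟨K, K.2, fun z M hM hz => ?_⟩
  have h1 := hK.le_mul_dist z 0
  rw [map_zero, dist_zero_right, dist_zero_right] at h1
  refine h1.trans (mul_le_mul_of_nonneg_left ?_ K.2)
  rw [pi_norm_le_iff_of_nonneg hM]
  intro j
  rw [Real.norm_eq_abs]
  exact hz j

theorem exists_red (ℓ : κ → E →ₗ[ℝ] ℝ) (b : κ → ℝ) (hℓ : ∀ z : E, (∀ j, ℓ j z = 0) → z = 0)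
    (z : E) (hz : ∀ j, b j ≤ ℓ j z) : ∃ v : E, Red ℓ b v ∧ ∀ j, 0 ≤ ℓ j (z - v) := by
  obtain ⟨C, hC0, hC⟩ := exists_bound ℓ hℓ
  set S : Set E := {v | ∀ j, b j ≤ ℓ j v ∧ ℓ j v ≤ ℓ j z} with hS
  have hclosed : IsClosed S := by
    rw [hS, Set.ofPred_forall]
    refine isClosed_iInter fun j => ?_
    exact (isClosed_le continuous_const (cont ℓ j)).inter (isClosed_le (cont ℓ j) continuous_const)
  set M : ℝ := ∑ j, (|b j| + |ℓ j z|) with hM
  have hM0 : 0 ≤ M := Finset.sum_nonneg fun j _ => by positivity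
  have hsub : S ⊆ Metric.closedBall (0 : E) (C * M) := by
    intro v hv
    rw [mem_closedBall_zero_iff]
    refine hC v M hM0 fun j => ?_
    have h1 : |b j| + |ℓ j z| ≤ M :=
      Finset.single_le_sum (f := fun j => |b j| + |ℓ j z|) (fun j _ => by positivity)
        (Finset.mem_univ j)
    have h2 := hv j
    rw [abs_le]
    constructor
    · linarith [neg_abs_le (b j), abs_nonneg (ℓ j z), h2.1]
    · linarith [le_abs_self (ℓ j z), abs_nonneg (b j), h2.2]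
  have hcomp : IsCompact S := (isCompact_closedBall (0 : E) (C * M)).of_isClosed_subset hclosed hsub
  have hf : Continuous fun v : E => ∑ j, ℓ j v := continuous_finsetSum _ fun j _ => cont ℓ j
  obtain ⟨v, hvS, hmin⟩ := hcomp.exists_isMinOn ⟨z, fun j => ⟨hz j, le_rfl⟩⟩ hf.continuousOn
  refine ⟨v, ⟨fun j => (hvS j).1, fun ρ h0 h1 => ?_⟩, fun j => ?_⟩
  · have hmem : v - ρ ∈ S := fun j => ⟨h1 j, by
      rw [map_sub]
      linarith [h0 j, (hvS j).2]⟩
    have h2 : ∑ j, ℓ j v ≤ ∑ j, ℓ j (v - ρ) := hmin hmem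
    have h3 : ∑ j, ℓ j (v - ρ) = ∑ j, ℓ j v - ∑ j, ℓ j ρ := by
      rw [← Finset.sum_sub_distrib]
      exact Finset.sum_congr rfl fun j _ => map_sub _ _ _
    have h4 : ∑ j, ℓ j ρ = 0 :=
      le_antisymm (by linarith) (Finset.sum_nonneg fun j _ => h0 j)
    rw [Finset.sum_eq_zero_iff_of_nonneg fun j _ => h0 j] at h4
    exact hℓ ρ fun j => h4 j (Finset.mem_univ j)
  · rw [map_sub]
    linarith [(hvS j).2]

theorem red_bounded (ℓ : κ → E →ₗ[ℝ] ℝ) (b : κ → ℝ) : ∃ R : ℝ, ∀ v : E, Red ℓ b v → ‖v‖ ≤ R := by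
  by_contra hcon
  push Not at hcon
  choose v hv hn using fun n : ℕ => hcon (n : ℝ)
  have hpos : ∀ n, 0 < ‖v n‖ := fun n => lt_of_le_of_lt (Nat.cast_nonneg n) (hn n)
  obtain ⟨ρ, hρ, φ, hφ, hlim⟩ := (isCompact_sphere (0 : E) 1).tendsto_subseq
    (x := fun n => (‖v n‖)⁻¹ • v n) (fun n => by
      rw [mem_sphere_zero_iff_norm, norm_smul, norm_inv, norm_norm]
      exact inv_mul_cancel₀ (hpos n).ne')
  have hN : Tendsto (fun n => ‖v (φ n)‖) atTop atTop := by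
    refine tendsto_atTop_mono (fun n => ?_) (tendsto_natCast_atTop_atTop (R := ℝ))
    have h1 : (n : ℝ) ≤ (φ n : ℝ) := by exact_mod_cast hφ.id_le n
    exact h1.trans (hn (φ n)).le
  have hlj : ∀ j, Tendsto (fun n => (‖v (φ n)‖)⁻¹ * ℓ j (v (φ n))) atTop (𝓝 (ℓ j ρ)) := by
    intro j
    have h1 := ((cont ℓ j).tendsto ρ).comp hlim
    refine h1.congr fun n => ?_
    simp only [Function.comp_apply, map_smul, smul_eq_mul]
  have hρ0 : ∀ j, 0 ≤ ℓ j ρ := by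
    intro j
    have h1 : Tendsto (fun n => (‖v (φ n)‖)⁻¹ * b j) atTop (𝓝 (0 * b j)) :=
      (tendsto_inv_atTop_zero.comp hN).mul_const (b j)
    rw [zero_mul] at h1
    refine le_of_tendsto_of_tendsto' h1 (hlj j) fun n => ?_
    exact mul_le_mul_of_nonneg_left ((hv (φ n)).1 j) (inv_nonneg.mpr (norm_nonneg _))
  have hev : ∀ᶠ n in atTop, ∀ j, b j ≤ ℓ j (v (φ n) - ρ) := by
    rw [eventually_all]
    intro j
    rcases (hρ0 j).eq_or_lt with h0 | h0
    · refine Eventually.of_forall fun n => ?_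
      rw [map_sub, ← h0, sub_zero]
      exact (hv (φ n)).1 j
    · have h1 := hN.atTop_mul_pos h0 (hlj j)
      have h2 : Tendsto (fun n => ℓ j (v (φ n))) atTop atTop := by
        refine h1.congr fun n => ?_
        rw [← mul_assoc, mul_inv_cancel₀ (hpos (φ n)).ne', one_mul]
      filter_upwards [h2.eventually_ge_atTop (b j + ℓ j ρ)] with n hn'
      rw [map_sub]
      linarith
  obtain ⟨n, hn'⟩ := hev.exists
  have h0 := (hv (φ n)).2 ρ hρ0 hn'
  rw [mem_sphere_zero_iff_norm, h0, norm_zero] at hρ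
  exact zero_ne_one hρ

end DECM

theorem specDEC : SpecDEC := by
  intro E _ _ _ κ _ ℓ b hℓ
  obtain ⟨R, hR⟩ := DECM.red_bounded ℓ b
  refine ⟨R, fun z hz => ?_⟩
  obtain ⟨v, hv, hvz⟩ := DECM.exists_red ℓ b hℓ z hz
  exact ⟨v, hR v hv, hv.1, hvz⟩

end Pool.Agent.Lib.MP387a85.TR
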