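import Pool.Agent.Lib.MP_387a85_ag.TR.Spec

/-!
# DEG: the degrees of the Wronskians
-/

set_option autoImplicit false

namespace Pool.Agent.Lib.MP387a85.TR

open MvPolynomial

namespace DEGM

variable {k : Type} [Field k]

lemma iter_hom (i : Fin 3) (d n : ℕ) : ∀ (H : MvPolynomial (Fin 3) k) (e : ℕ), e ≤ d →
    H.IsHomogeneous e → ∃ e', e' ≤ d ∧ ((pderiv i)^[n] H).IsHomogeneous e' := by
  induction n with
  | zero => intro H e he hH; exact ⟨e, he, hH⟩
  | succ n ih =>
    intro H e he hH
    rw [Function.iterate_succ_apply]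
    exact ih (pderiv i H) (e - 1) (by omega) hH.pderiv

lemma dij_hom (G : MvPolynomial (Fin 3) k) (d i j : ℕ) (hG : G.IsHomogeneous d) :
    ∃ e, e ≤ d ∧ (Dij G i j).IsHomogeneous e := by
  obtain ⟨e, he, h⟩ := iter_hom 0 d i G d (le_refl d) hG
  exact iter_hom 1 d j _ e he h

lemma deg_le (H : MvPolynomial (Fin 3) k) (e : ℕ) (hH : H.IsHomogeneous e) :
    (aeval ![Polynomial.X, Polynomial.X, 1] H : Polynomial k).natDegree ≤ e := by
  rw [aeval_def, eval₂_eq']
  refine Polynomial.natDegree_sum_le_of_forall_le _ _ ?_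
  intro α hα
  have h1 : ∀ i : Fin 3, (![Polynomial.X, Polynomial.X, 1] i : Polynomial k).natDegree ≤ 1 := by
    intro i
    fin_cases i
    · exact Polynomial.natDegree_X_le
    · exact Polynomial.natDegree_X_le
    · show (1 : Polynomial k).natDegree ≤ 1
      rw [Polynomial.natDegree_one]
      exact Nat.zero_le 1
  have h2 : α.degree = e := by
    by_contra h
    exact (mem_support_iff.1 hα) (hH.coeff_eq_zero h)
  refine Polynomial.natDegree_mul_le.trans ?_
  have h3 : ((algebraMap k (Polynomial k)) (coeff α H)).natDegree = 0 :=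
    Polynomial.natDegree_C _
  rw [h3, zero_add]
  refine (Polynomial.natDegree_prod_le _ _).trans ?_
  calc ∑ i, ((![Polynomial.X, Polynomial.X, 1] i : Polynomial k) ^ α i).natDegree
      ≤ ∑ i, α i := by
        refine Finset.sum_le_sum fun i _ => ?_
        refine Polynomial.natDegree_pow_le.trans ?_
        calc α i * (![Polynomial.X, Polynomial.X, 1] i : Polynomial k).natDegree ≤ α i * 1 :=
              Nat.mul_le_mul_left _ (h1 i)
          _ = α i := mul_one _
    _ = e := by
        rw [← h2, Finsupp.degree_eq_sum]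

lemma det_deg {t : ℕ} (M : Matrix (Fin t) (Fin t) (Polynomial k)) (d : ℕ)
    (h : ∀ i j, (M i j).natDegree ≤ d) : M.det.natDegree ≤ t * d := by
  rw [Matrix.det_apply]
  refine Polynomial.natDegree_sum_le_of_forall_le _ _ ?_
  intro σ _
  refine (Polynomial.natDegree_smul_le _ _).trans ?_
  refine (Polynomial.natDegree_prod_le _ _).trans ?_
  calc ∑ i, (M (σ i) i).natDegree ≤ ∑ _i : Fin t, d := Finset.sum_le_sum fun i _ => h _ _
    _ = t * d := by simp

end DEGM

open DEGM in
theorem specDEG (hKEY : SpecKEY) : SpecDEG := by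
  intro k _ _ t G d f g hG hR hf hg
  have h1 := hKEY k t G f g hR Polynomial.X Polynomial.X
  rw [Polynomial.comp_X, Polynomial.comp_X] at h1
  rw [← Polynomial.natDegree_mul hf hg, ← h1]
  refine det_deg _ d ?_
  intro i j
  obtain ⟨e, he, h⟩ := dij_hom G d i j hG
  exact (deg_le _ e h).trans he

end Pool.Agent.Lib.MP387a85.TR
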