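import Pool.Agent.Lib.MP_387a85_ag.TR.Spec

/-!
# MP_387a85_ag, module DEX: degrees of the Wronskians and the bidegree
-/

set_option autoImplicit false

namespace Pool.Agent.Lib.MP387a85.TR

open MvPolynomial

namespace DEXM

variable {k : Type} [Field k]

theorem eval_aeval (v : Fin 3 → Polynomial k) (G : MvPolynomial (Fin 3) k) (x : k) :
    (aeval v G : Polynomial k).eval x = eval (fun i => (v i).eval x) G := by
  rw [aeval_def, eval₂_eq', eval_eq', Polynomial.eval_finset_sum]
  refine Finset.sum_congr rfl fun d _ => ?_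
  rw [Polynomial.eval_mul, Polynomial.eval_prod, Polynomial.algebraMap_eq, Polynomial.eval_C]
  congr 1
  refine Finset.prod_congr rfl fun i _ => ?_
  rw [Polynomial.eval_pow]

theorem natDegree_aeval_le (v : Fin 3 → Polynomial k) (G : MvPolynomial (Fin 3) k) (N : ℕ)
    (h : ∀ d ∈ G.support, ∑ i, d i * (v i).natDegree ≤ N) :
    (aeval v G : Polynomial k).natDegree ≤ N := by
  rw [aeval_def, eval₂_eq']
  refine Polynomial.natDegree_sum_le_of_forall_le _ _ fun d hd => ?_
  refine (Polynomial.natDegree_mul_le).trans ?_
  rw [Polynomial.algebraMap_eq, Polynomial.natDegree_C, zero_add]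
  refine (Polynomial.natDegree_prod_le _ _).trans ?_
  refine le_trans (Finset.sum_le_sum fun i _ => ?_) (h d hd)
  exact Polynomial.natDegree_pow_le

theorem natDegree_Wr_le {t : ℕ} (f : Fin t → Polynomial k) (D : ℕ)
    (h : ∀ l, (f l).natDegree ≤ D) : (Wr f).natDegree ≤ t * D := by
  unfold Wr
  rw [Matrix.det_apply']
  refine Polynomial.natDegree_sum_le_of_forall_le _ _ fun σ _ => ?_
  refine (Polynomial.natDegree_mul_le).trans ?_
  rw [Polynomial.natDegree_intCast, zero_add]
  refine (Polynomial.natDegree_prod_le _ _).trans ?_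
  have h1 : ∀ i ∈ (Finset.univ : Finset (Fin t)),
      ((Matrix.of fun i l : Fin t => (Polynomial.derivative^[(i : ℕ)] (f l))) (σ i) i).natDegree ≤ D := by
    intro i _
    rw [Matrix.of_apply]
    exact ((Polynomial.natDegree_iterate_derivative (f i) (σ i)).trans (Nat.sub_le _ _)).trans (h i)
  refine (Finset.sum_le_card_nsmul _ _ D h1).trans ?_
  rw [Finset.card_univ, Fintype.card_fin, smul_eq_mul]

/-- coefficients above the degree vanish -/
theorem coeff_zero [Infinite k] {t : ℕ} (f g : Fin t → Polynomial k) (N : ℕ)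
    (P : k → Polynomial k) (hP : ∀ y, (P y).natDegree ≤ N)
    (h : ∀ x y, (P y).eval x = ∑ j, (f j).eval x * (g j).eval y)
    (hg : LinearIndependent k g) (l : Fin t) : (f l).natDegree ≤ N := by
  rw [Polynomial.natDegree_le_iff_coeff_eq_zero]
  intro e he
  have h1 : ∀ y, P y = ∑ j, Polynomial.C ((g j).eval y) * f j := by
    intro y
    refine Polynomial.funext fun x => ?_
    rw [h, Polynomial.eval_finset_sum]
    refine Finset.sum_congr rfl fun j _ => ?_
    rw [Polynomial.eval_mul, Polynomial.eval_C, mul_comm]
  have h2 : ∀ y, ∑ j, (g j).eval y * (f j).coeff e = 0 := by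
    intro y
    have h3 : (P y).coeff e = 0 := Polynomial.natDegree_le_iff_coeff_eq_zero.1 (hP y) e he
    rw [h1 y, Polynomial.finset_sum_coeff] at h3
    rw [← h3]
    refine Finset.sum_congr rfl fun j _ => ?_
    rw [Polynomial.coeff_C_mul]
  have h4 : ∑ j, (f j).coeff e • g j = 0 := by
    refine Polynomial.funext fun y => ?_
    rw [Polynomial.eval_finset_sum, Polynomial.eval_zero, ← h2 y]
    refine Finset.sum_congr rfl fun j _ => ?_
    rw [Polynomial.eval_smul, smul_eq_mul, mul_comm]
  exact Fintype.linearIndependent_iff.1 hg (fun j => (f j).coeff e) h4 l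

end DEXM

theorem specDEX : SpecDEX := by
  intro k _ _ t G f g hR
  have : Infinite k := CharZero.infinite k
  constructor
  · intro hg
    refine DEXM.natDegree_Wr_le f _ ?_
    refine DEXM.coeff_zero f g _ (fun y => aeval ![Polynomial.X, Polynomial.C y, 1] G) ?_ ?_ hg
    · intro y
      refine DEXM.natDegree_aeval_le _ _ _ fun d hd => ?_
      rw [Fin.sum_univ_three]
      simp only [Matrix.cons_val_zero, Matrix.cons_val_one, Matrix.cons_val, Polynomial.natDegree_X,
        Polynomial.natDegree_C, Polynomial.natDegree_one, mul_one, mul_zero, add_zero]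
      exact monomial_le_degreeOf 0 hd
    · intro x y
      rw [← hR x y]
      show (aeval ![Polynomial.X, Polynomial.C y, 1] G : Polynomial k).eval x = _
      rw [DEXM.eval_aeval]
      congr 2
      funext i
      fin_cases i <;> simp
  · intro hf
    refine DEXM.natDegree_Wr_le g _ ?_
    refine DEXM.coeff_zero g f _ (fun x => aeval ![Polynomial.C x, Polynomial.X, 1] G) ?_ ?_ hf
    · intro x
      refine DEXM.natDegree_aeval_le _ _ _ fun d hd => ?_
      rw [Fin.sum_univ_three]
      simp only [Matrix.cons_val_zero, Matrix.cons_val_one, Matrix.cons_val, Polynomial.natDegree_X,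
        Polynomial.natDegree_C, Polynomial.natDegree_one, mul_one, mul_zero, add_zero, zero_add]
      exact monomial_le_degreeOf 1 hd
    · intro y x
      have h := hR x y
      show (aeval ![Polynomial.C x, Polynomial.X, 1] G : Polynomial k).eval y = _
      rw [DEXM.eval_aeval]
      have h1 : (fun i => Polynomial.eval y ((![Polynomial.C x, Polynomial.X, 1] : Fin 3 → Polynomial k) i)) =
          ![x, y, 1] := by
        funext i
        fin_cases i <;> simp
      rw [h1, h]
      exact Finset.sum_congr rfl fun j _ => mul_comm _ _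

end Pool.Agent.Lib.MP387a85.TR
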