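import Pool.Agent.Lib.MP_387a85_ag.TR.SpecX

/-!
# DGX: the degrees of the Wronskians, with the exact constant
-/

set_option autoImplicit false

namespace Pool.Agent.Lib.MP387a85.TR

open MvPolynomial

namespace DGXM

variable {k : Type} [Field k]

lemma hom_zero (i : Fin 3) (H : MvPolynomial (Fin 3) k) (hH : H.IsHomogeneous 0) :
    pderiv i H = 0 := by
  have h1 : H.totalDegree = 0 := Nat.le_zero.1 hH.totalDegree_le
  rw [totalDegree_eq_zero_iff_eq_C] at h1
  rw [h1, pderiv_C]

lemma iter_hom (i : Fin 3) (n : ℕ) : ∀ (H : MvPolynomial (Fin 3) k) (e : ℕ),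
    H.IsHomogeneous e → (pderiv i)^[n] H = 0 ∨
      ∃ e', e' + n = e ∧ ((pderiv i)^[n] H).IsHomogeneous e' := by
  induction n with
  | zero => intro H e hH; exact Or.inr ⟨e, rfl, hH⟩
  | succ n ih =>
    intro H e hH
    rw [Function.iterate_succ_apply]
    rcases Nat.eq_zero_or_pos e with he | he
    · subst he
      left
      rw [hom_zero i H hH]
      exact Function.iterate_fixed (map_zero (pderiv (R := k) i)) n
    · rcases ih (pderiv i H) (e - 1) hH.pderiv with h | ⟨e', h1, h2⟩
      · exact Or.inl h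
      · exact Or.inr ⟨e', by omega, h2⟩

lemma dij_hom (G : MvPolynomial (Fin 3) k) (d i j : ℕ) (hG : G.IsHomogeneous d) :
    Dij G i j = 0 ∨ ∃ e, e + (i + j) = d ∧ (Dij G i j).IsHomogeneous e := by
  unfold Dij
  rcases iter_hom 0 i G d hG with h | ⟨e, he, h⟩
  · left
    rw [h]
    exact Function.iterate_fixed (map_zero (pderiv (R := k) 1)) j
  · rcases iter_hom 1 j _ e h with h' | ⟨e', he', h'⟩
    · exact Or.inl h'
    · exact Or.inr ⟨e', by omega, h'⟩

lemma deg_le (H : MvPolynomial (Fin 3) k) (e : ℕ) (hH : H.IsHomogeneous e) :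
    (aeval ![Polynomial.X, Polynomial.X, 1] H : Polynomial k).natDegree ≤ e := by
  rw [aeval_def, eval₂_eq']
  refine Polynomial.natDegree_sum_le_of_forall_le _ _ ?_
  intro α hα
  have h1 : ∀ i : Fin 3, (![Polynomial.X, Polynomial.X, 1] i : Polynomial k).natDegree ≤ 1 := by
    intro i
    fin_cases i
    · exact Polynomial.natDegree_X_le
    · exact Polynomial.natDegree_X_le
    · show (1 : Polynomial k).natDegree ≤ 1
      rw [Polynomial.natDegree_one]
      exact Nat.zero_le 1
  have h2 : α.degree = e := by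
    by_contra h
    exact (mem_support_iff.1 hα) (hH.coeff_eq_zero h)
  refine Polynomial.natDegree_mul_le.trans ?_
  have h3 : ((algebraMap k (Polynomial k)) (coeff α H)).natDegree = 0 :=
    Polynomial.natDegree_C _
  rw [h3, zero_add]
  refine (Polynomial.natDegree_prod_le _ _).trans ?_
  calc ∑ i, ((![Polynomial.X, Polynomial.X, 1] i : Polynomial k) ^ α i).natDegree
      ≤ ∑ i, α i := by
        refine Finset.sum_le_sum fun i _ => ?_
        refine Polynomial.natDegree_pow_le.trans ?_
        calc α i * (![Polynomial.X, Polynomial.X, 1] i : Polynomial k).natDegree ≤ α i * 1 :=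
              Nat.mul_le_mul_left _ (h1 i)
          _ = α i := mul_one _
    _ = e := by
        rw [← h2, Finsupp.degree_eq_sum]

lemma sum_perm {t : ℕ} (σ : Equiv.Perm (Fin t)) :
    ∑ i : Fin t, (((σ i : Fin t) : ℕ) + (i : ℕ)) = t * (t - 1) := by
  rw [Finset.sum_add_distrib, Equiv.sum_comp σ (fun i : Fin t => (i : ℕ)),
    Fin.sum_univ_eq_sum_range (fun i => i) t]
  have h := Finset.sum_range_id_mul_two t
  omega

lemma det_deg {t : ℕ} (M : Matrix (Fin t) (Fin t) (Polynomial k)) (d : ℕ)
    (h : ∀ i j, M i j = 0 ∨ (M i j).natDegree + ((i : ℕ) + j) ≤ d) (h0 : M.det ≠ 0) :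
    M.det.natDegree + t * (t - 1) ≤ t * d := by
  have hterm : ∀ σ : Equiv.Perm (Fin t), (∏ i, M (σ i) i) = 0 ∨
      (∏ i, M (σ i) i).natDegree + t * (t - 1) ≤ t * d := by
    intro σ
    by_cases hz : ∃ i, M (σ i) i = 0
    · obtain ⟨i, hi⟩ := hz
      exact Or.inl (Finset.prod_eq_zero (Finset.mem_univ i) hi)
    · right
      push Not at hz
      calc (∏ i, M (σ i) i).natDegree + t * (t - 1)
          ≤ ∑ i, (M (σ i) i).natDegree + ∑ i : Fin t, (((σ i : Fin t) : ℕ) + (i : ℕ)) :=
            Nat.add_le_add (Polynomial.natDegree_prod_le _ _) (sum_perm σ).ge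
        _ = ∑ i, ((M (σ i) i).natDegree + (((σ i : Fin t) : ℕ) + (i : ℕ))) :=
            (Finset.sum_add_distrib).symm
        _ ≤ ∑ _i : Fin t, d := Finset.sum_le_sum fun i _ => (h (σ i) i).resolve_left (hz i)
        _ = t * d := by simp
  have hex : t * (t - 1) ≤ t * d := by
    by_contra hcon
    apply h0
    rw [Matrix.det_apply]
    refine Finset.sum_eq_zero fun σ _ => ?_
    rcases hterm σ with h1 | h1
    · rw [h1, smul_zero]
    · omega
  have hle : M.det.natDegree ≤ t * d - t * (t - 1) := by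
    rw [Matrix.det_apply]
    refine Polynomial.natDegree_sum_le_of_forall_le _ _ ?_
    intro σ _
    refine (Polynomial.natDegree_smul_le _ _).trans ?_
    rcases hterm σ with h1 | h1
    · rw [h1, Polynomial.natDegree_zero]
      exact Nat.zero_le _
    · omega
  omega

end DGXM

open DGXM in
theorem specDGX (hKEY : SpecKEY) : SpecDGX := by
  intro k _ _ t G d f g hG hR hf hg
  have h1 := hKEY k t G f g hR Polynomial.X Polynomial.X
  rw [Polynomial.comp_X, Polynomial.comp_X] at h1
  rw [← Polynomial.natDegree_mul hf hg, ← h1]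
  refine det_deg _ d ?_ (h1 ▸ mul_ne_zero hf hg)
  intro i j
  rcases dij_hom G d i j hG with h | ⟨e, he, h⟩
  · left
    show (aeval ![Polynomial.X, Polynomial.X, 1] (Dij G i j) : Polynomial k) = 0
    rw [h, map_zero]
  · right
    have h2 := deg_le _ e h
    show (aeval ![Polynomial.X, Polynomial.X, 1] (Dij G i j) : Polynomial k).natDegree +
      ((i : ℕ) + j) ≤ d
    omega

end Pool.Agent.Lib.MP387a85.TR
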