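import Pool.Agent.Lib.MP_387a85_ag.TR.ASM

/-!
# MP_387a85_ag: curves of bounded tensor rank, the explicit bound (helper28)
-/

set_option autoImplicit false

namespace Pool.Agent.Lib.MP387a85.TR

open MvPolynomial

namespace EXPM

theorem sq_sum_le {r : ℕ} (e : Fin r → ℕ) (d K : ℕ) (hd : ∀ i, e i ≤ d) (hs : ∑ i, e i ≤ d + K) :
    ∑ i, e i ^ 2 ≤ d ^ 2 + K ^ 2 := by
  classical
  rcases Nat.eq_zero_or_pos r with hr | hr
  · subst hr
    simp
  have : Nonempty (Fin r) := ⟨⟨0, hr⟩⟩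
  obtain ⟨i0, -, hi0⟩ := Finset.exists_max_image Finset.univ e Finset.univ_nonempty
  set S := ∑ i ∈ Finset.univ.erase i0, e i with hS
  have h1 : e i0 + S = ∑ i, e i := Finset.add_sum_erase _ _ (Finset.mem_univ i0)
  have h2 : ∑ i, e i ^ 2 = e i0 ^ 2 + ∑ i ∈ Finset.univ.erase i0, e i ^ 2 :=
    (Finset.add_sum_erase _ (fun i => e i ^ 2) (Finset.mem_univ i0)).symm
  have h3 : ∑ i ∈ Finset.univ.erase i0, e i ^ 2 ≤ e i0 * S := by
    rw [hS, Finset.mul_sum]
    refine Finset.sum_le_sum fun i _ => ?_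
    rw [sq]
    exact Nat.mul_le_mul_right _ (hi0 i (Finset.mem_univ i))
  have h4 : ∑ i ∈ Finset.univ.erase i0, e i ^ 2 ≤ S * S := by
    rw [hS, Finset.mul_sum]
    refine Finset.sum_le_sum fun i hi => ?_
    rw [sq]
    exact Nat.mul_le_mul_right _ (Finset.single_le_sum (f := e) (fun _ _ => Nat.zero_le _) hi)
  have h5 := hd i0
  rw [h2]
  have h6 : e i0 + S ≤ d + K := h1 ▸ hs
  rcases le_total S (e i0) with h | h
  · have h7 : e i0 ^ 2 + S * S ≤ d ^ 2 + K ^ 2 := by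
      rcases le_total S K with h8 | h8
      · nlinarith
      · obtain ⟨x, hx⟩ := Nat.exists_eq_add_of_le h8
        have h9 : e i0 + x ≤ d := by omega
        obtain ⟨y, hy⟩ := Nat.exists_eq_add_of_le h9
        have h10 : K + x ≤ e i0 := hx ▸ h
        rw [hx, hy]
        nlinarith [Nat.mul_le_mul_right x h10]
    linarith
  · have h7 : e i0 ^ 2 + e i0 * S ≤ d ^ 2 + K ^ 2 := by
      have h8 : e i0 * (e i0 + S) ≤ e i0 * (d + K) := Nat.mul_le_mul_left _ h6
      have h9 : 2 * e i0 ≤ d + K := by omega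
      nlinarith [sq_nonneg ((d : ℤ) - K), Nat.mul_le_mul_right (d + K) h9]
    linarith

end EXPM

/-- the explicit bound -/
theorem main2 (hWRO : SpecWRO) (hRED : SpecRED) (hAFF : SpecAFF) (hDEG : SpecDEG)
    (hCOF : SpecCOF) (hSCL : SpecSCL) (r t : ℕ) (k : Type) [Field k] [CharZero k]
    (F : MvPolynomial (Fin 3) k) (d : ℕ) (hd : F.IsHomogeneous d) (hF : F ≠ 0)
    (M : Matrix (Fin 3) (Fin 3) k) (hM : M.det ≠ 0) (f g : Fin t → Polynomial k)
    (hR : ∀ x y : k, eval ![x, y, 1] (subst M F) = ∑ j, (f j).eval x * (g j).eval y)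
    (a b : Fin r → k) (ha : Function.Injective a) (hb : Function.Injective b) :
    -(4 * (r : ℤ) ^ 2 * (t : ℤ) ^ 2) ≤
      (d : ℤ) ^ 2 - ∑ l, (mult F (M.mulVec ![a l, b l, 1]) : ℤ) ^ 2 := by
  classical
  have hMu : IsUnit M.det := isUnit_iff_ne_zero.2 hM
  set G := subst M F with hG
  have hGd : G.IsHomogeneous d := by
    have h1 := hd.aeval (S := k) (τ := Fin 3) (n := 1) (fun i => ∑ j, C (M i j) * X j) ?_
    · rw [one_mul] at h1
      exact h1
    · intro i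
      refine IsHomogeneous.sum _ _ _ fun j _ => isHomogeneous_C_mul_X _ _
  have hG0 : G ≠ 0 := by
    intro h
    apply hF
    have h1 : subst M⁻¹ (subst M F) = F := by
      rw [subst_subst, Matrix.mul_nonsing_inv M hMu, subst_one]
    rw [← h1, ← hG, h, map_zero]
  obtain ⟨s, hs, f', g', hf', hg', hfg⟩ := hRED k t f g
  have hR' : Rep G f' g' := fun x y => by rw [hR x y, hfg x y]
  have hs0 : 0 < s := by
    rcases Nat.eq_zero_or_pos s with h0 | h0
    · exfalso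
      subst h0
      obtain ⟨γ, hγ⟩ := support_nonempty.2 hG0
      have := (hCOF k 0 G d f' g' hGd hR').2 γ hγ
      simp only [Finset.univ_eq_empty, Finset.sum_empty] at this
      exact (mem_support_iff.1 hγ) this.symm
    · exact h0
  have hWf := hWRO k s f' hf'
  have hWg := hWRO k s g' hg'
  have hbd : ∀ l s, F ∈ pt (M.mulVec ![a l, b l, 1]) ^ s → s ≤ d := fun l s h =>
    (hSCL k F d hd).2 hF _ s h
  set e : Fin r → ℕ := fun l => mult F (M.mulVec ![a l, b l, 1]) with he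
  have hmem : ∀ l, G ∈ pt ![a l, b l, 1] ^ e l := fun l =>
    subst_mem M _ F _ (le_mult (hbd l)).1
  have hed : ∀ l, e l ≤ d := fun l => (le_mult (hbd l)).2
  have h1 : ∀ l, s * e l ≤ (Wr f').rootMultiplicity (a l) + (Wr g').rootMultiplicity (b l) +
      2 * s ^ 2 := fun l => hAFF k s G f' g' hR' hWf hWg (a l) (b l) (e l) (hmem l)
  have h2 := ASMM.sum_root_le (Wr f') Finset.univ a (ha.injOn)
  have h3 := ASMM.sum_root_le (Wr g') Finset.univ b (hb.injOn)
  have h4 := hDEG k s G d f' g' hGd hR' hWf hWg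
  have h5 : s * ∑ l, e l ≤ s * (d + 2 * r * s) := by
    calc s * ∑ l, e l = ∑ l, s * e l := Finset.mul_sum _ _ _
      _ ≤ ∑ l, ((Wr f').rootMultiplicity (a l) + (Wr g').rootMultiplicity (b l) + 2 * s ^ 2) :=
          Finset.sum_le_sum fun l _ => h1 l
      _ = ∑ l, (Wr f').rootMultiplicity (a l) + ∑ l, (Wr g').rootMultiplicity (b l) +
          r * (2 * s ^ 2) := by
          rw [Finset.sum_add_distrib, Finset.sum_add_distrib, Finset.sum_const, Finset.card_univ,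
            Fintype.card_fin, smul_eq_mul]
      _ ≤ s * d + r * (2 * s ^ 2) := by omega
      _ = s * (d + 2 * r * s) := by ring
  have h6 : ∑ l, e l ≤ d + 2 * r * s := Nat.le_of_mul_le_mul_left h5 hs0
  have h7 := EXPM.sq_sum_le e d (2 * r * s) hed h6
  have h8 : (∑ l, (e l : ℤ) ^ 2) ≤ (d : ℤ) ^ 2 + (2 * r * s : ℤ) ^ 2 := by exact_mod_cast h7
  have h9 : (s : ℤ) ≤ t := by exact_mod_cast hs
  have h10 : (s : ℤ) ^ 2 ≤ (t : ℤ) ^ 2 := pow_le_pow_left₀ (Int.natCast_nonneg _) h9 2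
  have h11 : (0 : ℤ) ≤ 4 * (r : ℤ) ^ 2 := by positivity
  have h12 : (2 * r * s : ℤ) ^ 2 = 4 * (r : ℤ) ^ 2 * (s : ℤ) ^ 2 := by ring
  have h13 : 4 * (r : ℤ) ^ 2 * (s : ℤ) ^ 2 ≤ 4 * (r : ℤ) ^ 2 * (t : ℤ) ^ 2 :=
    mul_le_mul_of_nonneg_left h10 h11
  have h14 : (∑ l, (mult F (M.mulVec ![a l, b l, 1]) : ℤ) ^ 2) = ∑ l, (e l : ℤ) ^ 2 := rfl
  linarith

end Pool.Agent.Lib.MP387a85.TR
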