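import Pool.Agent.Lib.MP_387a85_ag.TR.SpecX
import Pool.Agent.Lib.MP_387a85_ag.TR.ASM

/-!
# MP_387a85_ag: curves of bounded tensor rank, the sharp explicit bound (helper28)
-/

set_option autoImplicit false

namespace Pool.Agent.Lib.MP387a85.TR

open MvPolynomial

namespace EXXM

theorem sq_sum_le {r : ℕ} (e u : Fin r → ℕ) (d s : ℕ) (hr : 1 ≤ r) (hs : 1 ≤ s)
    (h1 : ∀ l, s * e l ≤ u l + s * (s - 1)) (h2 : ∑ l, u l + s * (s - 1) ≤ s * d) :
    ∑ l, e l ^ 2 ≤ d ^ 2 + (r - 1) * (s - 1) ^ 2 := by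
  classical
  obtain ⟨q, rfl⟩ : ∃ q, s = q + 1 := ⟨s - 1, by omega⟩
  obtain ⟨p, rfl⟩ : ∃ p, r = p + 1 := ⟨r - 1, by omega⟩
  simp only [Nat.add_sub_cancel] at h1 h2 ⊢
  set U := ∑ l, u l with hU
  have h3 : ∑ l, u l ^ 2 ≤ U * U := by
    conv_rhs => rw [hU, Finset.sum_mul]
    refine Finset.sum_le_sum fun l _ => ?_
    rw [sq]
    exact Nat.mul_le_mul_left _ (Finset.single_le_sum (f := u) (fun _ _ => Nat.zero_le _)
      (Finset.mem_univ l))
  have h4 : (q + 1) ^ 2 * ∑ l, e l ^ 2 ≤ (q + 1) ^ 2 * (d ^ 2 + p * q ^ 2) := by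
    calc (q + 1) ^ 2 * ∑ l, e l ^ 2 = ∑ l, ((q + 1) * e l) ^ 2 := by
          rw [Finset.mul_sum]
          exact Finset.sum_congr rfl fun l _ => by ring
      _ ≤ ∑ l, (u l + (q + 1) * q) ^ 2 :=
          Finset.sum_le_sum fun l _ => Nat.pow_le_pow_left (h1 l) 2
      _ = ∑ l, (u l ^ 2 + 2 * ((q + 1) * q) * u l + ((q + 1) * q) ^ 2) :=
          Finset.sum_congr rfl fun l _ => by ring
      _ = ∑ l, u l ^ 2 + 2 * ((q + 1) * q) * U + (p + 1) * ((q + 1) * q) ^ 2 := by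
          rw [Finset.sum_add_distrib, Finset.sum_add_distrib, ← Finset.mul_sum, Finset.sum_const,
            Finset.card_univ, Fintype.card_fin, smul_eq_mul]
      _ ≤ U * U + 2 * ((q + 1) * q) * U + (p + 1) * ((q + 1) * q) ^ 2 := by omega
      _ = (U + (q + 1) * q) ^ 2 + p * ((q + 1) * q) ^ 2 := by ring
      _ ≤ ((q + 1) * d) ^ 2 + p * ((q + 1) * q) ^ 2 :=
          Nat.add_le_add_right (Nat.pow_le_pow_left h2 2) _
      _ = (q + 1) ^ 2 * (d ^ 2 + p * q ^ 2) := by ring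
  exact Nat.le_of_mul_le_mul_left h4 (by positivity)

end EXXM

/-- the sharp explicit bound -/
theorem main2X (hWRO : SpecWRO) (hRED : SpecRED) (hAFX : SpecAFX) (hDGX : SpecDGX)
    (hCOF : SpecCOF) (hSCL : SpecSCL) (r t : ℕ) (hr : 1 ≤ r) (k : Type) [Field k] [CharZero k]
    (F : MvPolynomial (Fin 3) k) (d : ℕ) (hd : F.IsHomogeneous d) (hF : F ≠ 0)
    (M : Matrix (Fin 3) (Fin 3) k) (hM : M.det ≠ 0) (f g : Fin t → Polynomial k)
    (hR : ∀ x y : k, eval ![x, y, 1] (subst M F) = ∑ j, (f j).eval x * (g j).eval y)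
    (a b : Fin r → k) (ha : Function.Injective a) (hb : Function.Injective b) :
    -(((r : ℤ) - 1) * ((t : ℤ) - 1) ^ 2) ≤
      (d : ℤ) ^ 2 - ∑ l, (mult F (M.mulVec ![a l, b l, 1]) : ℤ) ^ 2 := by
  classical
  have hMu : IsUnit M.det := isUnit_iff_ne_zero.2 hM
  set G := subst M F with hG
  have hGd : G.IsHomogeneous d := by
    have h1 := hd.aeval (S := k) (τ := Fin 3) (n := 1) (fun i => ∑ j, C (M i j) * X j) ?_
    · rw [one_mul] at h1
      exact h1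
    · intro i
      refine IsHomogeneous.sum _ _ _ fun j _ => isHomogeneous_C_mul_X _ _
  have hG0 : G ≠ 0 := by
    intro h
    apply hF
    have h1 : subst M⁻¹ (subst M F) = F := by
      rw [subst_subst, Matrix.mul_nonsing_inv M hMu, subst_one]
    rw [← h1, ← hG, h, map_zero]
  obtain ⟨s, hs, f', g', hf', hg', hfg⟩ := hRED k t f g
  have hR' : Rep G f' g' := fun x y => by rw [hR x y, hfg x y]
  have hs0 : 0 < s := by
    rcases Nat.eq_zero_or_pos s with h0 | h0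
    · exfalso
      subst h0
      obtain ⟨γ, hγ⟩ := support_nonempty.2 hG0
      have := (hCOF k 0 G d f' g' hGd hR').2 γ hγ
      simp only [Finset.univ_eq_empty, Finset.sum_empty] at this
      exact (mem_support_iff.1 hγ) this.symm
    · exact h0
  have hWf := hWRO k s f' hf'
  have hWg := hWRO k s g' hg'
  have hbd : ∀ l s, F ∈ pt (M.mulVec ![a l, b l, 1]) ^ s → s ≤ d := fun l s h =>
    (hSCL k F d hd).2 hF _ s h
  set e : Fin r → ℕ := fun l => mult F (M.mulVec ![a l, b l, 1]) with he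
  have hmem : ∀ l, G ∈ pt ![a l, b l, 1] ^ e l := fun l =>
    subst_mem M _ F _ (le_mult (hbd l)).1
  have hed : ∀ l, e l ≤ d := fun l => (le_mult (hbd l)).2
  have h1 : ∀ l, s * e l ≤ (Wr f').rootMultiplicity (a l) + (Wr g').rootMultiplicity (b l) +
      s * (s - 1) := fun l => hAFX k s G f' g' hR' hWf hWg (a l) (b l) (e l) (hmem l)
  have h2 := ASMM.sum_root_le (Wr f') Finset.univ a (ha.injOn)
  have h3 := ASMM.sum_root_le (Wr g') Finset.univ b (hb.injOn)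
  have h4 := hDGX k s G d f' g' hGd hR' hWf hWg
  have h5 := EXXM.sq_sum_le e (fun l => (Wr f').rootMultiplicity (a l) +
    (Wr g').rootMultiplicity (b l)) d s hr hs0 h1 (by
      rw [Finset.sum_add_distrib]
      omega)
  obtain ⟨q, hq⟩ : ∃ q, s = q + 1 := ⟨s - 1, by omega⟩
  obtain ⟨p, hp⟩ : ∃ p, r = p + 1 := ⟨r - 1, by omega⟩
  have h6 : (∑ l, (e l : ℤ) ^ 2) ≤ (d : ℤ) ^ 2 + (p : ℤ) * (q : ℤ) ^ 2 := by
    have h7 : ∑ l, e l ^ 2 ≤ d ^ 2 + p * q ^ 2 := by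
      have h8 : r - 1 = p := by omega
      have h9 : s - 1 = q := by omega
      rw [h8, h9] at h5
      exact h5
    exact_mod_cast h7
  have h10 : (r : ℤ) - 1 = p := by rw [hp]; push_cast; ring
  have h11 : (q : ℤ) ≤ (t : ℤ) - 1 := by
    have : q + 1 ≤ t := hq ▸ hs
    omega
  have h12 : (q : ℤ) ^ 2 ≤ ((t : ℤ) - 1) ^ 2 := pow_le_pow_left₀ (Int.natCast_nonneg _) h11 2
  have h13 : (p : ℤ) * (q : ℤ) ^ 2 ≤ (p : ℤ) * ((t : ℤ) - 1) ^ 2 :=
    mul_le_mul_of_nonneg_left h12 (Int.natCast_nonneg _)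
  have h14 : (∑ l, (mult F (M.mulVec ![a l, b l, 1]) : ℤ) ^ 2) = ∑ l, (e l : ℤ) ^ 2 := rfl
  rw [h10]
  linarith

end Pool.Agent.Lib.MP387a85.TR
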