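import Pool.Agent.Lib.MP_387a85_ag.TR.Spec

/-!
# INF: the multiplicity at the points at infinity which are not vertices
-/

set_option autoImplicit false

namespace Pool.Agent.Lib.MP387a85.TR

open MvPolynomial

theorem specINF (hCOF : SpecCOF) : SpecINF := by
  classical
  intro k _ _ t G d f g hG hR hX w hw2 hw0 hw1 s hs
  obtain ⟨hc1, hc2⟩ := hCOF k t G d f g hG hR
  have h1 := z_ne_zero 2 G hX
  have h2 := z_mem 2 G w hw2 s hs
  have hz : ∀ α ∈ (z 2 G).support, α 2 = 0 ∧ α ∈ G.support := by
    intro α hα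
    rw [mem_support_iff, coeff_z] at hα
    by_cases h0 : α 2 = 0
    · rw [if_pos h0] at hα
      exact ⟨h0, mem_support_iff.2 hα⟩
    · rw [if_neg h0] at hα
      exact absurd rfl hα
  have h3 : s < (z 2 G).support.card := by
    refine lt_card w s (z 2 G) h1 ?_ h2
    intro α hα i hi
    have : i = 2 := by
      fin_cases i
      · exact absurd hi hw0
      · exact absurd hi hw1
      · rfl
    rw [this]
    exact (hz α hα).1
  have hdeg : ∀ α ∈ (z 2 G).support, α 0 + α 1 = d := by
    intro α hα
    have h4 := hz α hα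
    have h5 : α.degree = d := by
      by_contra hne
      exact (mem_support_iff.1 h4.2) (hG.coeff_eq_zero hne)
    rw [Finsupp.degree_eq_sum, Fin.sum_univ_three, h4.1] at h5
    omega
  have hinj : ∀ α ∈ (z 2 G).support, ∀ β ∈ (z 2 G).support, α 0 = β 0 → α = β := by
    intro α hα β hβ h0
    have h4 := hdeg α hα
    have h5 := hdeg β hβ
    have h6 := (hz α hα).1
    have h7 := (hz β hβ).1
    ext i
    fin_cases i
    · exact h0
    · show α 1 = β 1
      omega
    · show α 2 = β 2
      omega
  have hli : LinearIndependent k (fun α : {α // α ∈ (z 2 G).support} =>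
      (fun l : Fin t => (f l).coeff ((α : Fin 3 →₀ ℕ) 0))) := by
    rw [Fintype.linearIndependent_iff]
    intro c hc
    by_contra hcon
    push Not at hcon
    obtain ⟨α₁, hα₁⟩ := hcon
    obtain ⟨α, hα, hmin⟩ := Finset.exists_min_image
      (Finset.univ.filter (fun α : {α // α ∈ (z 2 G).support} => c α ≠ 0))
      (fun α => (α : Fin 3 →₀ ℕ) 0) ⟨α₁, Finset.mem_filter.2 ⟨Finset.mem_univ _, hα₁⟩⟩
    have hcα := (Finset.mem_filter.1 hα).2
    have h4 : ∑ β : {α // α ∈ (z 2 G).support}, c β *
        ∑ l, (f l).coeff ((β : Fin 3 →₀ ℕ) 0) * (g l).coeff ((α : Fin 3 →₀ ℕ) 1) = 0 := by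
      have h5 : ∀ l : Fin t, ∑ β : {α // α ∈ (z 2 G).support},
          c β * (f l).coeff ((β : Fin 3 →₀ ℕ) 0) = 0 := by
        intro l
        have := congrFun hc l
        simpa [Finset.sum_apply, smul_eq_mul] using this
      simp only [Finset.mul_sum]
      rw [Finset.sum_comm]
      refine Finset.sum_eq_zero fun l _ => ?_
      rw [← zero_mul ((g l).coeff ((α : Fin 3 →₀ ℕ) 1)), ← h5 l, Finset.sum_mul]
      exact Finset.sum_congr rfl fun β _ => by ring
    rw [Finset.sum_eq_single α] at h4
    · rw [hc2 α (hz α α.2).2] at h4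
      rcases mul_eq_zero.1 h4 with h5 | h5
      · exact hcα h5
      · exact (mem_support_iff.1 (hz α α.2).2) h5
    · intro β _ hne
      by_cases hcβ : c β = 0
      · rw [hcβ, zero_mul]
      · have h5 := hmin β (Finset.mem_filter.2 ⟨Finset.mem_univ _, hcβ⟩)
        have h6 : (α : Fin 3 →₀ ℕ) 0 ≠ (β : Fin 3 →₀ ℕ) 0 := by
          intro h7
          exact hne (Subtype.ext (hinj _ β.2 _ α.2 h7.symm))
        rw [hc1, mul_zero]
        have := hdeg α α.2
        omega
    · intro h5
      exact absurd (Finset.mem_univ _) h5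
  have h4 := hli.fintype_card_le_finrank
  rw [Module.finrank_fin_fun, Fintype.card_coe] at h4
  omega

end Pool.Agent.Lib.MP387a85.TR
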