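import Pool.Agent.Lib.MP_387a85_ag.TR.Spec

/-!
# KEY: the factorisation of the determinant of the derivatives
-/

set_option autoImplicit false

namespace Pool.Agent.Lib.MP387a85.TR

open MvPolynomial

namespace KEYM

variable {k : Type} [Field k]

/-- `x ↦ x`, `y ↦ y`, `z ↦ 1` -/
noncomputable def th : MvPolynomial (Fin 3) k →ₐ[k] MvPolynomial (Fin 3) k := aeval ![X 0, X 1, 1]

theorem th_X0 : th (k := k) (X 0) = X 0 := by
  unfold th
  rw [aeval_X]
  rfl

theorem th_X1 : th (k := k) (X 1) = X 1 := by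
  unfold th
  rw [aeval_X]
  rfl

theorem th_X2 : th (k := k) (X 2) = 1 := by
  unfold th
  rw [aeval_X]
  rfl

theorem pderiv_th (a : Fin 3) (ha : a ≠ 2) (H : MvPolynomial (Fin 3) k) :
    pderiv a (th H) = th (pderiv a H) := by
  induction H using MvPolynomial.induction_on with
  | C c =>
    have h1 : th (k := k) (C c) = C c := by
      unfold th
      rw [aeval_C]
      rfl
    rw [h1, pderiv_C, map_zero]
  | add p q hp hq => rw [map_add, map_add, map_add, map_add, hp, hq]
  | mul_X p i hp =>
    rw [map_mul, pderiv_mul, pderiv_mul, map_add, map_mul, map_mul, hp]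
    congr 1
    congr 1
    fin_cases i
    · show pderiv a (th (X 0)) = th (pderiv a (X 0))
      rw [th_X0]
      by_cases h : a = 0
      · rw [h, pderiv_X_self, map_one]
      · rw [pderiv_X_of_ne (Ne.symm h), map_zero]
    · show pderiv a (th (X 1)) = th (pderiv a (X 1))
      rw [th_X1]
      by_cases h : a = 1
      · rw [h, pderiv_X_self, map_one]
      · rw [pderiv_X_of_ne (Ne.symm h), map_zero]
    · show pderiv a (th (X 2)) = th (pderiv a (X 2))
      rw [th_X2, pderiv_one, pderiv_X_of_ne (Ne.symm ha), map_zero]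

theorem iter_th (a : Fin 3) (ha : a ≠ 2) (n : ℕ) (H : MvPolynomial (Fin 3) k) :
    (pderiv a)^[n] (th H) = th ((pderiv a)^[n] H) := by
  induction n generalizing H with
  | zero => rfl
  | succ n ih => rw [Function.iterate_succ_apply, Function.iterate_succ_apply, pderiv_th a ha, ih]

theorem aeval_th (p q : Polynomial k) (H : MvPolynomial (Fin 3) k) :
    (aeval ![p, q, 1] (th H) : Polynomial k) = aeval ![p, q, 1] H := by
  have h : (aeval ![p, q, 1] : MvPolynomial (Fin 3) k →ₐ[k] Polynomial k).comp th = aeval ![p, q, 1] := by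
    apply MvPolynomial.algHom_ext
    intro i
    rw [AlgHom.comp_apply]
    fin_cases i
    · show aeval ![p, q, 1] (th (X 0)) = aeval ![p, q, 1] (X 0)
      rw [th_X0]
    · show aeval ![p, q, 1] (th (X 1)) = aeval ![p, q, 1] (X 1)
      rw [th_X1]
    · show aeval ![p, q, 1] (th (X 2)) = aeval ![p, q, 1] (X 2)
      rw [th_X2, map_one, aeval_X]
      rfl
  exact AlgHom.congr_fun h H

theorem eval_x0 (x : Fin 3 → k) (a : Fin 3) (f : Polynomial k) :
    eval x (Polynomial.aeval (X a : MvPolynomial (Fin 3) k) f) = f.eval (x a) := by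
  have h := Polynomial.aeval_algHom_apply (MvPolynomial.aeval x : MvPolynomial (Fin 3) k →ₐ[k] k) (X a) f
  rw [aeval_X] at h
  have h2 : (MvPolynomial.aeval x : MvPolynomial (Fin 3) k →ₐ[k] k)
      (Polynomial.aeval (X a : MvPolynomial (Fin 3) k) f) =
      eval x (Polynomial.aeval (X a : MvPolynomial (Fin 3) k) f) := rfl
  rw [← h2, ← h]
  rfl

theorem th_eq [CharZero k] {t : ℕ} (G : MvPolynomial (Fin 3) k) (f g : Fin t → Polynomial k)
    (h : Rep G f g) : th G = ∑ l, Polynomial.aeval (X 0 : MvPolynomial (Fin 3) k) (f l) *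
      Polynomial.aeval (X 1 : MvPolynomial (Fin 3) k) (g l) := by
  apply MvPolynomial.funext
  intro x
  rw [map_sum]
  simp_rw [map_mul, eval_x0]
  rw [← h (x 0) (x 1)]
  have h1 : (MvPolynomial.aeval x : MvPolynomial (Fin 3) k →ₐ[k] k).comp th =
      MvPolynomial.aeval ![x 0, x 1, 1] := by
    apply MvPolynomial.algHom_ext
    intro i
    rw [AlgHom.comp_apply]
    fin_cases i
    · show MvPolynomial.aeval x (th (X 0)) = MvPolynomial.aeval ![x 0, x 1, 1] (X 0)
      rw [th_X0, aeval_X, aeval_X]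
      rfl
    · show MvPolynomial.aeval x (th (X 1)) = MvPolynomial.aeval ![x 0, x 1, 1] (X 1)
      rw [th_X1, aeval_X, aeval_X]
      rfl
    · show MvPolynomial.aeval x (th (X 2)) = MvPolynomial.aeval ![x 0, x 1, 1] (X 2)
      rw [th_X2, map_one, aeval_X]
      rfl
  exact AlgHom.congr_fun h1 G

theorem pd_self (a : Fin 3) (f : Polynomial k) :
    pderiv a (Polynomial.aeval (X a : MvPolynomial (Fin 3) k) f) =
      Polynomial.aeval (X a : MvPolynomial (Fin 3) k) (Polynomial.derivative f) := by
  rw [Derivation.map_aeval, pderiv_X_self, smul_eq_mul, mul_one]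

theorem pd_ne (a b : Fin 3) (hab : b ≠ a) (f : Polynomial k) :
    pderiv a (Polynomial.aeval (X b : MvPolynomial (Fin 3) k) f) = 0 := by
  rw [Derivation.map_aeval, pderiv_X_of_ne hab, smul_zero]

theorem iter0 {t : ℕ} (f g : Fin t → Polynomial k) (n : ℕ) :
    (pderiv 0)^[n] (∑ l, Polynomial.aeval (X 0 : MvPolynomial (Fin 3) k) (f l) *
      Polynomial.aeval (X 1 : MvPolynomial (Fin 3) k) (g l)) =
      ∑ l, Polynomial.aeval (X 0 : MvPolynomial (Fin 3) k) (Polynomial.derivative^[n] (f l)) *
        Polynomial.aeval (X 1 : MvPolynomial (Fin 3) k) (g l) := by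
  induction n generalizing f with
  | zero => rfl
  | succ n ih =>
    rw [Function.iterate_succ_apply, map_sum]
    have h1 : ∀ l, pderiv 0 (Polynomial.aeval (X 0 : MvPolynomial (Fin 3) k) (f l) *
        Polynomial.aeval (X 1 : MvPolynomial (Fin 3) k) (g l)) =
        Polynomial.aeval (X 0 : MvPolynomial (Fin 3) k) (Polynomial.derivative (f l)) *
        Polynomial.aeval (X 1 : MvPolynomial (Fin 3) k) (g l) := by
      intro l
      rw [pderiv_mul, pd_self, pd_ne 0 1 (by decide), mul_zero, add_zero]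
    simp_rw [h1]
    rw [ih (fun l => Polynomial.derivative (f l))]
    rfl

theorem iter1 {t : ℕ} (f g : Fin t → Polynomial k) (n : ℕ) :
    (pderiv 1)^[n] (∑ l, Polynomial.aeval (X 0 : MvPolynomial (Fin 3) k) (f l) *
      Polynomial.aeval (X 1 : MvPolynomial (Fin 3) k) (g l)) =
      ∑ l, Polynomial.aeval (X 0 : MvPolynomial (Fin 3) k) (f l) *
        Polynomial.aeval (X 1 : MvPolynomial (Fin 3) k) (Polynomial.derivative^[n] (g l)) := by
  induction n generalizing g with
  | zero => rfl
  | succ n ih =>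
    rw [Function.iterate_succ_apply, map_sum]
    have h1 : ∀ l, pderiv 1 (Polynomial.aeval (X 0 : MvPolynomial (Fin 3) k) (f l) *
        Polynomial.aeval (X 1 : MvPolynomial (Fin 3) k) (g l)) =
        Polynomial.aeval (X 0 : MvPolynomial (Fin 3) k) (f l) *
        Polynomial.aeval (X 1 : MvPolynomial (Fin 3) k) (Polynomial.derivative (g l)) := by
      intro l
      rw [pderiv_mul, pd_self, pd_ne 1 0 (by decide), zero_mul, zero_add]
    simp_rw [h1]
    rw [ih (fun l => Polynomial.derivative (g l))]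
    rfl

theorem comp0 (p q : Polynomial k) (f : Polynomial k) :
    (aeval ![p, q, 1] (Polynomial.aeval (X 0 : MvPolynomial (Fin 3) k) f) : Polynomial k) = f.comp p := by
  have h := Polynomial.aeval_algHom_apply
    (aeval ![p, q, 1] : MvPolynomial (Fin 3) k →ₐ[k] Polynomial k) (X 0) f
  rw [aeval_X] at h
  rw [← h]
  rfl

theorem comp1 (p q : Polynomial k) (f : Polynomial k) :
    (aeval ![p, q, 1] (Polynomial.aeval (X 1 : MvPolynomial (Fin 3) k) f) : Polynomial k) = f.comp q := by
  have h := Polynomial.aeval_algHom_apply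
    (aeval ![p, q, 1] : MvPolynomial (Fin 3) k →ₐ[k] Polynomial k) (X 1) f
  rw [aeval_X] at h
  rw [← h]
  rfl

theorem wr_comp {t : ℕ} (f : Fin t → Polynomial k) (p : Polynomial k) :
    (Wr f).comp p = (Matrix.of fun i l : Fin t => (Polynomial.derivative^[(i : ℕ)] (f l)).comp p).det := by
  have h1 : (Wr f).comp p = Polynomial.compRingHom p (Wr f) := rfl
  rw [h1]
  unfold Wr
  rw [RingHom.map_det]
  rfl

end KEYM

open KEYM in
theorem specKEY : SpecKEY := by
  intro k _ _ t G f g h p q
  rw [wr_comp, wr_comp, ← Matrix.det_transpose (Matrix.of fun i l : Fin t =>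
    (Polynomial.derivative^[(i : ℕ)] (g l)).comp q), ← Matrix.det_mul]
  congr 1
  ext1 i j
  rw [Matrix.of_apply, Matrix.mul_apply]
  have h1 : (aeval ![p, q, 1] (Dij G i j) : Polynomial k) = aeval ![p, q, 1] (th (Dij G i j)) :=
    (aeval_th p q _).symm
  rw [h1]
  unfold Dij
  rw [← iter_th 1 (by decide), ← iter_th 0 (by decide), th_eq G f g h, iter0, iter1, map_sum]
  refine Finset.sum_congr rfl fun l _ => ?_
  rw [map_mul, comp0, comp1]
  rfl

end Pool.Agent.Lib.MP387a85.TR
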