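import Pool.Agent.Lib.MP_387a85_ag.TR.Spec

/-!
Module LIN: an irreducible form divisible by one of the linear forms has degree one.
-/

set_option autoImplicit false

namespace Pool.Agent.Lib.MP387a85.TR

open MvPolynomial

namespace LINM

lemma core {k : Type} [Field k] (G l : MvPolynomial (Fin 3) k) (d : ℕ) (hG : G.IsHomogeneous d)
    (hI : Irreducible G) (hd : d ≠ 1) (hl : l.IsHomogeneous 1) : ¬ l ∣ G := by
  rintro ⟨u, hu⟩
  have hnu : ¬ IsUnit l := by
    intro h
    have h1 := h.map (constantCoeff : MvPolynomial (Fin 3) k →+* k)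
    have h2 : coeff 0 l = 0 := hl.coeff_eq_zero (by simp)
    rw [constantCoeff_eq, h2] at h1
    exact not_isUnit_zero h1
  rcases hI.isUnit_or_isUnit hu with h | h
  · exact hnu h
  · obtain ⟨c, hc, rfl⟩ := MvPolynomial.isUnit_iff_eq_C_of_isReduced.mp h
    have h3 : G.IsHomogeneous (1 + 0) := by
      rw [hu]
      exact hl.mul (isHomogeneous_C _ c)
    exact hd (hG.inj_right h3 hI.ne_zero)

lemma hom2 {k : Type} [Field k] (i : Fin 3) (a : k) :
    (X i - C a * X 2 : MvPolynomial (Fin 3) k).IsHomogeneous 1 := by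
  have h1 : (C a * X 2 : MvPolynomial (Fin 3) k).IsHomogeneous (0 + 1) :=
    (isHomogeneous_C _ a).mul (isHomogeneous_X k 2)
  exact (isHomogeneous_X k i).sub h1

end LINM

/-- LIN. -/
theorem specLIN : SpecLIN := by
  intro k _ _ G d hG hI hd
  exact ⟨LINM.core G _ d hG hI hd (isHomogeneous_X k 2),
    fun a => LINM.core G _ d hG hI hd (LINM.hom2 0 a),
    fun a => LINM.core G _ d hG hI hd (LINM.hom2 1 a)⟩

end Pool.Agent.Lib.MP387a85.TR
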