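import Pool.Agent.Lib.MP_387a85_ag.TR.Spec

/-!
# Module LOD: points on a vertical or horizontal line
-/

set_option autoImplicit false

namespace Pool.Agent.Lib.MP387a85.TR

open MvPolynomial

namespace LODM

variable {k : Type} [Field k]

lemma eval_smul_hom {G : MvPolynomial (Fin 3) k} {d : ℕ} (hG : G.IsHomogeneous d) (c : k)
    (v : Fin 3 → k) : eval (fun j => c * v j) G = c ^ d * eval v G := by
  rw [eval_eq', eval_eq', Finset.mul_sum]
  refine Finset.sum_congr rfl fun α hα => ?_
  have h1 := hG (mem_support_iff.1 hα)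
  rw [Finsupp.weight_apply, Finsupp.sum_fintype _ _ (by simp)] at h1
  simp only [Pi.one_apply, smul_eq_mul, mul_one] at h1
  simp only [mul_pow, Finset.prod_mul_distrib, Finset.prod_pow_eq_pow_sum]
  rw [h1]
  ring

lemma eval_aeval (w : Fin 3 → Polynomial k) (G : MvPolynomial (Fin 3) k) (b : k) :
    (aeval w G : Polynomial k).eval b = eval (fun j => (w j).eval b) G := by
  induction G using MvPolynomial.induction_on with
  | C c => simp
  | add p q hp hq => rw [map_add, Polynomial.eval_add, hp, hq, map_add]
  | mul_X p j hp => rw [map_mul, Polynomial.eval_mul, hp, aeval_X, map_mul, eval_X]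

lemma eval_aeval' (u : Fin 3 → MvPolynomial (Fin 3) k) (G : MvPolynomial (Fin 3) k)
    (x : Fin 3 → k) :
    eval x (aeval u G) = eval (fun j => eval x (u j)) G := by
  induction G using MvPolynomial.induction_on with
  | C c => simp
  | add p q hp hq => rw [map_add, map_add, hp, hq, map_add]
  | mul_X p j hp => rw [map_mul, map_mul, hp, aeval_X, map_mul, eval_X]

lemma dvd_pow (w : Fin 3 → Polynomial k) (v : Fin 3 → k) (b : k) (hv : ∀ j, (w j).eval b = v j)
    (G : MvPolynomial (Fin 3) k) (s : ℕ) (h : G ∈ pt v ^ s) :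
    (Polynomial.X - Polynomial.C b) ^ s ∣ (aeval w G : Polynomial k) := by
  have h1 : pt v ≤ (Ideal.span {Polynomial.X - Polynomial.C b}).comap
      ((aeval w : MvPolynomial (Fin 3) k →ₐ[k] Polynomial k) :
        MvPolynomial (Fin 3) k →+* Polynomial k) := by
    intro H hH
    rw [Ideal.mem_comap, Ideal.mem_span_singleton, Polynomial.dvd_iff_isRoot,
      Polynomial.IsRoot.def]
    have h2 := eval_aeval w H b
    rw [mem_pt] at hH
    have h3 : (fun j => (w j).eval b) = v := funext hv
    rw [h3, hH] at h2
    exact h2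
  have h2 := Ideal.pow_right_mono h1 s h
  have h3 := Ideal.le_comap_pow _ s h2
  rw [Ideal.mem_comap, Ideal.span_singleton_pow, Ideal.mem_span_singleton] at h3
  exact h3

lemma sum_le (R : Polynomial k) (hR : R ≠ 0) {r : ℕ} (I : Finset (Fin r)) (b : Fin r → k)
    (s : Fin r → ℕ) (hb : Set.InjOn b I)
    (h : ∀ i ∈ I, (Polynomial.X - Polynomial.C (b i)) ^ s i ∣ R) :
    ∑ i ∈ I, s i ≤ R.natDegree := by
  have h1 : ∏ i ∈ I, (Polynomial.X - Polynomial.C (b i)) ^ s i ∣ R := by
    apply Finset.prod_dvd_of_coprime _ h
    intro i hi j hj hij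
    have hne : b i ≠ b j := fun e => hij (hb hi hj e)
    exact (Polynomial.isCoprime_X_sub_C_of_isUnit_sub (sub_ne_zero.2 hne).isUnit).pow
  have h2 := Polynomial.natDegree_le_of_dvd h1 hR
  rw [Polynomial.natDegree_prod_of_monic _ _
    (fun i _ => (Polynomial.monic_X_sub_C (b i)).pow (s i))] at h2
  have h3 : ∀ i ∈ I, ((Polynomial.X - Polynomial.C (b i)) ^ s i).natDegree = s i := by
    intro i _
    rw [Polynomial.natDegree_pow, Polynomial.natDegree_X_sub_C, mul_one]
  rwa [Finset.sum_congr rfl h3] at h2

lemma natDegree_le (w : Fin 3 → Polynomial k) (f : Fin 3)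
    (hw : ∀ j, j ≠ f → (w j).natDegree = 0) (hf : (w f).natDegree ≤ 1)
    (G : MvPolynomial (Fin 3) k) : (aeval w G : Polynomial k).natDegree ≤ degreeOf f G := by
  rw [aeval_def, eval₂_eq']
  refine Polynomial.natDegree_sum_le_of_forall_le _ _ fun α hα => ?_
  refine (Polynomial.natDegree_mul_le).trans ?_
  have h1 : (algebraMap k (Polynomial k) (coeff α G)).natDegree = 0 := by
    rw [Polynomial.algebraMap_eq]
    exact Polynomial.natDegree_C _
  have h2 : (∏ i, w i ^ α i).natDegree ≤ α f := by
    refine (Polynomial.natDegree_prod_le _ _).trans ?_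
    refine le_trans (Finset.sum_le_sum (g := fun i => if i = f then α f else 0) ?_) ?_
    · intro i _
      by_cases hi : i = f
      · subst hi
        rw [if_pos rfl]
        refine Polynomial.natDegree_pow_le.trans ?_
        calc α i * (w i).natDegree ≤ α i * 1 := Nat.mul_le_mul_left _ hf
          _ = α i := mul_one _
      · rw [if_neg hi]
        refine Polynomial.natDegree_pow_le.trans ?_
        rw [hw i hi, mul_zero]
    · rw [Finset.sum_ite_eq' Finset.univ f (fun _ => α f)]
      simp
  have h3 : α f ≤ degreeOf f G := monomial_le_degreeOf f hα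
  omega

lemma dvd_of_zero [CharZero k] {G : MvPolynomial (Fin 3) k} {d : ℕ} (hG : G.IsHomogeneous d)
    (e f : Fin 3) (hfe : f ≠ e) (he2 : 2 ≠ e) (hall : ∀ j, j = e ∨ j = f ∨ j = 2) (a : k)
    (w : Fin 3 → Polynomial k) (we : w e = Polynomial.C a) (wf : w f = Polynomial.X)
    (w2 : w 2 = 1) (h0 : (aeval w G : Polynomial k) = 0) :
    (X e - C a * X 2 : MvPolynomial (Fin 3) k) ∣ G := by
  have : Infinite k := CharZero.infinite k
  set u : Fin 3 → MvPolynomial (Fin 3) k := Function.update X e (C a * X 2) with hu
  have ue : u e = C a * X 2 := by simp [hu]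
  have uj : ∀ j, j ≠ e → u j = X j := by intro j hj; simp [hu, hj]
  have h1 : ∀ H : MvPolynomial (Fin 3) k,
      (X e - C a * X 2 : MvPolynomial (Fin 3) k) ∣ H - aeval u H := by
    intro H
    induction H using MvPolynomial.induction_on with
    | C c => simp
    | add p q hp hq =>
      have e1 : p + q - aeval u (p + q) = (p - aeval u p) + (q - aeval u q) := by
        rw [map_add]; ring
      rw [e1]
      exact dvd_add hp hq
    | mul_X p j hp =>
      have e1 : p * X j - aeval u (p * X j) =
          (p - aeval u p) * X j + aeval u p * (X j - u j) := by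
        rw [map_mul, aeval_X]; ring
      rw [e1]
      refine dvd_add (Dvd.dvd.mul_right hp _) (Dvd.dvd.mul_left ?_ _)
      by_cases hj : j = e
      · subst hj; rw [ue]
      · rw [uj j hj, sub_self]; exact dvd_zero _
  have h2 : X 2 * aeval u G = (0 : MvPolynomial (Fin 3) k) := by
    apply MvPolynomial.funext
    intro x
    rw [map_mul, eval_X, map_zero]
    by_cases hx : x 2 = 0
    · rw [hx, zero_mul]
    · have h3 : eval x (aeval u G) = eval (fun j => x 2 * (w j).eval (x f / x 2)) G := by
        rw [eval_aeval']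
        have h4 : (fun j => eval x (u j)) = fun j => x 2 * (w j).eval (x f / x 2) := by
          funext j
          rcases hall j with rfl | rfl | rfl
          · rw [ue, we, map_mul, eval_C, eval_X, Polynomial.eval_C, mul_comm]
          · rw [uj _ hfe, wf, eval_X, Polynomial.eval_X]
            field_simp
          · rw [uj _ he2, w2, eval_X, Polynomial.eval_one, mul_one]
        rw [h4]
      rw [h3, eval_smul_hom hG, ← eval_aeval, h0]
      simp
  have h5 : aeval u G = 0 := by
    rcases mul_eq_zero.1 h2 with h | h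
    · exact absurd h (X_ne_zero 2)
    · exact h
  have h6 := h1 G
  rwa [h5, sub_zero] at h6

end LODM

open LODM in
theorem specLOD : SpecLOD := by
  intro k _ _ G d r hG a I b s hb
  constructor
  · intro hnd hmem
    set w : Fin 3 → Polynomial k := ![Polynomial.C a, Polynomial.X, 1] with hw
    have hR : (aeval w G : Polynomial k) ≠ 0 := by
      intro h0
      exact hnd (dvd_of_zero hG 0 1 (by decide) (by decide) (by decide) a w rfl rfl rfl h0)
    refine (sum_le _ hR I b s hb ?_).trans (natDegree_le w 1 ?_ ?_ G)
    · intro i hi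
      refine dvd_pow w ![a, b i, 1] (b i) ?_ G (s i) (hmem i hi)
      intro j
      fin_cases j <;> simp [hw]
    · intro j hj
      fin_cases j
      · simp [hw]
      · exact absurd rfl hj
      · simp [hw]
    · simp [hw]
  · intro hnd hmem
    set w : Fin 3 → Polynomial k := ![Polynomial.X, Polynomial.C a, 1] with hw
    have hR : (aeval w G : Polynomial k) ≠ 0 := by
      intro h0
      exact hnd (dvd_of_zero hG 1 0 (by decide) (by decide) (by decide) a w rfl rfl rfl h0)
    refine (sum_le _ hR I b s hb ?_).trans (natDegree_le w 0 ?_ ?_ G)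
    · intro i hi
      refine dvd_pow w ![b i, a, 1] (b i) ?_ G (s i) (hmem i hi)
      intro j
      fin_cases j <;> simp [hw]
    · intro j hj
      fin_cases j
      · exact absurd rfl hj
      · simp [hw]
      · simp [hw]
    · simp [hw]

end Pool.Agent.Lib.MP387a85.TR
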