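import Pool.Agent.Lib.MP_387a85_ag.TR.Spec

set_option autoImplicit false

namespace Pool.Agent.Lib.MP387a85.TR

namespace REDM

open Polynomial

variable {k : Type} [Field k]

lemma short : ∀ (n : ℕ) (f g : Fin n → Polynomial k), ¬ LinearIndependent k f →
    ∃ m, m < n ∧ ∃ f' g' : Fin m → Polynomial k, ∀ x y : k,
      ∑ j, (f' j).eval x * (g' j).eval y = ∑ j, (f j).eval x * (g j).eval y := by
  intro n f g h
  rw [Fintype.not_linearIndependent_iff] at h
  obtain ⟨c, hc, j, hj⟩ := h
  cases n with
  | zero => exact j.elim0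
  | succ s =>
    refine ⟨s, Nat.lt_succ_self s, fun l => f (j.succAbove l),
      fun l => g (j.succAbove l) - C (c (j.succAbove l) / c j) * g j, ?_⟩
    intro x y
    rw [Fin.sum_univ_succAbove _ j]
    rw [Fin.sum_univ_succAbove _ j] at hc
    have hx := congrArg (Polynomial.eval x) hc
    simp only [eval_add, eval_finsetSum, eval_smul, smul_eq_mul, eval_zero] at hx
    simp only [eval_sub, eval_mul, eval_C, mul_sub, Finset.sum_sub_distrib]
    have h1 : ∑ l, eval x (f (j.succAbove l)) * (c (j.succAbove l) / c j * eval y (g j)) =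
        (∑ l, c (j.succAbove l) * eval x (f (j.succAbove l))) * (eval y (g j) / c j) := by
      rw [Finset.sum_mul]
      apply Finset.sum_congr rfl
      intro l _
      ring
    have h2 : ∑ l, c (j.succAbove l) * eval x (f (j.succAbove l)) = - (c j * eval x (f j)) := by
      linear_combination hx
    rw [h1, h2]
    field_simp
    ring

end REDM

theorem specRED : SpecRED := by
  classical
  intro k _ t f g
  have hex : ∃ n, ∃ f' g' : Fin n → Polynomial k, ∀ x y : k,
      ∑ j, (f' j).eval x * (g' j).eval y = ∑ j, (f j).eval x * (g j).eval y :=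
    ⟨t, f, g, fun _ _ => rfl⟩
  obtain ⟨f', g', h'⟩ := Nat.find_spec hex
  refine ⟨Nat.find hex, Nat.find_min' hex ⟨f, g, fun _ _ => rfl⟩, f', g', ?_, ?_, h'⟩
  · by_contra hf
    obtain ⟨m, hm, f2, g2, h2⟩ := REDM.short _ f' g' hf
    exact Nat.find_min hex hm ⟨f2, g2, fun x y => (h2 x y).trans (h' x y)⟩
  · by_contra hg
    obtain ⟨m, hm, g2, f2, h2⟩ := REDM.short _ g' f' hg
    refine Nat.find_min hex hm ⟨f2, g2, fun x y => ?_⟩
    rw [← h' x y]
    have h3 := h2 y x
    simp only [mul_comm] at h3 ⊢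
    exact h3

end Pool.Agent.Lib.MP387a85.TR
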