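import Pool.Agent.Lib.MP_387a85_ag.TR.Spec

/-! MP_387a85_ag, module SCL: scaling; the multiplicity is at most the degree. -/

set_option autoImplicit false

namespace Pool.Agent.Lib.MP387a85.TR

open MvPolynomial

namespace SCLM

variable {k : Type} [Field k]

theorem deg {G : MvPolynomial (Fin 3) k} {d : ℕ} (hd : G.IsHomogeneous d) {α : Fin 3 →₀ ℕ}
    (hα : α ∈ G.support) : α 0 + α 1 + α 2 = d := by
  have h1 : α.degree = d := by
    by_contra hne
    exact (mem_support_iff.1 hα) (hd.coeff_eq_zero hne)
  rw [← h1, Finsupp.degree_eq_sum, Fin.sum_univ_three]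

theorem subst_smul {G : MvPolynomial (Fin 3) k} {d : ℕ} (hd : G.IsHomogeneous d) (c : k) :
    subst (c • (1 : Matrix (Fin 3) (Fin 3) k)) G = C (c ^ d) * G := by
  have h1 : subst (c • (1 : Matrix (Fin 3) (Fin 3) k)) = aeval fun i => C c * X i := by
    apply MvPolynomial.algHom_ext
    intro i
    simp only [subst, aeval_X]
    rw [Finset.sum_eq_single i]
    · rw [Matrix.smul_apply, Matrix.one_apply_eq, smul_eq_mul, mul_one]
    · intro j _ hj
      rw [Matrix.smul_apply, Matrix.one_apply_ne (Ne.symm hj), smul_zero, map_zero, zero_mul]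
    · intro h
      exact absurd (Finset.mem_univ i) h
  rw [h1]
  conv_lhs => rw [G.as_sum]
  conv_rhs => rw [G.as_sum]
  rw [map_sum, Finset.mul_sum]
  refine Finset.sum_congr rfl fun α hα => ?_
  rw [aeval_monomial, monomial_eq, Finsupp.prod_fintype _ _ (fun i => pow_zero _),
    Finsupp.prod_fintype _ _ (fun i => pow_zero _), Fin.prod_univ_three, Fin.prod_univ_three,
    ← deg hd hα, map_pow, MvPolynomial.algebraMap_eq]
  ring

end SCLM

open SCLM in
theorem specSCL : SpecSCL := by
  intro k _ _ G d hd
  refine ⟨?_, ?_⟩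
  · intro c v s hc h
    have h1 : (c • (1 : Matrix (Fin 3) (Fin 3) k)).mulVec v = c • v := by
      rw [Matrix.smul_mulVec, Matrix.one_mulVec]
    rw [← h1] at h
    have h2 := subst_mem _ v G s h
    rw [subst_smul hd] at h2
    have h3 := Ideal.mul_mem_left (pt v ^ s) (C ((c ^ d)⁻¹)) h2
    rwa [← mul_assoc, ← map_mul, inv_mul_cancel₀ (pow_ne_zero d hc), map_one, one_mul] at h3
  · intro hG v s
    induction d generalizing G s with
    | zero =>
      intro h
      by_contra hs
      have h1 : G ∈ pt v := by
        have := Ideal.pow_le_pow_right (show 1 ≤ s by omega) h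
        rwa [pow_one] at this
      have h2 : G = C (coeff 0 G) :=
        totalDegree_eq_zero_iff_eq_C.1 (Nat.le_zero.1 hd.totalDegree_le)
      rw [mem_pt, h2, eval_C] at h1
      apply hG
      rw [h2, h1, map_zero]
    | succ d ih =>
      intro h
      cases s with
      | zero => exact Nat.zero_le _
      | succ s =>
        obtain ⟨i, hi⟩ : ∃ i, pderiv i G ≠ 0 := by
          by_contra hcon
          push Not at hcon
          have h1 := hd.sum_X_mul_pderiv
          rw [Finset.sum_eq_zero (fun i _ => by rw [hcon i, mul_zero]), nsmul_eq_mul] at h1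
          have h2 : ((d + 1 : ℕ) : MvPolynomial (Fin 3) k) ≠ 0 := Nat.cast_ne_zero.2 (by omega)
          exact (mul_ne_zero h2 hG) h1.symm
        have h3 := ih (G := pderiv i G) (s := s) hd.pderiv hi (deriv_mem (pderiv i) _ s G h)
        omega

end Pool.Agent.Lib.MP387a85.TR
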