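import Pool.Agent.Lib.MP_387a85_ag.TR.SpecX

/-!
# MP_387a85_ag: curves of bounded tensor rank, sharpness (helper28)
-/

set_option autoImplicit false

namespace Pool.Agent.Lib.MP387a85.TR

open MvPolynomial

/-- equality in the explicit bound: `(x - y)^(t-1)` -/
theorem sharp (hSCL : SpecSCL) (r t : ℕ) (k : Type) [Field k] [CharZero k] (_ : 1 ≤ r) (ht : 1 ≤ t) :
    ∃ (F : MvPolynomial (Fin 3) k) (d : ℕ) (M : Matrix (Fin 3) (Fin 3) k)
      (f g : Fin t → Polynomial k) (a b : Fin r → k),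
      F.IsHomogeneous d ∧ F ≠ 0 ∧ M.det ≠ 0 ∧
      (∀ x y : k, eval ![x, y, 1] (subst M F) = ∑ j, (f j).eval x * (g j).eval y) ∧
      Function.Injective a ∧ Function.Injective b ∧
      (d : ℤ) ^ 2 - ∑ l, (mult F (M.mulVec ![a l, b l, 1]) : ℤ) ^ 2 =
        -(((r : ℤ) - 1) * ((t : ℤ) - 1) ^ 2) := by
  obtain ⟨q, rfl⟩ : ∃ q, t = q + 1 := ⟨t - 1, by omega⟩
  have hhom : ((X 0 - X 1 : MvPolynomial (Fin 3) k) ^ q).IsHomogeneous q := by
    have h := ((isHomogeneous_X k (0 : Fin 3)).sub (isHomogeneous_X k (1 : Fin 3))).pow q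
    rwa [one_mul] at h
  have hne : (X 0 - X 1 : MvPolynomial (Fin 3) k) ^ q ≠ 0 := by
    apply pow_ne_zero
    intro h
    have h1 := congrArg (eval ![(1 : k), 0, 0]) h
    simp at h1
  refine ⟨(X 0 - X 1) ^ q, q, 1, fun j => Polynomial.X ^ (j : ℕ),
    fun j => Polynomial.C ((q.choose (j : ℕ) : ℕ) : k) * (-Polynomial.X) ^ (q - (j : ℕ)),
    fun l => ((l : ℕ) : k), fun l => ((l : ℕ) : k), hhom, hne, ?_, ?_, ?_, ?_, ?_⟩
  · rw [Matrix.det_one]
    exact one_ne_zero
  · intro x y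
    rw [subst_one, map_pow, map_sub, eval_X, eval_X]
    show (x - y) ^ q = _
    rw [sub_eq_add_neg, add_pow, Finset.sum_range]
    refine Finset.sum_congr rfl fun j _ => ?_
    simp only [Polynomial.eval_pow, Polynomial.eval_X, Polynomial.eval_mul, Polynomial.eval_C,
      Polynomial.eval_neg]
    ring
  · intro l l' h
    exact Fin.ext (Nat.cast_injective (R := k) h)
  · intro l l' h
    exact Fin.ext (Nat.cast_injective (R := k) h)
  · have hm : ∀ l : Fin r, mult ((X 0 - X 1 : MvPolynomial (Fin 3) k) ^ q)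
        ((1 : Matrix (Fin 3) (Fin 3) k).mulVec ![((l : ℕ) : k), ((l : ℕ) : k), 1]) = q := by
      intro l
      rw [Matrix.one_mulVec]
      have hb : ∀ s, (X 0 - X 1 : MvPolynomial (Fin 3) k) ^ q ∈
          pt ![((l : ℕ) : k), ((l : ℕ) : k), 1] ^ s → s ≤ q := fun s h =>
        (hSCL k _ q hhom).2 hne _ s h
      refine le_antisymm (le_mult hb).2 ?_
      have h1 : (X 0 - X 1 : MvPolynomial (Fin 3) k) ^ q ∈
          pt ![((l : ℕ) : k), ((l : ℕ) : k), 1] ^ q := by
        refine Ideal.pow_mem_pow ?_ q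
        rw [mem_pt, map_sub, eval_X, eval_X]
        exact sub_self _
      exact le_csSup ⟨q, fun s hs => hb s hs⟩ h1
    rw [Finset.sum_congr rfl fun l _ => by rw [hm l]]
    rw [Finset.sum_const, Finset.card_univ, Fintype.card_fin, nsmul_eq_mul]
    push_cast
    ring

end Pool.Agent.Lib.MP387a85.TR
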