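import Pool.Agent.Lib.MP_387a85_ag.TR.Base

/-!
# MP_387a85_ag: curves of bounded tensor rank, exact statements of the modules

THEOREM.  For all `r`, `t` there is `C` such that for every field `k` of characteristic `0`, every integral plane curve of
degree `d` whose equation in some affine coordinates `x`, `y` (of a projective coordinate system) is
`f_1(x) g_1(y) + ⋯ + f_t(x) g_t(y)` and all distinct points `p_1, …, p_r`: `d² - ∑ mult_{p_i}(C)² ≥ -C`.

IDEA.  `t` minimal.  `det (∂_x^i ∂_y^j F)_{i,j<t} = Wr(f)(x) Wr(g)(y)`, so `t m ≤ ord_a Wr(f) + ord_b Wr(g) + 2t²` for the multiplicity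
`m` at `(a, b)`, and `deg Wr(f) + deg Wr(g) ≤ t d`, `deg Wr(f) ≤ t n`, `deg Wr(g) ≤ t m'`, `(n, m')` the bidegree.  The rest is a
statement about natural numbers (`CMB`), proved with Dickson's lemma.

Convention.  Module `XXX` = file `Pool/Agent/Lib/MP_387a85_ag/TR/XXX.lean`, imports only
`Pool.Agent.Lib.MP_387a85_ag.TR.Spec`, namespace `Pool.Agent.Lib.MP387a85.TR`, theorem
`specXXX (hYYY : SpecYYY) .. : SpecXXX` with the hypotheses in the order of USES, own lemmas in a namespace `XXXM`.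
`Base.lean` has `pt`, `mult`, `subst`, `deriv_mem`, `lt_card`, `z`, `coeff_z`, `z_mem`, `z_ne_zero`, `vertex`, `subst_mem`, ... (proved).
-/

set_option autoImplicit false

namespace Pool.Agent.Lib.MP387a85.TR

open MvPolynomial

/-- `∂_x^i ∂_y^j G` -/
noncomputable def Dij {k : Type} [Field k] (G : MvPolynomial (Fin 3) k) (i j : ℕ) :
    MvPolynomial (Fin 3) k :=
  (pderiv 1)^[j] ((pderiv 0)^[i] G)

/-- the Wronskian -/
noncomputable def Wr {k : Type} [Field k] {t : ℕ} (f : Fin t → Polynomial k) : Polynomial k :=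
  (Matrix.of fun i l : Fin t => (Polynomial.derivative^[(i : ℕ)] (f l))).det

/-- the affine equation of `G` is `∑ f_j(x) g_j(y)` -/
def Rep {k : Type} [Field k] {t : ℕ} (G : MvPolynomial (Fin 3) k) (f g : Fin t → Polynomial k) : Prop :=
  ∀ x y : k, eval ![x, y, 1] G = ∑ j, (f j).eval x * (g j).eval y

/-- `WRO` [130].  USES nothing.  The Wronskian of independent polynomials is not zero.
PROOF.  Strong induction on `∑ natDegree (f l)`.  All `f l ≠ 0`.  (a) If `natDegree (f l) = natDegree (f l')`, `l ≠ l'`: replace `f l` by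
`f l - c • f l'`, `c` the quotient of the leading coefficients: `≠ 0` by independence, of smaller degree (if the degree is `0` it would be
`0`), independence stays (`Fintype.linearIndependent_iff`), the determinant stays (`Matrix.det_updateCol_add_smul_self` or
`Matrix.det_eq_of_forall_col_eq_smul_add_const`, ...).  (b) All `e_l = natDegree (f l)` different: let `E` be at least all `e_l`; if `Wr f = 0` then
`det (X^(i + E - e_l) * derivative^[i] (f l)) = 0` (rows and columns multiplied); the entries have `natDegree ≤ E` and the coefficient of `X^E`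
is `e_l (e_l - 1) ⋯ (e_l - i + 1) * lc (f l)`; the coefficient of `X^(t E)` of the determinant is the determinant of these coefficients
(`Matrix.det_apply`, `Polynomial.coeff_prod_of_natDegree_le`), equal to `∏ lc (f l)` times a Vandermonde determinant
(`Matrix.det_eval_matrixOfPolynomials_eq_det_vandermonde` with `descPochhammer`, `Matrix.det_vandermonde_ne_zero_iff`), `≠ 0` in characteristic `0`. -/
def SpecWRO : Prop := ∀ (k : Type) [Field k] [CharZero k] (t : ℕ) (f : Fin t → Polynomial k),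
  LinearIndependent k f → Wr f ≠ 0

/-- `RED` [80].  USES nothing.  Reduction to independent polynomials.
PROOF.  Take `t'` minimal such that some `f' g' : Fin t' → k[X]` have the same sum (`Nat.find`), `t' ≤ t`.  If `f'` is dependent then `t' = s + 1` and some
`f' j = ∑ c_l f' l` over `l ≠ j` (`Fin.succAbove`), and `f' l (g' l + c_l g' j)`, `l ≠ j`, is a shorter sum.  In the same way for `g'`. -/
def SpecRED : Prop := ∀ (k : Type) [Field k] (t : ℕ) (f g : Fin t → Polynomial k),
  ∃ t' ≤ t, ∃ f' g' : Fin t' → Polynomial k, LinearIndependent k f' ∧ LinearIndependent k g' ∧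
    ∀ x y : k, ∑ j, (f' j).eval x * (g' j).eval y = ∑ j, (f j).eval x * (g j).eval y

/-- `KEY` [110].  USES nothing.  The factorisation.
PROOF.  `θ = aeval ![X 0, X 1, 1]`.  `θ G = ∑ l, aeval (X 0) (f l) * aeval (X 1) (g l)` (`MvPolynomial.funext`, `k` is infinite).  `pderiv 0 (θ H) = θ (pderiv 0 H)`, `pderiv 1 (θ H) = θ (pderiv 1 H)`
(induction on `H`), `pderiv 0 (aeval (X 0) f) = aeval (X 0) (derivative f)`, `pderiv 1 (aeval (X 0) f) = 0` (`Derivation.map_aeval`), so
`θ (Dij G i j) = ∑ l, aeval (X 0) (derivative^[i] (f l)) * aeval (X 1) (derivative^[j] (g l))`.  Apply `aeval ![p, q, 1]` (`aeval ![p, q, 1] (θ H) = aeval ![p, q, 1] H`,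
`aeval ![p, q, 1] (aeval (X 0) f) = f.comp p`).  So the matrix is the product `A * B.transpose` with `A i l = (derivative^[i] (f l)).comp p`,
`B j l = (derivative^[j] (g l)).comp q`; `Matrix.det_mul`, `det_transpose`, `RingHom.map_det` for `compRingHom`. -/
def SpecKEY : Prop := ∀ (k : Type) [Field k] [CharZero k] (t : ℕ) (G : MvPolynomial (Fin 3) k)
  (f g : Fin t → Polynomial k), Rep G f g → ∀ p q : Polynomial k,
  (Matrix.of fun i j : Fin t => (aeval ![p, q, 1] (Dij G i j) : Polynomial k)).det =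
    (Wr f).comp p * (Wr g).comp q

/-- `AFF` [100].  USES KEY.  The multiplicity at `(a, b)`.
PROOF.  If `s < 2t` it is trivial (`t s ≤ 2 t²`).  `Dij G i j ∈ pt v ^ (s - (i + j)) ≤ pt v ^ (s - 2t)`, `v = ![a, b, 1]` (`deriv_mem`, `i`, `j < t`).  `ψ = aeval ![X + C a, X + C b, 1]` maps `pt v` into the multiples of `X`
(the constant coefficient of `ψ H` is `eval v H`), so `X^(s - 2t)` divides all entries of the matrix in KEY with `p = X + C a`, `q = X + C b`, and `X^(t (s - 2t))` divides the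
determinant.  `Polynomial.rootMultiplicity_eq_rootMultiplicity` (composition with `X + C a`), `rootMultiplicity_mul`, `le_rootMultiplicity_iff`. -/
def SpecAFF : Prop := ∀ (k : Type) [Field k] [CharZero k] (t : ℕ) (G : MvPolynomial (Fin 3) k)
  (f g : Fin t → Polynomial k), Rep G f g → Wr f ≠ 0 → Wr g ≠ 0 → ∀ (a b : k) (s : ℕ),
  G ∈ pt ![a, b, 1] ^ s →
  t * s ≤ (Wr f).rootMultiplicity a + (Wr g).rootMultiplicity b + 2 * t ^ 2

/-- `DEG` [70].  USES KEY.
PROOF.  KEY with `p = q = X`: the entries have `natDegree ≤ d`: `Dij G i j` is homogeneous of degree `d - i - j` (`IsHomogeneous.pderiv`), and for `H` homogeneous of degree `e` the `natDegree` of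
`aeval ![X, X, 1] H` is at most `e` (sum over the monomials, `aeval_def`, `eval₂_eq'`).  So the determinant has `natDegree ≤ t d` (`det_apply`); `natDegree_mul`. -/
def SpecDEG : Prop := ∀ (k : Type) [Field k] [CharZero k] (t : ℕ) (G : MvPolynomial (Fin 3) k) (d : ℕ)
  (f g : Fin t → Polynomial k), G.IsHomogeneous d → Rep G f g → Wr f ≠ 0 → Wr g ≠ 0 →
  (Wr f).natDegree + (Wr g).natDegree ≤ t * d

/-- `DEX` [100].  USES nothing.
PROOF.  For `y : k`: `∑ l, C ((g l).eval y) * f l = aeval ![X, C y, 1] G` (equal values at all `x`, `k` infinite) has `natDegree ≤ degreeOf 0 G`.  So for `e > degreeOf 0 G`: `∑ l, (f l).coeff e * (g l).eval y = 0` for all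
`y`, so `∑ l, (f l).coeff e • g l = 0` and `(f l).coeff e = 0` by independence: `natDegree (f l) ≤ degreeOf 0 G`; `natDegree (Wr f) ≤ t * degreeOf 0 G` by `det_apply`.  The second part in the same way
with the variables exchanged. -/
def SpecDEX : Prop := ∀ (k : Type) [Field k] [CharZero k] (t : ℕ) (G : MvPolynomial (Fin 3) k)
  (f g : Fin t → Polynomial k), Rep G f g →
  (LinearIndependent k g → (Wr f).natDegree ≤ t * degreeOf 0 G) ∧
  (LinearIndependent k f → (Wr g).natDegree ≤ t * degreeOf 1 G)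

/-- `LOD` [150].  USES nothing.  Points on a vertical or horizontal line.
PROOF.  First part.  `R = aeval ![C a, X, 1] G`.  `aeval ![C a, X, 1]` maps `pt ![a, b, 1]` into the multiples of `X - C b`, so `rootMultiplicity (b i) R ≥ s i`.  `R ≠ 0`: otherwise
`aeval ![C a * X 2, X 1, X 2] G = 0` in `MvPolynomial (Fin 3) k` (it is homogeneous of degree `d` or `0` and vanishes at all `(x, y, 1)`, hence at all `(x, y, z)`, `z ≠ 0`; or by values: `eval (x, y, z)` of it is
`z^d * eval ![a, y/z, 1] G` for `z ≠ 0`), and `X 0 - C a * X 2` divides `G - aeval ![C a * X 2, X 1, X 2] G` (induction on `G`), contradiction.  `natDegree R ≤ degreeOf 1 G`, and the sum of the `rootMultiplicity (b i) R` over `i ∈ I` is at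
most `natDegree R` (`Polynomial.card_roots'`, `count_roots`, `b` injective on `I`).  Second part in the same way. -/
def SpecLOD : Prop := ∀ (k : Type) [Field k] [CharZero k] (G : MvPolynomial (Fin 3) k) (d r : ℕ),
  G.IsHomogeneous d → ∀ (a : k) (I : Finset (Fin r)) (b : Fin r → k) (s : Fin r → ℕ), Set.InjOn b I →
  ((¬ (X 0 - C a * X 2 : MvPolynomial (Fin 3) k) ∣ G) → (∀ i ∈ I, G ∈ pt ![a, b i, 1] ^ s i) →
    ∑ i ∈ I, s i ≤ degreeOf 1 G) ∧
  ((¬ (X 1 - C a * X 2 : MvPolynomial (Fin 3) k) ∣ G) → (∀ i ∈ I, G ∈ pt ![b i, a, 1] ^ s i) →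
    ∑ i ∈ I, s i ≤ degreeOf 0 G)

/-- `COF` [90].  USES nothing.  The coefficients.
PROOF.  `aeval ![C X, X, 1] : MvPolynomial (Fin 3) k →ₐ[k] Polynomial (Polynomial k)`, or: for `p`, `q` compare the coefficients in `θ G = ∑ l, aeval (X 0) (f l) * aeval (X 1) (g l)`, `θ = aeval ![X 0, X 1, 1]`.  By homogeneity the
only monomial `α` of `G` with `α 0 = p`, `α 1 = q` is `α 2 = d - p - q` (none if `p + q > d`). -/
def SpecCOF : Prop := ∀ (k : Type) [Field k] [CharZero k] (t : ℕ) (G : MvPolynomial (Fin 3) k) (d : ℕ)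
  (f g : Fin t → Polynomial k), G.IsHomogeneous d → Rep G f g →
  (∀ p q : ℕ, d < p + q → ∑ l, (f l).coeff p * (g l).coeff q = 0) ∧
  ∀ α ∈ G.support, ∑ l, (f l).coeff (α 0) * (g l).coeff (α 1) = coeff α G

/-- `INF` [110].  USES COF.  The points at infinity which are not vertices.
PROOF.  `G' = z 2 G ≠ 0` (`z_ne_zero`), `G' ∈ pt w ^ s` (`z_mem`), `s < G'.support.card` (`lt_card`; the monomials of `G'` have `α 2 = 0`, `coeff_z`).  `G'.support.card ≤ t`: otherwise there are `t + 1` monomials `α_0, …, α_t` of `G` with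
`α 2 = 0`, so `α 0 + α 1 = d`, ordered by `p_i = α_i 0` (strictly increasing; `Finset.orderEmbOfFin` of the image under `α ↦ α 0`).  The `(t+1) × (t+1)` matrix `N i j = ∑ l, (f l).coeff p_i * (g l).coeff (d - p_j)` is the product of a `(t+1) × t` and a
`t × (t+1)` matrix, so its determinant is `0` (rank at most `t`); but by COF it is triangular (`p_i + d - p_j > d` for `i > j`) with nonzero diagonal. -/
def SpecINF : Prop := ∀ (k : Type) [Field k] [CharZero k] (t : ℕ) (G : MvPolynomial (Fin 3) k) (d : ℕ)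
  (f g : Fin t → Polynomial k), G.IsHomogeneous d → Rep G f g → ¬ (X 2 : MvPolynomial (Fin 3) k) ∣ G →
  ∀ w : Fin 3 → k, w 2 = 0 → w 0 ≠ 0 → w 1 ≠ 0 → ∀ s : ℕ, G ∈ pt w ^ s → s ≤ t

/-- `SCL` [70].  USES nothing.  Scaling; the multiplicity is at most the degree.
PROOF.  `subst (c • 1) G = c^d • G` for `G` homogeneous of degree `d`, and `subst_mem` with `M = c • 1`, `M.mulVec v = c • v`: `G ∈ pt (c • v) ^ s` gives `c^d • G ∈ pt v ^ s`.  Second part: induction on `d`: if `d = 0`, `G` is a nonzero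
constant, `s = 0`.  If `d > 0`, some `pderiv i G ≠ 0` (a monomial with `α i > 0`, characteristic `0`), homogeneous of degree `d - 1`, in `pt v ^ (s - 1)` (`deriv_mem`). -/
def SpecSCL : Prop := ∀ (k : Type) [Field k] [CharZero k] (G : MvPolynomial (Fin 3) k) (d : ℕ),
  G.IsHomogeneous d →
  (∀ (c : k) (v : Fin 3 → k) (s : ℕ), c ≠ 0 → G ∈ pt (c • v) ^ s → G ∈ pt v ^ s) ∧
  (G ≠ 0 → ∀ (v : Fin 3 → k) (s : ℕ), G ∈ pt v ^ s → s ≤ d)

/-- `LIN` [60].  USES nothing.  An irreducible form divisible by one of these linear forms has degree `1`.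
PROOF.  `G = ℓ * u`, `ℓ` not a unit (value `0` at `0`), so `u` is a unit, `u = C c` (`MvPolynomial.isUnit_iff_eq_C_of_isReduced`), `G` is homogeneous of degree `1`, so `d = 1` (`IsHomogeneous.inj_right`). -/
def SpecLIN : Prop := ∀ (k : Type) [Field k] [CharZero k] (G : MvPolynomial (Fin 3) k) (d : ℕ),
  G.IsHomogeneous d → Irreducible G → d ≠ 1 →
  (¬ (X 2 : MvPolynomial (Fin 3) k) ∣ G) ∧ (∀ a : k, ¬ (X 0 - C a * X 2 : MvPolynomial (Fin 3) k) ∣ G) ∧
  ∀ a : k, ¬ (X 1 - C a * X 2 : MvPolynomial (Fin 3) k) ∣ G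

/-- `CMB` [180].  USES nothing.  The inequality between natural numbers.
PROOF.  Call `z = (d, n, m, e, u, w, U, W)` of type `c` if it satisfies the hypotheses.  `Q(z) = ∑ e_i² + (n + m - d)² - 2 n m`.
(a) If `h` is of type `0` and `z'` of type `c` (any `c`) then `B(h, z') = ∑ e_i e'_i + (n + m - d)(n' + m' - d') - n m' - m n' ≤ 0`: multiply by `t ≥ 1`:
`t ∑ e_i e'_i ≤ ∑ e'_i (u (α i) + w (β i)) = ∑_a u a (∑_{α i = a} e'_i) + ∑_b w b (∑_{β i = b} e'_i) ≤ m' U + n' W`, and with `μ = n + m - d`, `μ' = n' + m' - d'`, `0 ≤ μ' ≤ m'`, `μ' ≤ n'`, `t μ ≤ (t n - U) + (t m - W)` (as `U + W ≤ t d`), so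
`t μ μ' ≤ m' (t n - U) + n' (t m - W)`; add.
(b) Suppose that `Q` is not bounded on type `c`.  Choose `z_0, z_1, …` of type `c` with `Q(z_0) < Q(z_1) < ⋯`.  To each `z` belongs the vector in `ℕ^N` of all its coordinates, of `n + m - d`, and of all slacks of the hypotheses (right side minus left
side).  `ℕ^N` is well quasi-ordered (Dickson: `Pi.isPWO`, `wellQuasiOrderedLE_def`), so there are `j < l` with vector of `z_j` ≤ vector of `z_l`.  Then `h = z_l - z_j` (coordinates) is of type `0` (the constant `c` cancels), and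
`Q(z_l) = Q(z_j) + 2 B(h, z_j) + B(h, h) ≤ Q(z_j)`, contradiction. -/
def SpecCMB : Prop := ∀ (r t c : ℕ) (α β : Fin r → Fin r), 1 ≤ t → ∃ K : ℕ,
  ∀ (d n m U W : ℕ) (e u w : Fin r → ℕ),
    (∀ i, t * e i ≤ u (α i) + w (β i) + c) → ∑ a, u a ≤ U → ∑ b, w b ≤ W → U + W ≤ t * d →
    U ≤ t * n → W ≤ t * m → (∀ a, ∑ i with α i = a, e i ≤ m) → (∀ b, ∑ i with β i = b, e i ≤ n) →
    n ≤ d → m ≤ d → d ≤ n + m →
    (∑ i, (e i : ℤ) ^ 2) + ((n : ℤ) + m - d) ^ 2 ≤ 2 * n * m + K

end Pool.Agent.Lib.MP387a85.TR
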