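import Pool.Agent.Lib.MP_387a85_ag.TR.Spec

/-!
# MP_387a85_ag: curves of bounded tensor rank, the quantitative form (second part)

THEOREM.  (1) For every `r` there is `K` such that `d² - ∑ mult² ≥ -K t²` for all `t`, all integral plane curves of degree `d` and tensor
rank `≤ t` and all `r` distinct points.  (2) If the points are affine with distinct `x_i` and distinct `y_i` then
`d² - ∑ mult² ≥ -(r - 1) (t - 1)²` (sharp: `(x - y)^(t-1)`).

Convention as in `Spec.lean`: module `XXX` = file `Pool/Agent/Lib/MP_387a85_ag/TR/XXX.lean`, imports only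
`Pool.Agent.Lib.MP_387a85_ag.TR.SpecX` (AFX and DGX may copy the text of `AFF.lean`, `DEG.lean`), namespace `Pool.Agent.Lib.MP387a85.TR`,
theorem `specXXX (hYYY : SpecYYY) .. : SpecXXX`, own lemmas in a namespace `XXXM`.
-/

set_option autoImplicit false

namespace Pool.Agent.Lib.MP387a85.TR

open MvPolynomial

/-- `AFX` [100].  USES KEY.  `AFF` with the exact constant.
PROOF.  Copy `AFF.lean`.  The entry `(i, j)` of the matrix in KEY is divisible by `X^(s - (i + j))` (truncated), so each term `∏ i, M (σ i) i` of the determinant (`Matrix.det_apply`) is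
divisible by `X` to the power `∑ i, (s - (σ i + i)) ≥ t s - ∑ i, (σ i + i) = t s - t (t - 1)` (`Equiv.sum_comp`, `Finset.sum_range_id_mul_two`), hence the determinant is. -/
def SpecAFX : Prop := ∀ (k : Type) [Field k] [CharZero k] (t : ℕ) (G : MvPolynomial (Fin 3) k)
  (f g : Fin t → Polynomial k), Rep G f g → Wr f ≠ 0 → Wr g ≠ 0 → ∀ (a b : k) (s : ℕ),
  G ∈ pt ![a, b, 1] ^ s →
  t * s ≤ (Wr f).rootMultiplicity a + (Wr g).rootMultiplicity b + t * (t - 1)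

/-- `DGX` [90].  USES KEY.  `DEG` with the exact constant.
PROOF.  Copy `DEG.lean`.  With `p = q = X` the entry `(i, j)` has `natDegree ≤ d - (i + j)` if `i + j ≤ d`, and is `0` if `i + j > d`.  If `t (t - 1) > t d` or the degree of the determinant is bigger than `t d - t (t - 1)`: every term
`∏ i, M (σ i) i` which is not zero has `σ i + i ≤ d` for all `i`, so degree `≤ ∑ i, (d - (σ i + i)) = t d - t (t - 1)` and `t (t - 1) ≤ t d`; the determinant is `Wr f * Wr g ≠ 0`, so one term is not zero (`Matrix.det_apply`, `natDegree_sum_le_of_forall_le`). -/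
def SpecDGX : Prop := ∀ (k : Type) [Field k] [CharZero k] (t : ℕ) (G : MvPolynomial (Fin 3) k) (d : ℕ)
  (f g : Fin t → Polynomial k), G.IsHomogeneous d → Rep G f g → Wr f ≠ 0 → Wr g ≠ 0 →
  (Wr f).natDegree + (Wr g).natDegree + t * (t - 1) ≤ t * d

/-- `DEC` [130].  USES nothing.  A point of a polyhedron is the sum of a bounded point of it and of an element of its recession cone.
PROOF.  (a) `z ↦ (ℓ j z)_j` is linear and injective on a finite-dimensional space, so there is `C > 0` with `‖z‖ ≤ C max |ℓ j z|` (`LinearMap.injective_iff_antilipschitz` or `LinearMap.exists_antilipschitzWith`).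
(b) Call `v` reduced if `b j ≤ ℓ j v` for all `j`, and there is no `ρ ≠ 0` with `0 ≤ ℓ j ρ` and `b j ≤ ℓ j (v - ρ)` for all `j`.  For `z` with `b j ≤ ℓ j z` the set `S = {v | ∀ j, b j ≤ ℓ j v ≤ ℓ j z}` is closed and bounded by (a), so compact, and
contains `z`; let `v` be a point of `S` where `∑ j, ℓ j v` is minimal (`IsCompact.exists_isMinOn`).  `v` is reduced: otherwise `v - ρ ∈ S` has a smaller sum (`ρ ≠ 0`, so some `ℓ j ρ > 0`).  `0 ≤ ℓ j (z - v)`.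
(c) The reduced `v` are bounded: otherwise there are reduced `v_n` with `‖v_n‖ ≥ n + 1`; `v_n / ‖v_n‖` has a subsequence converging to some `ρ`, `‖ρ‖ = 1` (`IsCompact.tendsto_subseq`, `isCompact_sphere`).  `ℓ j ρ = lim ℓ j v_n / ‖v_n‖ ≥ lim b j / ‖v_n‖ = 0`.
If `ℓ j ρ = 0` then `ℓ j (v_n - ρ) = ℓ j v_n ≥ b j`; if `ℓ j ρ > 0` then `ℓ j v_n ≥ ‖v_n‖ ℓ j ρ / 2 → ∞` along the subsequence, so `ℓ j (v_n - ρ) ≥ b j` for large `n`.  So some `v_n` is not reduced (`ρ ≠ 0`), contradiction. -/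
def SpecDEC : Prop := ∀ (E : Type) [NormedAddCommGroup E] [NormedSpace ℝ E] [FiniteDimensional ℝ E]
  (κ : Type) [Fintype κ] (ℓ : κ → E →ₗ[ℝ] ℝ) (b : κ → ℝ), (∀ z : E, (∀ j, ℓ j z = 0) → z = 0) →
  ∃ R : ℝ, ∀ z : E, (∀ j, b j ≤ ℓ j z) →
    ∃ v : E, ‖v‖ ≤ R ∧ (∀ j, b j ≤ ℓ j v) ∧ ∀ j, 0 ≤ ℓ j (z - v)

/-- `CMR` [200].  USES DEC.  The inequality between real numbers.
PROOF.  Call `z = (d, n, m, e, u, w)` of type `c` if it satisfies the hypotheses with `c` (also the signs).  `Q(z) = ∑ e_i² + (n + m - d)² - 2 n m`, `B` its bilinear form.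
(a) If `h` is of type `0` and `z'` of type `c` (any `c ≥ 0`) then `B(h, z') = ∑ e_i e'_i + (n + m - d)(n' + m' - d') - n m' - m n' ≤ 0`:
`∑ e_i e'_i ≤ ∑ e'_i (u (α i) + w (β i)) = ∑_a u a (∑_{α i = a} e'_i) + ∑_b w b (∑_{β i = b} e'_i) ≤ m' U + n' W` with `U = ∑ u`, `W = ∑ w` (`Finset.sum_fiberwise`); `μ' = n' + m' - d'` satisfies `0 ≤ μ' ≤ m'`, `μ' ≤ n'`, and
`0 ≤ μ = n + m - d ≤ (n - U) + (m - W)`, so `μ μ' ≤ m' (n - U) + n' (m - W)`; add.
(b) `c = 0`: `Q(z) = B(z, z) ≤ 0`.  `c > 0`: `z / c` is of type `1` and `Q(z) = c² Q(z / c)`, so let `c = 1`.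
(c) `c = 1`.  DEC for `E = ℝ × ℝ × ℝ × (Fin r → ℝ) × (Fin r → ℝ) × (Fin r → ℝ)`, the `ℓ j` are the coordinates and the differences (right side without the constant `1` minus left side) of all hypotheses, the `b j` are `0` or (first hypothesis) `-1`.
So `z = v + h`, `v` of type `1` with `‖v‖ ≤ R` (all coordinates of absolute value `≤ R`), `h` of type `0`.  `Q(z) = Q(v) + 2 B(h, v) + B(h, h) ≤ Q(v) ≤ r R² + 9 R²` (`2 n m ≥ 0`).  `K = (r + 9) R²`. -/
def SpecCMR : Prop := ∀ (r : ℕ) (α β : Fin r → Fin r), ∃ K : ℝ, 0 ≤ K ∧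
  ∀ (c d n m : ℝ) (e u w : Fin r → ℝ), 0 ≤ c → 0 ≤ d → 0 ≤ n → 0 ≤ m →
    (∀ i, 0 ≤ e i) → (∀ a, 0 ≤ u a) → (∀ b, 0 ≤ w b) →
    (∀ i, e i ≤ u (α i) + w (β i) + c) → ∑ a, u a + ∑ b, w b ≤ d → ∑ a, u a ≤ n → ∑ b, w b ≤ m →
    (∀ a, ∑ i with α i = a, e i ≤ m) → (∀ b, ∑ i with β i = b, e i ≤ n) →
    n ≤ d → m ≤ d → d ≤ n + m →
    (∑ i, (e i) ^ 2) + (n + m - d) ^ 2 ≤ 2 * n * m + K * c ^ 2

/-- `BRG` [70].  USES CMR.  The same for natural numbers, with denominators `t`.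
PROOF.  CMR with `c = 2 t`, `e i`, `u a / t`, `w b / t` (casts); `∑ u a / t ≤ U / t ≤ n`, `∑ u a / t + ∑ w b / t ≤ (U + W) / t ≤ d`.  `K = ⌈4 K_CMR⌉₊`; the result is an inequality between integers (`exact_mod_cast`). -/
def SpecBRG : Prop := ∀ (r : ℕ) (α β : Fin r → Fin r), ∃ K : ℕ, ∀ t : ℕ, 1 ≤ t →
  ∀ (d n m U W : ℕ) (e u w : Fin r → ℕ),
    (∀ i, t * e i ≤ u (α i) + w (β i) + 2 * t ^ 2) → ∑ a, u a ≤ U → ∑ b, w b ≤ W → U + W ≤ t * d →
    U ≤ t * n → W ≤ t * m → (∀ a, ∑ i with α i = a, e i ≤ m) → (∀ b, ∑ i with β i = b, e i ≤ n) →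
    n ≤ d → m ≤ d → d ≤ n + m →
    (∑ i, (e i : ℤ) ^ 2) + ((n : ℤ) + m - d) ^ 2 ≤ 2 * n * m + K * t ^ 2

end Pool.Agent.Lib.MP387a85.TR
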