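import Pool.Agent.Lib.MP_387a85_ag.TR.Spec

/-!
# MP_387a85_ag, module WRO: the Wronskian of independent polynomials is not zero

If the Wronskian is zero, a nonzero differential operator `∑ v_i D^i` of order `s < t` kills all the `f_l`. Take `a` with
`v_s(a) ≠ 0` and a nonzero combination `g` of the `f_l` with `g^(i)(a) = 0` for `i < s`; with `m` the multiplicity of `a`
as a root of `g`, `(X - a)^(m - s + 1)` divides `v_s D^s g`, so `D^m g` vanishes at `a`, a contradiction.
-/

set_option autoImplicit false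

namespace Pool.Agent.Lib.MP387a85.TR

namespace WROM

open Polynomial

theorem exists_eval_ne {k : Type} [Field k] [CharZero k] (p : k[X]) (hp : p ≠ 0) : ∃ a : k, eval a p ≠ 0 := by
  by_contra h
  push Not at h
  apply hp
  apply Polynomial.funext
  intro a
  rw [h a, eval_zero]

theorem iter_comb {k : Type} [Field k] {t : ℕ} (f : Fin t → k[X]) (c : Fin t → k) (i : ℕ) :
    derivative^[i] (∑ l, c l • f l) = ∑ l, c l • derivative^[i] (f l) := by
  rw [iterate_derivative_sum]
  apply Finset.sum_congr rfl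
  intro l _
  rw [iterate_derivative_smul]

/-- an operator with nonzero leading coefficient at `a` kills no nonzero polynomial with `s` zeros at `a` -/
theorem core {k : Type} [Field k] [CharZero k] {t : ℕ} (v : Fin t → k[X]) (s : Fin t)
    (hs : ∀ i, s < i → v i = 0) (a : k) (ha : eval a (v s) ≠ 0) (g : k[X]) (hg : g ≠ 0)
    (h0 : ∀ i : ℕ, i < s → eval a (derivative^[i] g) = 0)
    (hL : ∑ i : Fin t, v i * derivative^[(i : ℕ)] g = 0) : False := by
  set m := rootMultiplicity a g with hm
  have hD : eval a (derivative^[m] g) ≠ 0 := by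
    rw [hm, eval_iterate_derivative_rootMultiplicity, nsmul_eq_mul]
    exact mul_ne_zero (Nat.cast_ne_zero.2 (Nat.factorial_ne_zero _))
      (eval_divByMonic_pow_rootMultiplicity_ne_zero a hg)
  have hsm : (s : ℕ) ≤ m := by
    by_contra hlt
    push Not at hlt
    exact hD (h0 m hlt)
  have hdv : (X - C a) ^ m ∣ g := pow_rootMultiplicity_dvd g a
  have hother : (X - C a) ^ (m - s + 1) ∣ ∑ i ∈ Finset.univ.erase s, v i * derivative^[(i : ℕ)] g := by
    apply Finset.dvd_sum
    intro i hi
    have hne : i ≠ s := (Finset.mem_erase.1 hi).1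
    rcases lt_or_gt_of_ne hne with hlt | hgt
    · have h1 := pow_sub_dvd_iterate_derivative_of_pow_dvd (i : ℕ) hdv
      have h2 : (i : ℕ) < s := hlt
      exact ((pow_dvd_pow _ (by omega)).trans h1).mul_left _
    · rw [hs i hgt, zero_mul]
      exact dvd_zero _
  have hs1 : (X - C a) ^ (m - s + 1) ∣ v s * derivative^[(s : ℕ)] g := by
    have h1 := Finset.add_sum_erase Finset.univ (fun i : Fin t => v i * derivative^[(i : ℕ)] g) (Finset.mem_univ s)
    rw [hL] at h1
    have h2 : v s * derivative^[(s : ℕ)] g = -∑ i ∈ Finset.univ.erase s, v i * derivative^[(i : ℕ)] g :=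
      eq_neg_of_add_eq_zero_left h1
    rw [h2]
    exact (dvd_neg).2 hother
  have hcop : IsCoprime ((X - C a) ^ (m - s + 1)) (v s) := by
    apply IsCoprime.pow_left
    rw [(irreducible_X_sub_C a).coprime_iff_not_dvd, dvd_iff_isRoot]
    exact ha
  have hs2 : (X - C a) ^ (m - s + 1) ∣ derivative^[(s : ℕ)] g := hcop.dvd_of_dvd_mul_left hs1
  have hs3 := pow_sub_dvd_iterate_derivative_of_pow_dvd (m - s) hs2
  have he : m - s + 1 - (m - s) = 1 := by omega
  rw [he, pow_one, ← Function.iterate_add_apply, Nat.sub_add_cancel hsm, dvd_iff_isRoot] at hs3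
  exact hD hs3

end WROM

theorem specWRO : SpecWRO := by
  intro k _ _ t f hf h0
  classical
  unfold Wr at h0
  obtain ⟨v, hv, hvM⟩ := Matrix.exists_vecMul_eq_zero_iff.2 h0
  have hne : (Finset.univ.filter (fun i : Fin t => v i ≠ 0)).Nonempty := by
    obtain ⟨i, hi⟩ := Function.ne_iff.1 hv
    exact ⟨i, Finset.mem_filter.2 ⟨Finset.mem_univ i, hi⟩⟩
  set s := (Finset.univ.filter (fun i : Fin t => v i ≠ 0)).max' hne with hsdef
  have hs : v s ≠ 0 := (Finset.mem_filter.1 (Finset.max'_mem _ hne)).2
  have hsmax : ∀ i, s < i → v i = 0 := by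
    intro i hi
    by_contra h
    have h1 := Finset.le_max' (Finset.univ.filter (fun i : Fin t => v i ≠ 0)) i
      (Finset.mem_filter.2 ⟨Finset.mem_univ i, h⟩)
    exact absurd hi (not_lt.2 h1)
  obtain ⟨a, ha⟩ := WROM.exists_eval_ne (v s) hs
  let B : Matrix (Fin t) (Fin t) k := Matrix.of fun i l =>
    if i < s then Polynomial.eval a (Polynomial.derivative^[(i : ℕ)] (f l)) else 0
  have hB : B.det = 0 := Matrix.det_eq_zero_of_row_eq_zero s (fun l => by simp [B])
  obtain ⟨c, hc, hBc⟩ := Matrix.exists_mulVec_eq_zero_iff.2 hB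
  refine WROM.core v s hsmax a ha (∑ l, c l • f l) ?_ ?_ ?_
  · intro h
    exact hc (funext (Fintype.linearIndependent_iff.1 hf c h))
  · intro i hi
    have h1 := congrFun hBc ⟨i, hi.trans s.2⟩
    rw [WROM.iter_comb, Polynomial.eval_finsetSum]
    simp only [Matrix.mulVec, dotProduct, Pi.zero_apply, B, Matrix.of_apply] at h1
    have h2 : (⟨i, hi.trans s.2⟩ : Fin t) < s := hi
    simp only [if_pos h2] at h1
    rw [← h1]
    apply Finset.sum_congr rfl
    intro l _
    rw [Polynomial.eval_smul, smul_eq_mul, mul_comm]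
  · have h1 : ∀ l, ∑ i : Fin t, v i * Polynomial.derivative^[(i : ℕ)] (f l) = 0 := by
      intro l
      have h2 := congrFun hvM l
      simpa only [Matrix.vecMul, dotProduct, Pi.zero_apply, Matrix.of_apply] using h2
    have h3 : ∀ i : Fin t, v i * Polynomial.derivative^[(i : ℕ)] (∑ l, c l • f l) =
        ∑ l, c l • (v i * Polynomial.derivative^[(i : ℕ)] (f l)) := by
      intro i
      rw [WROM.iter_comb, Finset.mul_sum]
      apply Finset.sum_congr rfl
      intro l _
      rw [mul_smul_comm]
    rw [Finset.sum_congr rfl (fun i _ => h3 i), Finset.sum_comm]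
    apply Finset.sum_eq_zero
    intro l _
    rw [← Finset.smul_sum, h1 l, smul_zero]

end Pool.Agent.Lib.MP387a85.TR
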